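import Mathlib

/-!
# String Coxeter groups: definitions
-/

set_option autoImplicit false

namespace Petrie

/-- The Coxeter matrix of the string diagram with the labels `p 0, p 1, ...` between the
generators `0, 1, 2, ...`; generators which are not consecutive commute; the label `0` stands for
`∞` (no relation). -/
def strMat (m : ℕ) (p : ℕ → ℕ) (hp : ∀ i, p i ≠ 1) : CoxeterMatrix (Fin m) where
  M := Matrix.of fun i j =>
    if i = j then 1
    else if (j : ℕ) = i + 1 then p i
    else if (i : ℕ) = j + 1 then p j
    else 2
  isSymm := by
    ext i j
    simp only [Matrix.transpose_apply, Matrix.of_apply]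
    by_cases h : i = j
    · subst h; rfl
    · have h' : ¬ j = i := fun e => h e.symm
      rw [if_neg h, if_neg h']
      by_cases h1 : (j : ℕ) = i + 1
      · have h2 : ¬ (i : ℕ) = j + 1 := by omega
        rw [if_pos h1, if_neg h2, if_pos h1]
      · by_cases h2 : (i : ℕ) = j + 1
        · rw [if_pos h2, if_neg h1, if_pos h2]
        · rw [if_neg h2, if_neg h1, if_neg h1, if_neg h2]
  diagonal i := by simp
  off_diagonal i j h := by
    simp only [Matrix.of_apply]
    rw [if_neg h]
    split
    · exact hp _
    · split
      · exact hp _
      · norm_num

/-- `i` and `j` lie in the same component of the string diagram with labels `p` -/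
def Same (p : ℕ → ℕ) (i j : ℕ) : Prop := ∀ k, min i j ≤ k → k < max i j → p k ≠ 2

open Classical in
/-- The Coxeter element of the component of `i` of the string diagram: the product of the
generators of the component in the natural order. -/
noncomputable def coxElt {m : ℕ} {p : ℕ → ℕ} {hp : ∀ i, p i ≠ 1} {W : Type*} [Group W]
    (cs : CoxeterSystem (strMat m p hp) W) (i : Fin m) : W :=
  (((List.finRange m).filter (fun j : Fin m => decide (Same p i j))).map cs.simple).prod

end Petrie
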