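import Mathlib

/-!
# All orderings of the generators of a string group have conjugate products
-/

set_option autoImplicit false

namespace Petrie

section conj

variable {G : Type*} [Group G] (s : ℕ → G)

theorem commute_prod (hs : ∀ i j, i + 2 ≤ j → Commute (s i) (s j)) (j : ℕ) (l : List ℕ)
    (h : ∀ i ∈ l, i + 2 ≤ j) : Commute (l.map s).prod (s j) := by
  induction l with
  | nil => simp
  | cons i l ih =>
    rw [List.map_cons, List.prod_cons]
    exact (hs i j (h i (by simp))).mul_left (ih (fun k hk => h k (by simp [hk])))

theorem commute_prod_prod (hs : ∀ i j, i + 2 ≤ j → Commute (s i) (s j)) (l l' : List ℕ)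
    (h : ∀ i ∈ l, ∀ j ∈ l', i + 2 ≤ j) : Commute (l.map s).prod (l'.map s).prod := by
  induction l' with
  | nil => simp
  | cons j l' ih =>
    rw [List.map_cons, List.prod_cons]
    exact (commute_prod s hs j l (fun i hi => h i hi j (by simp))).mul_right
      (ih (fun i hi k hk => h i hi k (by simp [hk])))

theorem conj_step (hs : ∀ i j, i + 2 ≤ j → Commute (s i) (s j)) (a : ℕ) (k : ℕ) :
    ∀ (n : ℕ) (l : List ℕ), l.Nodup → (∀ x, x ∈ l ↔ a ≤ x ∧ x ≤ a + k) →
      IsConj ((l.map s).prod * ((List.range' (a + k + 1) n).map s).prod)
        ((List.range' a (k + 1 + n)).map s).prod := by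
  induction k with
  | zero =>
    intro n l hl hm
    have h1 : l = [a] := by
      have hp : l.Perm [a] := by
        rw [List.perm_ext_iff_of_nodup hl (by simp)]
        intro x
        rw [hm x]
        simp only [add_zero, List.mem_singleton]
        omega
      exact List.perm_singleton.mp hp
    subst h1
    have h2 : List.range' a (0 + 1 + n) = a :: List.range' (a + 0 + 1) n := by
      rw [show 0 + 1 + n = n + 1 by ring, List.range'_succ]
    rw [h2]
    simp only [List.map_cons, List.prod_cons, List.map_nil, List.prod_nil, mul_one]
    exact IsConj.refl _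
  | succ k ih =>
    intro n l hl hm
    have hmem : a + (k + 1) ∈ l := (hm _).mpr ⟨by omega, le_rfl⟩
    obtain ⟨l1, l2, rfl⟩ := List.append_of_mem hmem
    rw [List.nodup_append] at hl
    obtain ⟨hl1, hl2, hdis⟩ := hl
    rw [List.nodup_cons] at hl2
    have hl' : (l1 ++ l2).Nodup := by
      rw [List.nodup_append]
      exact ⟨hl1, hl2.2, fun x hx y hy => hdis x hx y (by simp [hy])⟩
    have hn1 : a + (k + 1) ∉ l1 := fun h => hdis _ h _ (by simp) rfl
    have hm' : ∀ x, x ∈ l1 ++ l2 ↔ a ≤ x ∧ x ≤ a + k := by
      intro x
      have h1 := hm x
      rw [List.mem_append, List.mem_cons] at h1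
      rw [List.mem_append]
      constructor
      · intro hx
        have hx' : a ≤ x ∧ x ≤ a + (k + 1) := h1.mp (by tauto)
        have hne : x ≠ a + (k + 1) := by
          rintro rfl
          rcases hx with hx | hx
          · exact hn1 hx
          · exact hl2.1 hx
        omega
      · intro hx
        have := h1.mpr (by omega)
        rcases this with h | h | h
        · exact Or.inl h
        · omega
        · exact Or.inr h
    have hIH := ih (n + 1) (l1 ++ l2) hl' hm'
    have hr : List.range' (a + k + 1) (n + 1) = (a + k + 1) :: List.range' (a + (k + 1) + 1) n := by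
      rw [List.range'_succ]; rfl
    rw [hr, List.map_cons, List.prod_cons] at hIH
    rw [show k + 1 + 1 + n = k + 1 + (n + 1) by ring]
    refine IsConj.trans ?_ hIH
    set R := ((List.range' (a + (k + 1) + 1) n).map s).prod with hR
    by_cases hk : a + k ∈ l2
    · -- elements of `l1` commute with the new generator
      have hc : Commute (l1.map s).prod (s (a + (k + 1))) := by
        apply commute_prod s hs
        intro i hi
        have h1 := (hm' i).mp (List.mem_append_left _ hi)
        have h2 : i ≠ a + k := by
          rintro rfl
          exact hdis _ hi _ (by simp [hk]) rfl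
        omega
      have hc2 : Commute ((l1 ++ l2).map s).prod R := by
        apply commute_prod_prod s hs
        intro i hi j hj
        have h1 := (hm' i).mp hi
        rw [List.mem_range'_1] at hj
        omega
      have e1 : ((l1 ++ (a + (k + 1)) :: l2).map s).prod * R =
          s (a + k + 1) * R * ((l1 ++ l2).map s).prod := by
        rw [List.map_append, List.prod_append, List.map_cons, List.prod_cons, ← mul_assoc, hc.eq,
          mul_assoc (s (a + (k + 1))), ← List.prod_append, ← List.map_append, mul_assoc, hc2.eq,
          ← mul_assoc]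
        rfl
      rw [e1]
      rw [isConj_iff]
      exact ⟨((l1 ++ l2).map s).prod, by group⟩
    · have hc : Commute (l2.map s).prod (s (a + (k + 1))) := by
        apply commute_prod s hs
        intro i hi
        have h1 := (hm' i).mp (List.mem_append_right _ hi)
        have h2 : i ≠ a + k := by
          rintro rfl
          exact hk hi
        omega
      have e1 : ((l1 ++ (a + (k + 1)) :: l2).map s).prod * R =
          ((l1 ++ l2).map s).prod * (s (a + k + 1) * R) := by
        rw [List.map_append, List.prod_append, List.map_cons, List.prod_cons, ← hc.eq,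
          ← mul_assoc, ← List.prod_append, ← List.map_append, mul_assoc]
        rfl
      rw [e1]

theorem conj_all (hs : ∀ i j, i + 2 ≤ j → Commute (s i) (s j)) (a k : ℕ) (l l' : List ℕ)
    (hl : l.Nodup) (hm : ∀ x, x ∈ l ↔ a ≤ x ∧ x ≤ a + k)
    (hl' : l'.Nodup) (hm' : ∀ x, x ∈ l' ↔ a ≤ x ∧ x ≤ a + k) :
    IsConj (l.map s).prod (l'.map s).prod := by
  have h1 := conj_step s hs a k 0 l hl hm
  have h2 := conj_step s hs a k 0 l' hl' hm'
  simp only [List.range'_zero, List.map_nil, List.prod_nil, mul_one] at h1 h2
  exact h1.trans h2.symm

end conj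

end Petrie
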