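import Mathlib
import Pool.Agent.Lib.MP_8fe54c_gt.ArtPara

/-!
# An element of a Coxeter group which fixes a point of the open fundamental chamber is trivial
-/

set_option autoImplicit false

namespace Petrie

open CoxeterSystem OS

variable {B : Type*} {M : CoxeterMatrix B} {W : Type*} [Group W] (cs : CoxeterSystem M W)

/-- the alternating word of length `n` beginning with `i` -/
def alt : ℕ → B → B → List B
  | 0, _, _ => []
  | n + 1, i, j => i :: alt n j i

theorem alt_length (n : ℕ) : ∀ i j : B, (alt n i j).length = n := by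
  induction n with
  | zero => intro i j; rfl
  | succ n ih => intro i j; simp [alt, ih]

theorem alt_even (n : ℕ) (i j : B) :
    cs.wordProd (alt (2 * n) i j) = (cs.simple i * cs.simple j) ^ n := by
  induction n with
  | zero => simp [alt]
  | succ n ih =>
    have : 2 * (n + 1) = 2 * n + 1 + 1 := by ring
    rw [this, alt, alt, cs.wordProd_cons, cs.wordProd_cons, ih, pow_succ', mul_assoc]

theorem alt_odd (n : ℕ) (i j : B) :
    cs.wordProd (alt (2 * n + 1) i j) = (cs.simple i * cs.simple j) ^ n * cs.simple i := by
  rw [alt, cs.wordProd_cons, alt_even]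
  induction n with
  | zero => simp
  | succ n ih =>
    rw [pow_succ', pow_succ']
    have : cs.simple i * (cs.simple j * cs.simple i * (cs.simple j * cs.simple i) ^ n) =
      cs.simple i * cs.simple j * (cs.simple i * (cs.simple j * cs.simple i) ^ n) := by
      simp only [mul_assoc]
    rw [this, ih]
    simp only [mul_assoc]

theorem alt_add (a b : ℕ) : ∀ i j : B, ∃ ρ : List B, alt (a + b) i j = alt a i j ++ ρ := by
  induction a with
  | zero => intro i j; exact ⟨alt (0 + b) i j, by simp [alt]⟩
  | succ a ih =>
    intro i j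
    obtain ⟨ρ, h⟩ := ih j i
    refine ⟨ρ, ?_⟩
    have : a + 1 + b = a + b + 1 := by ring
    rw [this, alt, alt, h, List.cons_append]

/-- the braid relation -/
theorem alt_braid (i j : B) (n : ℕ) (h : (cs.simple i * cs.simple j) ^ n = 1) :
    cs.wordProd (alt n i j) = cs.wordProd (alt n j i) := by
  have hinv : ∀ k : ℕ, (cs.simple j * cs.simple i) ^ k = ((cs.simple i * cs.simple j) ^ k)⁻¹ := by
    intro k
    rw [← inv_pow, mul_inv_rev, cs.inv_simple, cs.inv_simple]
  rcases Nat.even_or_odd' n with ⟨k, rfl | rfl⟩
  · rw [alt_even, alt_even, hinv, eq_inv_iff_mul_eq_one, ← pow_add, ← two_mul, h]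
  · rw [alt_odd, alt_odd, hinv]
    rw [eq_inv_mul_iff_mul_eq, ← mul_assoc, ← pow_add, ← two_mul]
    rw [← mul_inv_eq_one, cs.inv_simple, mul_assoc, ← pow_succ, h]

theorem isReduced_tail' {i : B} {ω : List B} (h : cs.IsReduced (i :: ω)) : cs.IsReduced ω :=
  AR3_isReduced_tail cs h

/-- a reduced word in two letters is alternating -/
theorem eq_alt (ω : List B) : ∀ i j : B, cs.IsReduced ω → (∀ k ∈ ω, k = i ∨ k = j) →
    (∀ k ω', ω = k :: ω' → k = i) → ω = alt ω.length i j := by
  induction ω with
  | nil => intro i j _ _ _; rfl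
  | cons k ω ih =>
    intro i j hred hmem hhead
    have hk : k = i := hhead k ω rfl
    subst hk
    rw [List.length_cons, alt]
    congr 1
    apply ih j k (isReduced_tail' cs hred)
    · intro l hl
      exact (hmem l (List.mem_cons_of_mem _ hl)).symm
    · intro l ω' hω
      rcases hmem l (by rw [hω]; simp) with h | h
      · exfalso
        subst h
        subst hω
        have h1 := hred.eq
        rw [cs.wordProd_cons, cs.wordProd_cons, cs.simple_mul_simple_cancel_left] at h1
        have h2 := cs.length_wordProd_le ω'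
        rw [h1] at h2
        simp at h2
      · exact h

/-- positivity in the rank two subgroups -/
theorem alt_pos (i j : B) (hij : i ≠ j) (n : ℕ) (hn : M i j = 0 ∨ n < M i j) (f : B → ℝ)
    (hi : 0 < f i) (hj : 0 < f j) : 0 < (AR1_rho cs (cs.wordProd (alt n i j))) f j := by
  by_cases hm : M i j = 0
  · have hij' : AR1_b M i j = -1 := by simp [AR1_b, hm]
    rcases Nat.even_or_odd' n with ⟨k, rfl | rfl⟩
    · rw [alt_even, AR1_rho_pow, (AR1_pow_zero M i j hm f k).2]
      have : (0 : ℝ) ≤ k := Nat.cast_nonneg k
      have := mul_nonneg this (add_pos hi hj).le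
      linarith
    · rw [alt_odd, map_mul, AR1_rho_pow, AR1_rho_simple, Module.End.mul_apply,
        (AR1_pow_zero M i j hm _ k).2, AR1_s_apply, AR1_s_apply, AR1_b_self, hij']
      have : (0 : ℝ) ≤ k := Nat.cast_nonneg k
      have := mul_nonneg this (add_pos hi hj).le
      linarith
  · have hn' : n < M i j := by tauto
    have hm2 : 2 ≤ M i j := by
      have := M.off_diagonal i j hij
      omega
    have hmr : (2 : ℝ) ≤ M i j := by exact_mod_cast hm2
    have hm0 : (0 : ℝ) < M i j := by linarith
    obtain ⟨θ, hθ⟩ : ∃ θ : ℝ, θ = Real.pi / M i j := ⟨_, rfl⟩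
    have hb : AR1_b M i j = -Real.cos θ := by rw [hθ, AR1_b]
    have hθm : M i j * θ = Real.pi := by rw [hθ]; field_simp
    have hθ0 : 0 < θ := by rw [hθ]; positivity
    have hθπ : θ < Real.pi := by nlinarith [Real.pi_pos]
    have hs : 0 < Real.sin θ := Real.sin_pos_of_pos_of_lt_pi hθ0 hθπ
    have hnr : (n : ℝ) + 1 ≤ M i j := by exact_mod_cast hn'
    have hle : ((n : ℝ) + 1) * θ ≤ Real.pi := by
      rw [← hθm]; exact mul_le_mul_of_nonneg_right hnr hθ0.le
    have hs1 : 0 ≤ Real.sin (((n : ℝ) + 1) * θ) :=
      Real.sin_nonneg_of_nonneg_of_le_pi (by positivity) hle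
    have hs2 : 0 ≤ Real.sin ((n : ℝ) * θ) :=
      Real.sin_nonneg_of_nonneg_of_le_pi (by positivity) (by nlinarith)
    have hs3 : 0 < Real.sin ((n : ℝ) * θ) ∨ 0 < Real.sin (((n : ℝ) + 1) * θ) := by
      rcases Nat.eq_zero_or_pos n with h0 | h0
      · right
        subst h0
        simpa using hs
      · left
        have : (1 : ℝ) ≤ n := by exact_mod_cast h0
        exact Real.sin_pos_of_pos_of_lt_pi (by positivity) (by nlinarith)
    rcases Nat.even_or_odd' n with ⟨k, hk | hk⟩
    · have h1 := (AR1_pow_sin M i j θ hb f k).2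
      have e1 : 2 * (k : ℝ) * θ = (n : ℝ) * θ := by rw [hk]; push_cast; ring
      have e2 : (2 * (k : ℝ) + 1) * θ = ((n : ℝ) + 1) * θ := by rw [hk]; push_cast; ring
      rw [e1, e2] at h1
      have h2 : 0 < Real.sin θ * ((AR1_s M i * AR1_s M j) ^ k) f j := by
        rw [h1]
        rcases hs3 with h | h
        · have := mul_pos h hi
          have := mul_nonneg hs1 hj.le
          linarith
        · have := mul_pos h hj
          have := mul_nonneg hs2 hi.le
          linarith
      rw [hk, alt_even, AR1_rho_pow]
      exact (mul_pos_iff_of_pos_left hs).1 h2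
    · have h1 := (AR1_pow_sin M i j θ hb (AR1_s M i f) k).2
      rw [AR1_s_apply, AR1_s_apply, AR1_b_self, hb] at h1
      have e1 : 2 * (k : ℝ) * θ = (n : ℝ) * θ - θ := by rw [hk]; push_cast; ring
      have e2 : (2 * (k : ℝ) + 1) * θ = (n : ℝ) * θ := by rw [hk]; push_cast; ring
      have e3 : ((n : ℝ) + 1) * θ = (n : ℝ) * θ + θ := by ring
      have h2 : 0 < Real.sin θ * ((AR1_s M i * AR1_s M j) ^ k) (AR1_s M i f) j := by
        rw [h1, e1, e2]
        have e4 : Real.sin ((n : ℝ) * θ - θ) * (f i - 2 * 1 * f i) +
            Real.sin ((n : ℝ) * θ) * (f j - 2 * -Real.cos θ * f i) =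
            Real.sin (((n : ℝ) + 1) * θ) * f i + Real.sin ((n : ℝ) * θ) * f j := by
          rw [e3, Real.sin_sub, Real.sin_add]
          ring
        rw [e4]
        rcases hs3 with h | h
        · have := mul_pos h hj
          have := mul_nonneg hs1 hi.le
          linarith
        · have := mul_pos h hi
          have := mul_nonneg hs2 hj.le
          linarith
      rw [hk, alt_odd, map_mul, AR1_rho_pow, AR1_rho_simple, Module.End.mul_apply]
      exact (mul_pos_iff_of_pos_left hs).1 h2

/-- the key step: a coordinate is positive unless there is a descent -/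
theorem tits_pos (f : B → ℝ) (hf : ∀ k, 0 < f k) : ∀ (n : ℕ) (w : W), cs.length w = n →
    ∀ j, ¬ cs.IsLeftDescent w j → 0 < (AR1_rho cs w f) j := by
  intro n
  induction n using Nat.strong_induction_on with
  | _ n ih =>
    intro w hw j hj
    by_cases h1 : w = 1
    · rw [h1, map_one]
      exact hf j
    obtain ⟨i, hi⟩ : ∃ i, cs.IsLeftDescent w i := cs.exists_leftDescent_of_ne_one h1
    have hij : i ≠ j := fun h => hj (h ▸ hi)
    obtain ⟨u, hu, v, hv, rfl⟩ := exists_factor cs {i, j} w
    have hlen := length_mul_of_LRed cs hu hv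
    obtain ⟨ω, hω, hred, rfl⟩ := exists_word_of_mem_WP cs hu
    have hne : ω ≠ [] := by
      rintro rfl
      rw [cs.wordProd_nil, one_mul] at hi
      exact hv i (by simp) hi
    have hpos : 0 < ω.length := List.length_pos_iff.mpr hne
    rw [hred.eq] at hlen
    have hvi : 0 < (AR1_rho cs v f) i :=
      ih (cs.length v) (by omega) v rfl i (hv i (by simp))
    have hvj : 0 < (AR1_rho cs v f) j :=
      ih (cs.length v) (by omega) v rfl j (hv j (by simp))
    have hjs : ∀ x : W, x ∈ WP cs {i, j} → cs.length (x * v) = cs.length x + cs.length v :=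
      fun x hx => length_mul_of_LRed cs hx hv
    -- `j` is not a left descent of the first factor
    have hdj : ¬ cs.IsLeftDescent (cs.wordProd ω) j := by
      intro hd
      apply hj
      have hm : cs.simple j * cs.wordProd ω ∈ WP cs {i, j} :=
        (WP cs {i, j}).mul_mem (simple_mem_WP cs (by simp)) hu
      unfold CoxeterSystem.IsLeftDescent at hd ⊢
      rw [← mul_assoc, hjs _ hm, hjs _ hu]
      omega
    have halt : ω = alt ω.length i j := by
      apply eq_alt cs ω i j hred
      · intro k hk
        simpa using hω k hk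
      · intro k ω' h
        rcases (by simpa using hω k (by rw [h]; simp) : k = i ∨ k = j) with h' | h'
        · exact h'
        · exfalso
          subst h'
          subst h
          exact hdj (AR3_isLeftDescent_cons cs hred)
    have hlt : M i j = 0 ∨ ω.length < M i j := by
      by_contra hcon
      push Not at hcon
      obtain ⟨hm0, hle⟩ := hcon
      obtain ⟨ρ, hρ⟩ := alt_add (M i j) (ω.length - M i j) i j
      have e0 : M i j + (ω.length - M i j) = ω.length := by omega
      rw [e0, ← halt] at hρ
      have hb := alt_braid cs i j (M i j) (cs.simple_mul_simple_pow i j)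
      have e1 : cs.wordProd ω = cs.simple j * cs.wordProd (alt (M i j - 1) i j ++ ρ) := by
        rw [hρ, cs.wordProd_append, hb]
        obtain ⟨m, hm⟩ : ∃ m, M i j = m + 1 := ⟨M i j - 1, by omega⟩
        rw [hm, alt, cs.wordProd_cons, cs.wordProd_append, mul_assoc]
        simp
      apply hdj
      unfold CoxeterSystem.IsLeftDescent
      rw [hred.eq, e1, cs.simple_mul_simple_cancel_left]
      have h2 := cs.length_wordProd_le (alt (M i j - 1) i j ++ ρ)
      rw [List.length_append, alt_length] at h2
      have h3 : ω.length = M i j + ρ.length := by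
        conv_lhs => rw [hρ]
        rw [List.length_append, alt_length]
      omega
    rw [map_mul, Module.End.mul_apply, halt]
    exact alt_pos cs i j hij ω.length hlt _ hvi hvj

/-- an element which fixes a point of the open fundamental chamber is trivial -/
theorem eq_one_of_fix (f : B → ℝ) (hf : ∀ k, 0 < f k) (w : W) (h : AR1_rho cs w f = f) :
    w = 1 := by
  by_contra h1
  obtain ⟨i, hi⟩ : ∃ i, cs.IsLeftDescent w i := cs.exists_leftDescent_of_ne_one h1
  have h2 : ¬ cs.IsLeftDescent (cs.simple i * w) i := by
    have := cs.isLeftDescent_iff.mp hi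
    rw [cs.not_isLeftDescent_iff, cs.simple_mul_simple_cancel_left]
    omega
  have h3 := tits_pos cs f hf _ _ rfl i h2
  rw [map_mul, Module.End.mul_apply, h, AR1_rho_simple, AR1_s_apply, AR1_b_self] at h3
  linarith [hf i]

end Petrie
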