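import Mathlib
import Pool.Agent.Lib.MP_6ac48b_co.Tits

/-!
# The action of the product of all generators on eigenvectors of the Coxeter graph
-/

set_option autoImplicit false

namespace Petrie

open CoxeterSystem OS

section general

variable {B : Type*} [Fintype B] [DecidableEq B] {M : CoxeterMatrix B} {W : Type*} [Group W]
  (cs : CoxeterSystem M W)

variable (M) in
/-- heights adapted to the order of the letters of `L` -/
def Ori (L : List B) (θ : B → ℤ) : Prop :=
  ∀ l1 i l2, L = l1 ++ i :: l2 → ∀ k, k ≠ i → AR1_b M i k ≠ 0 →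
    θ k = if k ∈ l1 then θ i - 1 else θ i + 1

variable (M) in
/-- an eigenvector of the weighted graph -/
def IsEig (l : ℝ) (x : B → ℝ) : Prop :=
  ∀ i, l * x i = ∑ k ∈ Finset.univ.erase i, (-2 * AR1_b M i k) * x k

/-- the partially updated vector -/
def st (x : B → ℝ) (F : ℤ → ℝ) (θ : B → ℤ) (T : List B) (k : B) : ℝ :=
  x k * F (θ k + if k ∈ T then 2 else 0)

theorem loc {L : List B} (hL : L.Nodup) {θ : B → ℤ} (hθ : Ori M L θ) {l : ℝ} {x : B → ℝ}
    (hx : IsEig M l x) {F : ℤ → ℝ} (hF : ∀ t, F (t + 1) + F (t - 1) = l * F t)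
    {l1 : List B} {i : B} {l2 : List B} (h : L = l1 ++ i :: l2) :
    ∑ k, 2 * AR1_b M i k * st x F θ l1 k = x i * F (θ i) - x i * F (θ i + 2) := by
  have hi : i ∉ l1 := by
    rw [h] at hL
    rw [List.nodup_append] at hL
    intro hi
    exact hL.2.2 i hi i (by simp) rfl
  rw [← Finset.add_sum_erase _ _ (Finset.mem_univ i)]
  have h1 : ∑ k ∈ Finset.univ.erase i, 2 * AR1_b M i k * st x F θ l1 k =
      - (F (θ i + 1) * ∑ k ∈ Finset.univ.erase i, (-2 * AR1_b M i k) * x k) := by
    rw [Finset.mul_sum, ← Finset.sum_neg_distrib]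
    apply Finset.sum_congr rfl
    intro k hk
    rw [Finset.mem_erase] at hk
    by_cases hb : AR1_b M i k = 0
    · rw [hb]; ring
    · have h2 := hθ l1 i l2 h k hk.1 hb
      have h3 : st x F θ l1 k = x k * F (θ i + 1) := by
        unfold st
        by_cases hk1 : k ∈ l1
        · rw [if_pos hk1] at h2 ⊢
          rw [h2]
          congr 2
          ring
        · rw [if_neg hk1] at h2 ⊢
          rw [h2, add_zero]
      rw [h3]; ring
  rw [h1, ← hx i, AR1_b_self]
  unfold st
  rw [if_neg hi, add_zero]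
  have h4 := hF (θ i + 1)
  rw [show θ i + 1 + 1 = θ i + 2 by ring, show θ i + 1 - 1 = θ i by ring] at h4
  linear_combination (x i) * h4

omit [Fintype B] in
theorem st_append (x : B → ℝ) (F : ℤ → ℝ) (θ : B → ℤ) (T : List B) (i : B) (hi : i ∉ T) (k : B) :
    st x F θ (T ++ [i]) k = st x F θ T k +
      (if k = i then x i * F (θ i + 2) - x i * F (θ i) else 0) := by
  unfold st
  by_cases h : k = i
  · subst h
    simp [hi]
  · simp [h]

/-- the action on linear forms -/
theorem form_step {L : List B} (hL : L.Nodup) (hall : ∀ k, k ∈ L) {θ : B → ℤ} (hθ : Ori M L θ)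
    {l : ℝ} {x : B → ℝ} (hx : IsEig M l x) {F : ℤ → ℝ}
    (hF : ∀ t, F (t + 1) + F (t - 1) = l * F t) (f : B → ℝ) (l2 : List B) :
    ∀ l1, L = l1 ++ l2 → ∑ k, st x F θ l1 k * (AR1_rho cs (cs.wordProd l2) f) k =
      ∑ k, x k * F (θ k + 2) * f k := by
  induction l2 with
  | nil =>
    intro l1 h
    rw [cs.wordProd_nil, map_one]
    apply Finset.sum_congr rfl
    intro k _
    have hk : k ∈ l1 := by
      have := hall k
      rw [h] at this
      simpa using this
    simp [st, hk]
  | cons i l2 ih =>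
    intro l1 h
    have h' : L = (l1 ++ [i]) ++ l2 := by rw [h]; simp
    have hi : i ∉ l1 := by
      have hL' := hL
      rw [h, List.nodup_append] at hL'
      intro hi
      exact hL'.2.2 i hi i (by simp) rfl
    rw [← ih (l1 ++ [i]) h', cs.wordProd_cons, map_mul, AR1_rho_simple]
    set g := AR1_rho cs (cs.wordProd l2) f with hg
    have e1 : ∀ k, st x F θ (l1 ++ [i]) k * g k = st x F θ l1 k * g k +
        (if k = i then (x i * F (θ i + 2) - x i * F (θ i)) * g i else 0) := by
      intro k
      rw [st_append x F θ l1 i hi k]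
      by_cases hk : k = i
      · subst hk; simp; ring
      · simp [hk]
    rw [Finset.sum_congr rfl (fun k _ => e1 k), Finset.sum_add_distrib, Finset.sum_ite_eq' ]
    simp only [Finset.mem_univ, if_true, Module.End.mul_apply, AR1_s_apply]
    have h3 := loc hL hθ hx hF h
    have e2 : ∑ k, st x F θ l1 k * (g k - 2 * AR1_b M i k * g i) =
        ∑ k, st x F θ l1 k * g k - g i * ∑ k, 2 * AR1_b M i k * st x F θ l1 k := by
      rw [Finset.mul_sum, ← Finset.sum_sub_distrib]
      apply Finset.sum_congr rfl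
      intro k _
      ring
    rw [e2, h3]
    ring

/-- the vector with coordinates `2 Σ_j b_{jk} z_j` -/
noncomputable def bz (M : CoxeterMatrix B) (z : B → ℝ) (k : B) : ℝ := ∑ j, 2 * AR1_b M k j * z j

/-- the action on vectors -/
theorem vec_step {L : List B} (hL : L.Nodup) {θ : B → ℤ} (hθ : Ori M L θ)
    {l : ℝ} {x : B → ℝ} (hx : IsEig M l x) {F : ℤ → ℝ}
    (hF : ∀ t, F (t + 1) + F (t - 1) = l * F t) (l2 : List B) :
    ∀ l1, L = l1 ++ l2 →
      AR1_rho cs (cs.wordProd l2)⁻¹ (bz M (st x F θ l1)) = bz M (st x F θ L) := by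
  induction l2 with
  | nil =>
    intro l1 h
    rw [List.append_nil] at h
    rw [cs.wordProd_nil, inv_one, map_one, h]
    rfl
  | cons i l2 ih =>
    intro l1 h
    have h' : L = (l1 ++ [i]) ++ l2 := by rw [h]; simp
    have hi : i ∉ l1 := by
      have hL' := hL
      rw [h, List.nodup_append] at hL'
      intro hi
      exact hL'.2.2 i hi i (by simp) rfl
    rw [← ih (l1 ++ [i]) h', cs.wordProd_cons, mul_inv_rev, cs.inv_simple, map_mul,
      AR1_rho_simple, Module.End.mul_apply]
    congr 1
    funext k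
    rw [AR1_s_apply]
    have h3 := loc hL hθ hx hF h
    unfold bz
    rw [h3]
    have e1 : ∀ j, 2 * AR1_b M k j * st x F θ (l1 ++ [i]) j = 2 * AR1_b M k j * st x F θ l1 j +
        (if j = i then 2 * AR1_b M k i * (x i * F (θ i + 2) - x i * F (θ i)) else 0) := by
      intro j
      rw [st_append x F θ l1 i hi j]
      by_cases hj : j = i
      · subst hj; simp; ring
      · simp [hj]
    rw [Finset.sum_congr rfl (fun j _ => e1 j), Finset.sum_add_distrib, Finset.sum_ite_eq']
    simp only [Finset.mem_univ, if_true]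
    rw [AR1_b_symm M i k]
    ring

theorem form_pow {L : List B} (hL : L.Nodup) (hall : ∀ k, k ∈ L) {θ : B → ℤ} (hθ : Ori M L θ)
    {l : ℝ} {x : B → ℝ} (hx : IsEig M l x) (f : B → ℝ) (n : ℕ) :
    ∀ {F : ℤ → ℝ} (_ : ∀ t, F (t + 1) + F (t - 1) = l * F t),
    ∑ k, x k * F (θ k) * (AR1_rho cs (cs.wordProd L ^ n) f) k =
      ∑ k, x k * F (θ k + 2 * n) * f k := by
  induction n generalizing f with
  | zero =>
    intro F _
    simp
  | succ n ih =>
    intro F hF
    have h1 := form_step cs hL hall hθ hx hF (AR1_rho cs (cs.wordProd L ^ n) f) L [] rfl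
    rw [pow_succ', map_mul, Module.End.mul_apply]
    simp only [st, List.not_mem_nil, if_false, add_zero] at h1
    rw [h1]
    have hF' : ∀ t, (fun t => F (t + 2)) (t + 1) + (fun t => F (t + 2)) (t - 1) =
        l * (fun t => F (t + 2)) t := by
      intro t
      have := hF (t + 2)
      simp only
      rw [show t + 1 + 2 = t + 2 + 1 by ring, show t - 1 + 2 = t + 2 - 1 by ring]
      exact this
    have h2 := ih f (F := fun t => F (t + 2)) hF'
    rw [h2]
    apply Finset.sum_congr rfl
    intro k _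
    congr 3
    push_cast
    ring

/-- a vector with one nonzero coordinate -/
theorem period {L : List B} (hL : L.Nodup) (hall : ∀ k, k ∈ L) {θ : B → ℤ} (hθ : Ori M L θ)
    {l : ℝ} {x : B → ℝ} (hx : IsEig M l x) (i : B) (hi : x i ≠ 0) (n : ℕ)
    (hfix : AR1_rho cs (cs.wordProd L ^ n) (Pi.single i 1) = Pi.single i 1)
    {F : ℤ → ℝ} (hF : ∀ t, F (t + 1) + F (t - 1) = l * F t) :
    F (θ i) = F (θ i + 2 * n) := by
  have h1 := form_pow cs hL hall hθ hx (Pi.single i 1) n hF
  rw [hfix] at h1
  have e : ∀ G : ℤ → ℝ, ∑ k, x k * G (θ k) * (Pi.single i (1 : ℝ) : B → ℝ) k = x i * G (θ i) := by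
    intro G
    rw [Finset.sum_eq_single i]
    · simp
    · intro k _ hk
      rw [Pi.single_eq_of_ne hk, mul_zero]
    · intro h; exact absurd (Finset.mem_univ i) h
  rw [e F, e (fun t => F (t + 2 * n))] at h1
  exact mul_left_cancel₀ hi h1

theorem vec_pow {L : List B} (hL : L.Nodup) (hall : ∀ k, k ∈ L) {θ : B → ℤ} (hθ : Ori M L θ)
    {l : ℝ} {x : B → ℝ} (hx : IsEig M l x) (n : ℕ) :
    ∀ {F : ℤ → ℝ} (_ : ∀ t, F (t + 1) + F (t - 1) = l * F t),
      AR1_rho cs (cs.wordProd L ^ n)⁻¹ (bz M (fun k => x k * F (θ k))) =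
        bz M (fun k => x k * F (θ k + 2 * n)) := by
  induction n with
  | zero =>
    intro F _
    simp
  | succ n ih =>
    intro F hF
    have h1 := vec_step cs hL hθ hx hF L [] rfl
    have e1 : st x F θ [] = fun k => x k * F (θ k) := by
      funext k; simp [st]
    have e2 : st x F θ L = fun k => x k * F (θ k + 2) := by
      funext k; simp [st, hall k]
    rw [e1, e2] at h1
    rw [pow_succ', mul_inv_rev, map_mul, Module.End.mul_apply, h1]
    have hF' : ∀ t, (fun t => F (t + 2)) (t + 1) + (fun t => F (t + 2)) (t - 1) =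
        l * (fun t => F (t + 2)) t := by
      intro t
      have := hF (t + 2)
      simp only
      rw [show t + 1 + 2 = t + 2 + 1 by ring, show t - 1 + 2 = t + 2 - 1 by ring]
      exact this
    have h2 := ih (F := fun t => F (t + 2)) hF'
    rw [h2]
    congr 1
    funext k
    congr 2
    push_cast
    ring

end general

end Petrie
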