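import Mathlib

/-!
# A positive eigenvector of a weighted path
-/

set_option autoImplicit false

namespace Petrie

/-- the solution of the three term recursion -/
noncomputable def rec3 (a : ℕ → ℝ) (l : ℝ) : ℕ → ℝ
  | 0 => 1
  | 1 => l / a 0
  | n + 2 => (l * rec3 a l (n + 1) - a n * rec3 a l n) / a (n + 1)

theorem rec3_cont (a : ℕ → ℝ) : ∀ n, Continuous (fun l => rec3 a l n) ∧
    Continuous (fun l => rec3 a l (n + 1)) := by
  intro n
  induction n with
  | zero =>
    constructor
    · simp only [rec3]; exact continuous_const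
    · simp only [rec3]; fun_prop
  | succ n ih =>
    refine ⟨ih.2, ?_⟩
    simp only [rec3]
    exact ((continuous_id.mul ih.2).sub (continuous_const.mul ih.1)).div_const _

theorem rec3_mul (a : ℕ → ℝ) (l : ℝ) (n : ℕ) (h : 0 < a n) :
    a n * rec3 a l (n + 1) = l * rec3 a l n - (if n = 0 then 0 else a (n - 1) * rec3 a l (n - 1)) := by
  cases n with
  | zero => simp only [rec3]; simp; field_simp
  | succ n =>
    simp only [rec3]
    simp
    field_simp

theorem rec3_large (a : ℕ → ℝ) (N : ℕ) (ha : ∀ i ≤ N, 0 < a i) (l : ℝ)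
    (hl : ∀ i ≤ N, (if i = 0 then 0 else a (i - 1)) + a i ≤ l) :
    ∀ n ≤ N + 1, 0 < rec3 a l n ∧ (n ≠ 0 → rec3 a l (n - 1) ≤ rec3 a l n) := by
  intro n
  induction n with
  | zero => intro _; exact ⟨by simp [rec3], fun h => absurd rfl h⟩
  | succ n ih =>
    intro hn
    obtain ⟨h1, h2⟩ := ih (by omega)
    have hm := rec3_mul a l n (ha n (by omega))
    have hl' := hl n (by omega)
    have han := ha n (by omega)
    have key : a n * rec3 a l n ≤ a n * rec3 a l (n + 1) := by
      rw [hm]
      by_cases h0 : n = 0
      · simp only [h0, if_true] at hl' ⊢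
        rw [h0] at h1
        nlinarith
      · simp only [h0, if_false] at hl' ⊢
        have h3 := h2 h0
        have h4 := ha (n - 1) (by omega)
        nlinarith
    have h5 : rec3 a l n ≤ rec3 a l (n + 1) := le_of_mul_le_mul_left key han
    exact ⟨lt_of_lt_of_le h1 h5, fun _ => by simpa using h5⟩

/-- a positive eigenvector of a weighted path -/
theorem perron (N : ℕ) (a : ℕ → ℝ) (ha : ∀ i < N, 0 < a i) :
    ∃ l : ℝ, 0 ≤ l ∧ ∃ y : ℕ → ℝ, (∀ i ≤ N, 0 < y i) ∧ ∀ i ≤ N,
      l * y i = (if i = 0 then 0 else a (i - 1) * y (i - 1)) + (if i = N then 0 else a i * y (i + 1)) := by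
  classical
  set b : ℕ → ℝ := fun i => if i < N then a i else 1 with hb
  have hb0 : ∀ i, 0 < b i := by
    intro i
    simp only [hb]
    split
    · exact ha i (by assumption)
    · exact one_pos
  set S : Set ℝ := {l | ∃ i ∈ Finset.range (N + 2), rec3 b l i ≤ 0} with hS
  have hne : (0 : ℝ) ∈ S := ⟨1, by simp, by simp [rec3]⟩
  have hcl : IsClosed S := by
    have : S = ⋃ i ∈ Finset.range (N + 2), {l | rec3 b l i ≤ 0} := by
      ext l; simp [hS]
    rw [this]
    refine Set.Finite.isClosed_biUnion (Finset.finite_toSet _) (fun i _ => ?_)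
    exact isClosed_le (rec3_cont b i).1 continuous_const
  have hbd : BddAbove S := by
    refine ⟨2 * ∑ i ∈ Finset.range (N + 1), b i, ?_⟩
    rintro l ⟨i, hi, hl⟩
    by_contra hcon
    push Not at hcon
    have hle : ∀ j ≤ N, b j ≤ ∑ i ∈ Finset.range (N + 1), b i := by
      intro j hj
      exact Finset.single_le_sum (f := b) (fun i _ => (hb0 i).le) (Finset.mem_range.mpr (by omega))
    have := (rec3_large b N (fun i _ => hb0 i) l (by
      intro j hj
      have h1 := hle j hj
      by_cases h0 : j = 0
      · simp only [h0, if_true]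
        rw [h0] at h1
        have := hb0 0
        linarith
      · simp only [h0, if_false]
        have h2 := hle (j - 1) (by omega)
        linarith) i (by simpa [Nat.lt_succ_iff] using hi)).1
    linarith
  set l := sSup S with hl
  have hlS : l ∈ S := hcl.csSup_mem ⟨0, hne⟩ hbd
  have hl0 : 0 ≤ l := le_csSup hbd hne
  have hnn : ∀ i ≤ N + 1, 0 ≤ rec3 b l i := by
    intro i hi
    have hc : IsClosed {x | 0 ≤ rec3 b x i} := isClosed_le continuous_const (rec3_cont b i).1
    have hsub : Set.Ioi l ⊆ {x | 0 ≤ rec3 b x i} := by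
      intro x hx
      by_contra hcon
      have hxS : x ∈ S := ⟨i, by simp; omega, by
        have : ¬ 0 ≤ rec3 b x i := hcon
        linarith⟩
      exact absurd (le_csSup hbd hxS) (not_le.mpr hx)
    have := closure_minimal hsub hc
    rw [closure_Ioi] at this
    exact this (Set.mem_Ici.mpr le_rfl)
  have hpos : ∀ i ≤ N, 0 < rec3 b l i := by
    intro i
    induction i using Nat.strong_induction_on with
    | _ i ih =>
      intro hi
      rcases (hnn i (by omega)).lt_or_eq with h | h
      · exact h
      · exfalso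
        have hi0 : i ≠ 0 := by
          rintro rfl
          simp [rec3] at h
        have h1 := rec3_mul b l i (hb0 i)
        rw [← h, if_neg hi0] at h1
        have h2 := ih (i - 1) (by omega) (by omega)
        have h3 := mul_pos (hb0 (i - 1)) h2
        have h4 := mul_nonneg (hb0 i).le (hnn (i + 1) (by omega))
        linarith
  have hzero : rec3 b l (N + 1) = 0 := by
    obtain ⟨i, hi, hi'⟩ := hlS
    rw [Finset.mem_range] at hi
    by_cases h : i = N + 1
    · subst h
      exact le_antisymm hi' (hnn _ le_rfl)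
    · exact absurd hi' (not_le.mpr (hpos i (by omega)))
  refine ⟨l, hl0, rec3 b l, hpos, ?_⟩
  intro i hi
  have h1 := rec3_mul b l i (hb0 i)
  by_cases hiN : i = N
  · rw [hiN] at h1 ⊢
    rw [hzero, mul_zero] at h1
    rw [if_pos rfl, add_zero]
    by_cases h0 : N = 0
    · rw [if_pos h0] at h1 ⊢
      linarith
    · rw [if_neg h0] at h1 ⊢
      have : b (N - 1) = a (N - 1) := by simp only [hb]; rw [if_pos (by omega)]
      rw [this] at h1
      linarith
  · rw [if_neg hiN]
    have hbi : b i = a i := by simp only [hb]; rw [if_pos (by omega)]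
    by_cases h0 : i = 0
    · rw [if_pos h0] at h1 ⊢
      rw [hbi] at h1
      linarith
    · rw [if_neg h0] at h1 ⊢
      have : b (i - 1) = a (i - 1) := by simp only [hb]; rw [if_pos (by omega)]
      rw [this, hbi] at h1
      linarith

end Petrie
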