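import Mathlib
import Pool.Agent.Lib.MP_6ac48b_co.Tits

/-!
# Projection of a Coxeter group to a union of components
-/

set_option autoImplicit false

namespace Petrie

open CoxeterSystem OS

section retr

variable {B : Type*} {M : CoxeterMatrix B} {W : Type*} [Group W] (cs : CoxeterSystem M W)

variable (M) in
/-- `b` is a union of components of the diagram -/
def Sep (b : Set B) : Prop := ∀ i ∈ b, ∀ j, j ∉ b → M i j = 2

theorem Sep.compl {b : Set B} (h : Sep M b) : Sep M bᶜ := by
  intro i hi j hj
  rw [M.symmetric]
  exact h j (by simpa using hj) i hi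

theorem Sep.b_zero {b : Set B} (h : Sep M b) {i j : B} (hi : i ∈ b) (hj : j ∉ b) :
    AR1_b M i j = 0 := by
  rw [AR1_b, h i hi j hj]
  simp

theorem Sep.b_zero' {b : Set B} (h : Sep M b) {i j : B} (hi : i ∉ b) (hj : j ∈ b) :
    AR1_b M i j = 0 := by
  rw [AR1_b_symm, h.b_zero hj hi]

open Classical in
theorem retr_liftable {b : Set B} (h : Sep M b) :
    M.IsLiftable (fun i => if i ∈ b then cs.simple i else 1) := by
  intro i j
  by_cases hi : i ∈ b
  · by_cases hj : j ∈ b
    · simp only [hi, hj, if_true]
      exact cs.simple_mul_simple_pow i j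
    · simp only [hi, hj, if_true, if_false, mul_one]
      rw [h i hi j hj, pow_two, cs.simple_mul_simple_self]
  · by_cases hj : j ∈ b
    · simp only [hi, hj, if_true, if_false, one_mul]
      rw [M.symmetric, h j hj i hi, pow_two, cs.simple_mul_simple_self]
    · simp only [hi, hj, if_false, one_mul, one_pow]

open Classical in
/-- the projection to the subgroup generated by a union of components -/
noncomputable def retr {b : Set B} (h : Sep M b) : W →* W :=
  cs.lift ⟨fun i => if i ∈ b then cs.simple i else 1, retr_liftable cs h⟩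

open Classical in
theorem retr_simple {b : Set B} (h : Sep M b) (i : B) :
    retr cs h (cs.simple i) = if i ∈ b then cs.simple i else 1 :=
  cs.lift_apply_simple (retr_liftable cs h) i

theorem retr_simple_mem {b : Set B} (h : Sep M b) {i : B} (hi : i ∈ b) :
    retr cs h (cs.simple i) = cs.simple i := by
  classical
  rw [retr_simple, if_pos hi]

theorem retr_simple_not_mem {b : Set B} (h : Sep M b) {i : B} (hi : i ∉ b) :
    retr cs h (cs.simple i) = 1 := by
  classical
  rw [retr_simple, if_neg hi]

theorem retr_word {b : Set B} [DecidablePred (· ∈ b)] (h : Sep M b) (L : List B) :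
    retr cs h (cs.wordProd L) = cs.wordProd (L.filter (· ∈ b)) := by
  induction L with
  | nil => simp
  | cons i L ih =>
    rw [cs.wordProd_cons, map_mul, ih]
    by_cases hi : i ∈ b
    · rw [retr_simple_mem cs h hi, List.filter_cons_of_pos (by simpa using hi), cs.wordProd_cons]
    · rw [retr_simple_not_mem cs h hi, List.filter_cons_of_neg (by simpa using hi), one_mul]

theorem retr_mem {b : Set B} (h : Sep M b) (u : W) : retr cs h u ∈ WP cs b := by
  classical
  obtain ⟨ω, rfl⟩ := cs.wordProd_surjective u
  rw [retr_word]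
  exact wordProd_mem_WP cs (fun i hi => by simpa using (List.mem_filter.mp hi).2)

/-- coordinates in `b` are determined by coordinates in `b` and by the projection -/
theorem rho_retr {b : Set B} (h : Sep M b) (f g : B → ℝ) (hfg : ∀ k ∈ b, f k = g k) (u : W) :
    ∀ k ∈ b, (AR1_rho cs (retr cs h u) f) k = (AR1_rho cs u g) k := by
  obtain ⟨ω, rfl⟩ := cs.wordProd_surjective u
  induction ω with
  | nil => simpa using hfg
  | cons i ω ih =>
    intro k hk
    have e : (AR1_rho cs (cs.wordProd (i :: ω)) g) k =
        (AR1_rho cs (cs.wordProd ω) g) k - 2 * AR1_b M i k * (AR1_rho cs (cs.wordProd ω) g) i := by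
      rw [cs.wordProd_cons, map_mul, Module.End.mul_apply, AR1_rho_simple, AR1_s_apply]
    rw [e, cs.wordProd_cons, map_mul]
    by_cases hi : i ∈ b
    · rw [retr_simple_mem cs h hi, map_mul, Module.End.mul_apply, AR1_rho_simple, AR1_s_apply,
        ih k hk, ih i hi]
    · rw [retr_simple_not_mem cs h hi, one_mul, ih k hk, h.b_zero' hi hk]
      ring

/-- coordinates outside `b` are fixed by the projection -/
theorem rho_retr_out {b : Set B} (h : Sep M b) (f : B → ℝ) (u : W) :
    ∀ k, k ∉ b → (AR1_rho cs (retr cs h u) f) k = f k := by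
  obtain ⟨ω, rfl⟩ := cs.wordProd_surjective u
  induction ω with
  | nil => simp
  | cons i ω ih =>
    intro k hk
    rw [cs.wordProd_cons, map_mul]
    by_cases hi : i ∈ b
    · rw [retr_simple_mem cs h hi, map_mul, Module.End.mul_apply, AR1_rho_simple, AR1_s_apply,
        ih k hk, h.b_zero hi hk]
      ring
    · rw [retr_simple_not_mem cs h hi, one_mul, ih k hk]

/-- an element whose projection to `b` is trivial lies in the complementary subgroup -/
theorem mem_of_retr_eq_one {b : Set B} (h : Sep M b) (u : W) (hu : retr cs h u = 1) :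
    u ∈ WP cs bᶜ := by
  have key : (retr cs h.compl u)⁻¹ * u = 1 := by
    apply eq_one_of_fix cs (fun _ => 1) (fun _ => one_pos)
    have e : AR1_rho cs u (fun _ => 1) = AR1_rho cs (retr cs h.compl u) (fun _ => 1) := by
      funext k
      by_cases hk : k ∈ b
      · rw [← rho_retr cs h (fun _ => 1) (fun _ => 1) (fun _ _ => rfl) u k hk, hu, map_one,
          rho_retr_out cs h.compl _ u k (by simpa using hk)]
        rfl
      · rw [rho_retr cs h.compl (fun _ => 1) (fun _ => 1) (fun _ _ => rfl) u k (by simpa using hk)]
    rw [map_mul, Module.End.mul_apply, e, ← Module.End.mul_apply, ← map_mul, inv_mul_cancel,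
      map_one]
    rfl
  rw [inv_mul_eq_one] at key
  rw [← key]
  exact retr_mem cs h.compl u

/-- an element all of whose projections are trivial is trivial -/
theorem eq_one_of_retr {ι : Type*} (b : ι → Set B) (hb : ∀ i, Sep M (b i))
    (hcov : ∀ k, ∃ i, k ∈ b i) (u : W) (hu : ∀ i, retr cs (hb i) u = 1) : u = 1 := by
  apply eq_one_of_fix cs (fun _ => 1) (fun _ => one_pos)
  funext k
  obtain ⟨i, hi⟩ := hcov k
  rw [← rho_retr cs (hb i) (fun _ => 1) (fun _ => 1) (fun _ _ => rfl) u k hi, hu i, map_one]
  rfl

/-- if the projection of `u` and `u` itself fix ... -/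
theorem retr_eq_one_of_fix {b : Set B} (h : Sep M b) (u : W) (f : B → ℝ) (hf : ∀ k ∈ b, 0 < f k)
    (hfix : ∀ k ∈ b, (AR1_rho cs u f) k = f k) : retr cs h u = 1 := by
  classical
  apply eq_one_of_fix cs (fun k => if k ∈ b then f k else 1)
  · intro k
    by_cases hk : k ∈ b
    · simp [hk, hf k hk]
    · simp [hk]
  · funext k
    by_cases hk : k ∈ b
    · rw [rho_retr cs h _ f (fun k hk => by simp [hk]) u k hk, hfix k hk]
      simp [hk]
    · rw [rho_retr_out cs h _ u k hk]

end retr

end Petrie
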