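import Mathlib
import Pool.Agent.Lib.MP_6ac48b_co.CDefs
import Pool.Agent.Lib.MP_6ac48b_co.Eigen
import Pool.Agent.Lib.MP_6ac48b_co.Retract
import Pool.Agent.Lib.MP_6ac48b_co.Perron
import Pool.Agent.Lib.MP_6ac48b_co.Conj

/-!
# String diagrams: eigenvectors and heights
-/

set_option autoImplicit false

namespace Petrie

open CoxeterSystem OS

variable {m : ℕ} {p : ℕ → ℕ} {hp : ∀ i, p i ≠ 1}

theorem strMat_apply (i j : Fin m) : strMat m p hp i j =
    if i = j then 1 else if (j : ℕ) = i + 1 then p i else if (i : ℕ) = j + 1 then p j else 2 := rfl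

/-- the weight of an edge -/
noncomputable def wt (p : ℕ → ℕ) (i : ℕ) : ℝ := 2 * Real.cos (Real.pi / p i)

theorem wt_two (i : ℕ) (h : p i = 2) : wt p i = 0 := by
  rw [wt, h]; simp

theorem wt_pos (hp : ∀ i, p i ≠ 1) (i : ℕ) (h : p i ≠ 2) : 0 < wt p i := by
  rw [wt]
  by_cases h0 : p i = 0
  · rw [h0]; simp
  · have h3 : 3 ≤ p i := by
      have := hp i
      omega
    have h3r : (3 : ℝ) ≤ p i := by exact_mod_cast h3
    have : Real.pi / p i ≤ Real.pi / 3 := by
      apply div_le_div_of_nonneg_left Real.pi_pos.le (by norm_num) h3r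
    have h4 : 0 < Real.cos (Real.pi / p i) := by
      apply Real.cos_pos_of_mem_Ioo
      constructor
      · have : 0 ≤ Real.pi / p i := by positivity
        linarith [Real.pi_pos]
      · linarith [Real.pi_pos]
    linarith

theorem b_str (i k : Fin m) (hik : k ≠ i) : -2 * AR1_b (strMat m p hp) i k =
    (if (k : ℕ) = i + 1 then wt p i else 0) + (if (k : ℕ) + 1 = i then wt p k else 0) := by
  have hne : ¬ i = k := fun h => hik h.symm
  rw [AR1_b, strMat_apply, if_neg hne]
  by_cases h1 : (k : ℕ) = i + 1
  · rw [if_pos h1, if_pos h1, if_neg (by omega), wt]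
    ring
  · rw [if_neg h1, if_neg h1]
    by_cases h2 : (i : ℕ) = k + 1
    · rw [if_pos h2, if_pos h2.symm, wt]
      ring
    · rw [if_neg h2, if_neg (fun h => h2 h.symm)]
      simp

/-- the sum over the neighbours -/
theorem sum_nbr (X : ℕ → ℝ) (i : Fin m) :
    ∑ k ∈ Finset.univ.erase i, (-2 * AR1_b (strMat m p hp) i k) * X k =
      (if (i : ℕ) = 0 then 0 else wt p (i - 1) * X (i - 1)) +
      (if (i : ℕ) + 1 = m then 0 else wt p i * X (i + 1)) := by
  have e : ∀ k ∈ Finset.univ.erase i, (-2 * AR1_b (strMat m p hp) i k) * X k =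
      (if (k : ℕ) + 1 = i then wt p k * X k else 0) +
      (if (k : ℕ) = i + 1 then wt p i * X k else 0) := by
    intro k hk
    rw [Finset.mem_erase] at hk
    rw [b_str i k hk.1]
    split_ifs <;> ring
  rw [Finset.sum_congr rfl e, Finset.sum_add_distrib]
  congr 1
  · by_cases h0 : (i : ℕ) = 0
    · rw [if_pos h0]
      apply Finset.sum_eq_zero
      intro k _
      rw [if_neg (by omega)]
    · rw [if_neg h0]
      have hlt : (i : ℕ) - 1 < m := by omega
      rw [Finset.sum_eq_single_of_mem (⟨(i : ℕ) - 1, hlt⟩ : Fin m)]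
      · simp only
        rw [if_pos (by omega)]
      · rw [Finset.mem_erase]
        refine ⟨?_, Finset.mem_univ _⟩
        intro h
        have := congrArg Fin.val h
        simp at this
        omega
      · intro k _ hk
        rw [if_neg]
        intro h
        apply hk
        apply Fin.ext
        simp only
        omega
  · by_cases h0 : (i : ℕ) + 1 = m
    · rw [if_pos h0]
      apply Finset.sum_eq_zero
      intro k _
      rw [if_neg (by omega)]
    · rw [if_neg h0]
      have hlt : (i : ℕ) + 1 < m := by omega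
      rw [Finset.sum_eq_single_of_mem (⟨(i : ℕ) + 1, hlt⟩ : Fin m)]
      · simp only [if_true]
      · rw [Finset.mem_erase]
        refine ⟨?_, Finset.mem_univ _⟩
        intro h
        have := congrArg Fin.val h
        simp at this
      · intro k _ hk
        rw [if_neg]
        intro h
        apply hk
        apply Fin.ext
        simp only
        omega

/-- the positive eigenvector of a component -/
theorem exists_eig (lo hi : ℕ) (h1 : lo ≤ hi) (h2 : hi < m) (h3 : lo = 0 ∨ p (lo - 1) = 2)
    (h4 : hi + 1 = m ∨ p hi = 2) (h5 : ∀ k, lo ≤ k → k < hi → p k ≠ 2) :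
    ∃ l : ℝ, 0 ≤ l ∧ ∃ x : Fin m → ℝ, IsEig (strMat m p hp) l x ∧
      (∀ k : Fin m, lo ≤ k → (k : ℕ) ≤ hi → 0 < x k) := by
  obtain ⟨l, hl, y, hy, he⟩ := perron (hi - lo) (fun i => wt p (lo + i))
    (fun i hi' => wt_pos hp _ (h5 _ (by omega) (by omega)))
  set X : ℕ → ℝ := fun k => if lo ≤ k ∧ k ≤ hi then y (k - lo) else 0 with hX
  refine ⟨l, hl, fun k => X k, ?_, ?_⟩
  · intro i
    rw [sum_nbr (hp := hp) X i]
    change l * X i = _
    by_cases hin : lo ≤ (i : ℕ) ∧ (i : ℕ) ≤ hi
    · have hi0 := he ((i : ℕ) - lo) (by omega)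
      have e1 : X i = y ((i : ℕ) - lo) := by simp only [hX]; rw [if_pos hin]
      rw [e1, hi0]
      congr 1
      · by_cases h0 : (i : ℕ) - lo = 0
        · rw [if_pos h0]
          by_cases h00 : (i : ℕ) = 0
          · rw [if_pos h00]
          · rw [if_neg h00]
            have e2 : X ((i : ℕ) - 1) = 0 := by
              simp only [hX]
              rw [if_neg (by omega)]
            rw [e2, mul_zero]
        · rw [if_neg h0, if_neg (by omega)]
          have e2 : X ((i : ℕ) - 1) = y ((i : ℕ) - lo - 1) := by
            simp only [hX]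
            rw [if_pos (by omega)]
            congr 1
            omega
          rw [e2]
          congr 2
          omega
      · by_cases h0 : (i : ℕ) - lo = hi - lo
        · rw [if_pos h0]
          by_cases h00 : (i : ℕ) + 1 = m
          · rw [if_pos h00]
          · rw [if_neg h00]
            have e2 : X ((i : ℕ) + 1) = 0 := by
              simp only [hX]
              rw [if_neg (by omega)]
            rw [e2, mul_zero]
        · rw [if_neg h0, if_neg (by omega)]
          have e2 : X ((i : ℕ) + 1) = y ((i : ℕ) - lo + 1) := by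
            simp only [hX]
            rw [if_pos (by omega)]
            congr 1
            omega
          rw [e2]
          congr 2
          omega
    · have e1 : X i = 0 := by simp only [hX]; rw [if_neg hin]
      rw [e1, mul_zero]
      have ea : (if (i : ℕ) = 0 then 0 else wt p ((i : ℕ) - 1) * X ((i : ℕ) - 1)) = 0 := by
        by_cases h0 : (i : ℕ) = 0
        · rw [if_pos h0]
        · rw [if_neg h0]
          by_cases h6 : lo ≤ (i : ℕ) - 1 ∧ (i : ℕ) - 1 ≤ hi
          · have h7 : (i : ℕ) - 1 = hi := by omega
            rw [h7, wt_two hi (by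
              rcases h4 with h | h
              · have := i.2
                omega
              · exact h), zero_mul]
          · have : X ((i : ℕ) - 1) = 0 := by simp only [hX]; rw [if_neg h6]
            rw [this, mul_zero]
      have eb : (if (i : ℕ) + 1 = m then 0 else wt p i * X ((i : ℕ) + 1)) = 0 := by
        by_cases h0 : (i : ℕ) + 1 = m
        · rw [if_pos h0]
        · rw [if_neg h0]
          by_cases h6 : lo ≤ (i : ℕ) + 1 ∧ (i : ℕ) + 1 ≤ hi
          · have h7 : (i : ℕ) = lo - 1 := by omega
            rw [wt_two (i : ℕ) (by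
              rw [h7]
              rcases h3 with h | h
              · omega
              · exact h), zero_mul]
          · have : X ((i : ℕ) + 1) = 0 := by simp only [hX]; rw [if_neg h6]
            rw [this, mul_zero]
      rw [ea, eb, add_zero]
  · intro k hk1 hk2
    simp only [hX]
    rw [if_pos ⟨hk1, hk2⟩]
    exact hy _ (by omega)

/-- the heights attached to an ordering -/
def hgt (q : ℕ → ℕ) : ℕ → ℤ
  | 0 => 0
  | n + 1 => hgt q n + if q n < q (n + 1) then 1 else -1

theorem exists_ori (L : List (Fin m)) (hL : L.Nodup) :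
    ∃ θ : Fin m → ℤ, Ori (strMat m p hp) L θ := by
  classical
  set q : ℕ → ℕ := fun k => if h : k < m then L.idxOf (⟨k, h⟩ : Fin m) else 0 with hq
  refine ⟨fun k => hgt q k, ?_⟩
  intro l1 i l2 hLe k hki hb
  have hqk : ∀ j : Fin m, q j = L.idxOf j := by
    intro j
    simp only [hq]
    rw [dif_pos j.2]
  have hi1 : i ∉ l1 := by
    have hL' := hL
    rw [hLe, List.nodup_append] at hL'
    intro hi
    exact hL'.2.2 i hi i (by simp) rfl
  have hqi : q i = l1.length := by
    rw [hqk, hLe, List.idxOf_append_of_notMem hi1]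
    simp
  have hmem : k ∈ l1 → q k < q i := by
    intro hk
    rw [hqi, hqk, hLe, List.idxOf_append_of_mem hk]
    exact List.idxOf_lt_length_of_mem hk
  have hnmem : k ∉ l1 → q i < q k := by
    intro hk
    rw [hqi, hqk, hLe, List.idxOf_append_of_notMem hk]
    have : List.idxOf k (i :: l2) ≠ 0 := by
      intro h
      have hne : ¬ i = k := fun e => hki e.symm
      rw [List.idxOf_cons_ne _ hne] at h
      omega
    omega
  have hb' : -2 * AR1_b (strMat m p hp) i k ≠ 0 := by
    intro h
    apply hb
    linarith
  rw [b_str i k hki] at hb'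
  have hcase : (k : ℕ) = i + 1 ∨ (k : ℕ) + 1 = i := by
    by_contra hcon
    push Not at hcon
    rw [if_neg hcon.1, if_neg hcon.2] at hb'
    simp at hb'
  rcases hcase with hc | hc
  · simp only [hc, hgt]
    rw [← hc]
    by_cases hk : k ∈ l1
    · have h7 : ¬ q (i : ℕ) < q (k : ℕ) := by
        have := hmem hk
        omega
      simp only [hk, if_true, if_neg h7]
      ring
    · have h7 := hnmem hk
      simp only [hk, if_false, if_pos h7]
  · simp only [← hc, hgt]
    rw [hc]
    by_cases hk : k ∈ l1
    · have h7 := hmem hk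
      simp only [hk, if_true, if_pos h7]
      ring
    · have h7 : ¬ q (k : ℕ) < q (i : ℕ) := by
        have := hnmem hk
        omega
      simp only [hk, if_false, if_neg h7]
      ring

end Petrie
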