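import Mathlib
import Pool.Agent.Lib.MP_6ac48b_co.Str

/-!
# Powers of Coxeter elements of string groups in parabolic subgroups
-/

set_option autoImplicit false

namespace Petrie

open CoxeterSystem OS

variable {m : ℕ} {p : ℕ → ℕ} {hp : ∀ i, p i ≠ 1}

/-- the component of `i` -/
def cmp (m : ℕ) (p : ℕ → ℕ) (i : Fin m) : Set (Fin m) := {j | Same p i j}

theorem exists_range (m : ℕ) (p : ℕ → ℕ) (i : ℕ) (hi : i < m) : ∃ lo hi', lo ≤ i ∧ i ≤ hi' ∧ hi' < m ∧
    (lo = 0 ∨ p (lo - 1) = 2) ∧ (hi' + 1 = m ∨ p hi' = 2) ∧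
    (∀ k, lo ≤ k → k < hi' → p k ≠ 2) ∧ ∀ j, j < m → (Same p i j ↔ lo ≤ j ∧ j ≤ hi') := by
  classical
  have ex1 : ∃ h, i ≤ h ∧ (h + 1 = m ∨ p h = 2) := ⟨m - 1, by omega, Or.inl (by omega)⟩
  have ex2 : ∃ d, d ≤ i ∧ (i - d = 0 ∨ p (i - d - 1) = 2) := ⟨i, le_rfl, Or.inl (by omega)⟩
  obtain ⟨h, hh⟩ : ∃ h, h = Nat.find ex1 := ⟨_, rfl⟩
  obtain ⟨d, hd⟩ : ∃ d, d = Nat.find ex2 := ⟨_, rfl⟩
  have h1 := Nat.find_spec ex1
  have h2 : ∀ k, i ≤ k → k < h → ¬ (k + 1 = m ∨ p k = 2) := by
    intro k hk hk2 hc
    exact Nat.find_min ex1 (hh ▸ hk2) ⟨hk, hc⟩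
  have h3 := Nat.find_spec ex2
  have h4 : ∀ k, k ≤ i → k < d → ¬ (i - k = 0 ∨ p (i - k - 1) = 2) := by
    intro k hk hk2 hc
    exact Nat.find_min ex2 (hd ▸ hk2) ⟨hk, hc⟩
  rw [← hh] at h1
  rw [← hd] at h3
  have hhm : h < m := by
    rw [hh]
    exact lt_of_le_of_lt (Nat.find_min' ex1 (m := m - 1) ⟨by omega, Or.inl (by omega)⟩) (by omega)
  have hlow : ∀ k, i - d ≤ k → k < i → p k ≠ 2 := by
    intro k hk hk2 hc
    exact h4 (i - k - 1) (by omega) (by omega) (Or.inr (by
      rw [show i - (i - k - 1) - 1 = k by omega]; exact hc))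
  have hhigh : ∀ k, i ≤ k → k < h → p k ≠ 2 := fun k hk hk2 hc => h2 k hk hk2 (Or.inr hc)
  refine ⟨i - d, h, by omega, h1.1, hhm, h3.2, h1.2, ?_, ?_⟩
  · intro k hk hk2
    by_cases hki : k < i
    · exact hlow k hk hki
    · exact hhigh k (by omega) hk2
  · intro j hj
    constructor
    · intro hs
      constructor
      · by_contra hcon
        push Not at hcon
        have h5 := hs (i - d - 1) (by omega) (by omega)
        rcases h3.2 with h6 | h6
        · omega
        · exact h5 h6
      · by_contra hcon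
        push Not at hcon
        have h5 := hs h (by omega) (by omega)
        rcases h1.2 with h6 | h6
        · omega
        · exact h5 h6
    · intro hj2 k hk hk2
      by_cases hki : k < i
      · exact hlow k (by omega) hki
      · exact hhigh k (by omega) (by omega)

theorem sep_cmp (i : Fin m) : Sep (strMat m p hp) (cmp m p i) := by
  intro j hj k hk
  obtain ⟨lo, hi, h1, h2, h3, h4, h5, h6, h7⟩ := exists_range m p i i.2
  have hj' := (h7 j j.2).mp hj
  have hk' : ¬ (lo ≤ (k : ℕ) ∧ (k : ℕ) ≤ hi) := fun h => hk ((h7 k k.2).mpr h)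
  rw [strMat_apply]
  have hjk : ¬ j = k := by
    rintro rfl
    exact hk hj
  rw [if_neg hjk]
  by_cases e1 : (k : ℕ) = j + 1
  · rw [if_pos e1]
    have : (j : ℕ) = hi := by omega
    rw [this]
    rcases h5 with h | h
    · have := k.2
      omega
    · exact h
  · rw [if_neg e1]
    by_cases e2 : (j : ℕ) = k + 1
    · rw [if_pos e2]
      have : (k : ℕ) = lo - 1 := by omega
      rw [this]
      rcases h4 with h | h
      · omega
      · exact h
    · rw [if_neg e2]

variable {W : Type*} [Group W] (cs : CoxeterSystem (strMat m p hp) W)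

theorem fix_weight (i : Fin m) (u : W) (hu : u ∈ WP cs {j | j ≠ i}) :
    AR1_rho cs u (Pi.single i 1) = Pi.single i 1 := by
  unfold WP at hu
  induction hu using Subgroup.closure_induction with
  | mem x hx =>
    obtain ⟨j, hj, rfl⟩ := hx
    rw [AR1_rho_simple]
    funext k
    rw [AR1_s_apply, Pi.single_eq_of_ne (show j ≠ i from hj)]
    ring
  | one => rw [map_one]; rfl
  | mul x y _ _ hx hy => rw [map_mul, Module.End.mul_apply, hy, hx]
  | inv x _ hx =>
    have : AR1_rho cs x⁻¹ (AR1_rho cs x (Pi.single i 1)) = Pi.single i 1 := by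
      rw [← Module.End.mul_apply, ← map_mul, inv_mul_cancel, map_one]
      rfl
    rw [hx] at this
    exact this

theorem simple_commute (i j : Fin m) (h : (i : ℕ) + 2 ≤ j) :
    Commute (cs.simple i) (cs.simple j) := by
  have h1 := cs.simple_mul_simple_pow i j
  rw [strMat_apply, if_neg (by rintro rfl; omega), if_neg (by omega), if_neg (by omega),
    pow_two] at h1
  unfold Commute SemiconjBy
  calc cs.simple i * cs.simple j = (cs.simple i * cs.simple j)⁻¹ := by
        rw [eq_inv_iff_mul_eq_one, h1]
    _ = cs.simple j * cs.simple i := by rw [mul_inv_rev, cs.inv_simple, cs.inv_simple]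

/-- the generators indexed by natural numbers -/
noncomputable def sn (j : ℕ) : W := if h : j < m then cs.simple ⟨j, h⟩ else 1

theorem sn_fin (j : Fin m) : sn cs j = cs.simple j := by
  rw [sn, dif_pos j.2]

theorem sn_commute (i j : ℕ) (h : i + 2 ≤ j) : Commute (sn cs i) (sn cs j) := by
  unfold sn
  by_cases hj : j < m
  · rw [dif_pos hj, dif_pos (show i < m by omega)]
    exact simple_commute cs _ _ h
  · rw [dif_neg hj]
    exact Commute.one_right _

theorem wordProd_sn (L : List (Fin m)) : cs.wordProd L = ((L.map Fin.val).map (sn cs)).prod := by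
  induction L with
  | nil => simp
  | cons i L ih => rw [cs.wordProd_cons, ih]; simp [sn_fin]

/-- the projections of the products of all generators in two orders are conjugate -/
theorem retr_conj (i : Fin m) (L L' : List (Fin m)) (hL : L.Nodup) (hall : ∀ k, k ∈ L)
    (hL' : L'.Nodup) (hall' : ∀ k, k ∈ L') :
    IsConj (retr cs (sep_cmp i) (cs.wordProd L)) (retr cs (sep_cmp i) (cs.wordProd L')) := by
  classical
  obtain ⟨lo, hi, h1, h2, h3, h4, h5, h6, h7⟩ := exists_range m p i i.2
  rw [retr_word, retr_word, wordProd_sn, wordProd_sn]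
  have key : ∀ K : List (Fin m), (∀ k, k ∈ K) → ∀ x,
      x ∈ (K.filter (· ∈ cmp m p i)).map Fin.val ↔ lo ≤ x ∧ x ≤ lo + (hi - lo) := by
    intro K hK x
    rw [List.mem_map]
    constructor
    · rintro ⟨k, hk, rfl⟩
      rw [List.mem_filter] at hk
      have := (h7 k k.2).mp (of_decide_eq_true hk.2)
      omega
    · intro hx
      refine ⟨⟨x, by omega⟩, ?_, rfl⟩
      rw [List.mem_filter]
      refine ⟨hK _, ?_⟩
      have : Same p i x := (h7 x (by omega)).mpr (by omega)
      exact decide_eq_true this
  exact conj_all (sn cs) (sn_commute cs) lo (hi - lo) _ _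
    ((hL.filter _).map Fin.val_injective) (key L hall)
    ((hL'.filter _).map Fin.val_injective) (key L' hall')

/-- the even generators before the odd ones -/
def evenOdd (m : ℕ) : List (Fin m) :=
  (List.finRange m).filter (fun k : Fin m => (k : ℕ) % 2 = 0) ++
    (List.finRange m).filter (fun k : Fin m => (k : ℕ) % 2 = 1)

theorem evenOdd_nodup : (evenOdd m).Nodup := by
  unfold evenOdd
  rw [List.nodup_append]
  refine ⟨(List.nodup_finRange m).filter _, (List.nodup_finRange m).filter _, ?_⟩
  intro x hx y hy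
  rw [List.mem_filter] at hx hy
  rintro rfl
  have h1 := hx.2
  have h2 := hy.2
  simp at h1 h2
  omega

theorem evenOdd_all (k : Fin m) : k ∈ evenOdd m := by
  unfold evenOdd
  rw [List.mem_append, List.mem_filter, List.mem_filter]
  simp
  omega

theorem evenOdd_ori : Ori (strMat m p hp) (evenOdd m) (fun k => ((k : ℕ) % 2 : ℕ)) := by
  intro l1 i l2 hL k hki hb
  have hcase : (k : ℕ) = i + 1 ∨ (k : ℕ) + 1 = i := by
    by_contra hcon
    push Not at hcon
    have := b_str (p := p) (hp := hp) i k hki
    rw [if_neg hcon.1, if_neg hcon.2] at this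
    apply hb
    linarith
  have hi1 : i ∉ l1 := by
    have hL' := evenOdd_nodup (m := m)
    rw [hL, List.nodup_append] at hL'
    intro hi
    exact hL'.2.2 i hi i (by simp) rfl
  -- the position of even letters
  have hsplit := hL
  unfold evenOdd at hsplit
  rcases List.append_eq_append_iff.mp hsplit with ⟨c, hc1, hc2⟩ | ⟨c, hc1, hc2⟩
  · -- `l1` contains all even letters
    have hiodd : (i : ℕ) % 2 = 1 := by
      have : i ∈ (List.finRange m).filter (fun k : Fin m => (k : ℕ) % 2 = 1) := by
        rw [hc2]; simp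
      simpa using (List.mem_filter.mp this).2
    have hk : k ∈ l1 := by
      rw [hc1, List.mem_append, List.mem_filter]
      left
      refine ⟨List.mem_finRange k, ?_⟩
      simp
      omega
    rw [if_pos hk]
    have : (k : ℕ) % 2 = 0 := by omega
    simp only [this, hiodd]
    norm_num
  · cases c with
    | nil =>
      rw [List.append_nil] at hc1
      rw [List.nil_append] at hc2
      have hiodd : (i : ℕ) % 2 = 1 := by
        have : i ∈ (List.finRange m).filter (fun k : Fin m => (k : ℕ) % 2 = 1) := by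
          rw [← hc2]; simp
        simpa using (List.mem_filter.mp this).2
      have hk : k ∈ l1 := by
        rw [← hc1, List.mem_filter]
        refine ⟨List.mem_finRange k, ?_⟩
        simp
        omega
      rw [if_pos hk]
      have : (k : ℕ) % 2 = 0 := by omega
      simp only [this, hiodd]
      norm_num
    | cons e c =>
      rw [List.cons_append, List.cons.injEq] at hc2
      obtain ⟨rfl, hc3⟩ := hc2
      have hieven : (i : ℕ) % 2 = 0 := by
        have : i ∈ (List.finRange m).filter (fun k : Fin m => (k : ℕ) % 2 = 0) := by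
          rw [hc1]; simp
        simpa using (List.mem_filter.mp this).2
      have hk : k ∉ l1 := by
        intro hk
        have : k ∈ (List.finRange m).filter (fun k : Fin m => (k : ℕ) % 2 = 0) := by
          rw [hc1]; simp [hk]
        have := (List.mem_filter.mp this).2
        simp at this
        omega
      rw [if_neg hk]
      have : (k : ℕ) % 2 = 1 := by omega
      simp only [this, hieven]
      norm_num

end Petrie
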