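import Mathlib
import Pool.Agent.Lib.MP_6ac48b_co.Grp

/-!
# Powers of Coxeter elements of string groups in parabolic subgroups: main results
-/

set_option autoImplicit false

namespace Petrie

open CoxeterSystem OS

variable {m : ℕ} {p : ℕ → ℕ} {hp : ∀ i, p i ≠ 1}

theorem bz_const (l u : ℝ) (x : Fin m → ℝ) (hx : IsEig (strMat m p hp) l x) (k : Fin m) :
    bz (strMat m p hp) (fun j => x j * u) k = (2 - l) * u * x k := by
  have h := hx k
  unfold bz
  rw [← Finset.add_sum_erase _ _ (Finset.mem_univ k), AR1_b_self]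
  have e : ∑ j ∈ Finset.univ.erase k, 2 * AR1_b (strMat m p hp) k j * (x j * u) =
      - (u * ∑ j ∈ Finset.univ.erase k, (-2 * AR1_b (strMat m p hp) k j) * x j) := by
    rw [Finset.mul_sum, ← Finset.sum_neg_distrib]
    apply Finset.sum_congr rfl
    intro j _
    ring
  rw [e, ← h]
  ring

variable {W : Type*} [Group W] (cs : CoxeterSystem (strMat m p hp) W)

/-- If a power of the product of all generators lies in a maximal parabolic subgroup, then the
power of its component is trivial. -/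
theorem retr_pow_eq_one (L : List (Fin m)) (hL : L.Nodup) (hall : ∀ k, k ∈ L) (i : Fin m) (n : ℕ)
    (hn : 0 < n) (hmem : cs.wordProd L ^ n ∈ WP cs {j | j ≠ i}) :
    retr cs (sep_cmp i) (cs.wordProd L) ^ n = 1 := by
  obtain ⟨lo, hi, h1, h2, h3, h4, h5, h6, h7⟩ := exists_range m p i i.2
  obtain ⟨l, hl0, x, hx, hxpos⟩ := exists_eig (m := m) (p := p) (hp := hp) lo hi (by omega) h3 h4
    h5 h6
  obtain ⟨θ, hθ⟩ := exists_ori (p := p) (hp := hp) L hL
  have hfix := fix_weight cs i _ hmem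
  have hxi : x i ≠ 0 := (hxpos i h1 h2).ne'
  have hper : ∀ F : ℤ → ℝ, (∀ t, F (t + 1) + F (t - 1) = l * F t) →
      F (θ i) = F (θ i + 2 * n) := fun F hF => period cs hL hall hθ hx i hxi n hfix hF
  have hnr : (0 : ℝ) < n := by exact_mod_cast hn
  -- the eigenvalue is less than `2`
  have hl2 : l < 2 := by
    by_contra hcon
    push Not at hcon
    rcases hcon.eq_or_lt with h | h
    · have := hper (fun t => (t : ℝ)) (by
        intro t
        rw [← h]
        push_cast
        ring)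
      push_cast at this
      linarith
    · obtain ⟨ν, hν1, hν⟩ : ∃ ν : ℝ, 1 < ν ∧ ν + ν⁻¹ = l := by
        have hd : 0 < l ^ 2 - 4 := by nlinarith
        refine ⟨(l + Real.sqrt (l ^ 2 - 4)) / 2, ?_, ?_⟩
        · have := Real.sqrt_nonneg (l ^ 2 - 4)
          linarith
        · have hs := Real.sq_sqrt hd.le
          have hs0 := Real.sqrt_nonneg (l ^ 2 - 4)
          have hne : l + Real.sqrt (l ^ 2 - 4) ≠ 0 := by positivity
          field_simp
          nlinarith
      have hν0 : ν ≠ 0 := by positivity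
      have := hper (fun t => ν ^ t) (by
        intro t
        rw [zpow_add₀ hν0, zpow_sub₀ hν0, zpow_one, ← hν]
        field_simp)
      have h8 : θ i = θ i + 2 * n := zpow_right_injective₀ (by positivity) hν1.ne' this
      have : (0 : ℤ) < n := by exact_mod_cast hn
      omega
  -- trigonometry
  obtain ⟨ϑ, hϑ⟩ : ∃ ϑ, ϑ = Real.arccos (l / 2) := ⟨_, rfl⟩
  have hcos : Real.cos ϑ = l / 2 := by
    rw [hϑ, Real.cos_arccos (by linarith) (by linarith)]
  have hϑ0 : 0 ≤ ϑ := by rw [hϑ]; exact Real.arccos_nonneg _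
  have hϑ1 : ϑ ≤ Real.pi / 2 := by
    rw [hϑ]; exact Real.arccos_le_pi_div_two.mpr (by linarith)
  have hsol : ∀ c : ℝ, ∀ t : ℤ, Real.cos (((t + 1 : ℤ) - c) * ϑ) + Real.cos (((t - 1 : ℤ) - c) * ϑ) =
      l * Real.cos ((t - c) * ϑ) := by
    intro c t
    push_cast
    have e1 : ((t : ℝ) + 1 - c) * ϑ = (t - c) * ϑ + ϑ := by ring
    have e2 : ((t : ℝ) - 1 - c) * ϑ = (t - c) * ϑ - ϑ := by ring
    rw [e1, e2, Real.cos_add, Real.cos_sub, hcos]
    ring
  have hc1 : Real.cos (2 * n * ϑ) = 1 := by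
    have := hper (fun t => Real.cos ((t - (θ i : ℝ)) * ϑ)) (hsol (θ i))
    push_cast at this
    rw [sub_self, zero_mul, Real.cos_zero] at this
    rw [this]
    congr 1
    ring
  have hs1 : Real.sin (2 * n * ϑ) = 0 := by
    have := Real.sin_sq_add_cos_sq (2 * n * ϑ)
    rw [hc1] at this
    nlinarith
  -- the even odd ordering
  set w' := cs.wordProd (evenOdd m) with hw'
  have hF : ∀ t : ℤ, (fun t : ℤ => Real.cos ((t - (1 / 2 : ℝ)) * ϑ)) (t + 1) +
      (fun t : ℤ => Real.cos ((t - (1 / 2 : ℝ)) * ϑ)) (t - 1) =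
      l * (fun t : ℤ => Real.cos ((t - (1 / 2 : ℝ)) * ϑ)) t := hsol (1 / 2)
  have hv := vec_pow cs (evenOdd_nodup (m := m)) evenOdd_all
    (evenOdd_ori (p := p) (hp := hp)) hx n (F := fun t : ℤ => Real.cos ((t - (1 / 2 : ℝ)) * ϑ)) hF
  rw [← hw'] at hv
  set u := Real.cos (ϑ / 2) with hu
  have hu0 : 0 < u := by
    rw [hu]
    apply Real.cos_pos_of_mem_Ioo
    constructor
    · linarith [Real.pi_pos]
    · linarith [Real.pi_pos]
  have hval : ∀ k : Fin m, Real.cos ((((((k : ℕ) % 2 : ℕ) : ℤ) : ℝ) - 1 / 2) * ϑ) = u := by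
    intro k
    rcases Nat.mod_two_eq_zero_or_one k with h | h
    · rw [h, hu, ← Real.cos_neg (ϑ / 2)]
      congr 1
      push_cast
      ring
    · rw [h, hu]
      congr 1
      push_cast
      ring
  have hval2 : ∀ k : Fin m,
      Real.cos ((((((((k : ℕ) % 2 : ℕ) : ℤ) + 2 * n : ℤ)) : ℝ) - 1 / 2) * ϑ) = u := by
    intro k
    rw [← hval k]
    have gen : ∀ z : ℤ, Real.cos (((z + 2 * n : ℤ) - (1 / 2 : ℝ)) * ϑ) =
        Real.cos ((z - (1 / 2 : ℝ)) * ϑ) := by
      intro z
      push_cast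
      have e : ((z : ℝ) + 2 * n - 1 / 2) * ϑ = ((z : ℝ) - 1 / 2) * ϑ + 2 * n * ϑ := by ring
      rw [e, Real.cos_add, hc1, hs1]
      ring
    exact gen _
  have e1 : (fun k : Fin m => x k * (fun t : ℤ => Real.cos ((t - (1 / 2 : ℝ)) * ϑ))
      ((fun k : Fin m => (((k : ℕ) % 2 : ℕ) : ℤ)) k)) = fun k => x k * u := by
    funext k
    simp only
    rw [hval k]
  have e2 : (fun k : Fin m => x k * (fun t : ℤ => Real.cos ((t - (1 / 2 : ℝ)) * ϑ))
      ((fun k : Fin m => (((k : ℕ) % 2 : ℕ) : ℤ)) k + 2 * n)) = fun k => x k * u := by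
    funext k
    simp only
    rw [hval2 k]
  rw [e1, e2] at hv
  set v := bz (strMat m p hp) (fun k => x k * u) with hvdef
  have hv2 : AR1_rho cs (w' ^ n) v = v := by
    conv_lhs => rw [← hv]
    rw [← Module.End.mul_apply, ← map_mul, mul_inv_cancel, map_one]
    rfl
  have hvpos : ∀ k ∈ cmp m p i, 0 < v k := by
    intro k hk
    have hk' := (h7 k k.2).mp hk
    rw [hvdef, bz_const l u x hx k]
    have := hxpos k hk'.1 hk'.2
    have h9 : 0 < 2 - l := by linarith
    positivity
  have hone : retr cs (sep_cmp i) (w' ^ n) = 1 :=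
    retr_eq_one_of_fix cs (sep_cmp i) _ v hvpos (fun k _ => by rw [hv2])
  rw [map_pow] at hone
  have hconj := retr_conj cs i L (evenOdd m) hL hall evenOdd_nodup evenOdd_all
  rw [← hw'] at hconj
  obtain ⟨g, hg⟩ := isConj_iff.mp hconj
  have : (g * retr cs (sep_cmp i) (cs.wordProd L) * g⁻¹) ^ n = 1 := by rw [hg, hone]
  rw [conj_pow] at this
  have h10 : retr cs (sep_cmp i) (cs.wordProd L) ^ n =
      g⁻¹ * (g * retr cs (sep_cmp i) (cs.wordProd L) ^ n * g⁻¹) * g := by group
  rw [h10, this]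
  group

/-- the Coxeter element of the component of `i`, in the natural order -/
noncomputable def cxe (i : Fin m) : W := retr cs (sep_cmp i) (cs.wordProd (List.finRange m))

theorem cxe_conj (L : List (Fin m)) (hL : L.Nodup) (hall : ∀ k, k ∈ L) (i : Fin m) (n : ℕ) :
    retr cs (sep_cmp i) (cs.wordProd L) ^ n = 1 ↔ cxe cs i ^ n = 1 := by
  have hconj := retr_conj cs i L (List.finRange m) hL hall (List.nodup_finRange m)
    (fun k => List.mem_finRange k)
  obtain ⟨g, hg⟩ := isConj_iff.mp hconj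
  unfold cxe
  rw [← hg, conj_pow, conj_eq_one_iff]

/-- the power of the product of all generators is trivial when the powers of the Coxeter elements
of all components are -/
theorem pow_eq_one_of_cxe (L : List (Fin m)) (hL : L.Nodup) (hall : ∀ k, k ∈ L) (n : ℕ)
    (h : ∀ i, cxe cs i ^ n = 1) : cs.wordProd L ^ n = 1 := by
  apply eq_one_of_retr cs (fun i => cmp m p i) (fun i => sep_cmp i)
  · intro k
    refine ⟨k, ?_⟩
    intro j hj1 hj2
    omega
  · intro i
    rw [map_pow]
    exact (cxe_conj cs L hL hall i n).mpr (h i)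

theorem cxe_of_pow (L : List (Fin m)) (hL : L.Nodup) (hall : ∀ k, k ∈ L) (n : ℕ)
    (h : cs.wordProd L ^ n = 1) (i : Fin m) : cxe cs i ^ n = 1 := by
  rw [← cxe_conj cs L hL hall i n, ← map_pow, h, map_one]

/-- a power of a Coxeter element of a component is trivial: then the power of the whole product
avoids the component -/
theorem mem_of_cxe (L : List (Fin m)) (hL : L.Nodup) (hall : ∀ k, k ∈ L) (i : Fin m) (n : ℕ)
    (h : cxe cs i ^ n = 1) : cs.wordProd L ^ n ∈ WP cs {j | j ≠ i} := by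
  have h1 := mem_of_retr_eq_one cs (sep_cmp i) (cs.wordProd L ^ n)
    (by rw [map_pow]; exact (cxe_conj cs L hL hall i n).mpr h)
  refine WP_mono cs ?_ h1
  intro j hj
  rintro rfl
  apply hj
  intro k hk1 hk2
  omega

theorem cxe_eq (i : Fin m) : cxe cs i = coxElt cs i := by
  classical
  unfold cxe coxElt
  rw [retr_word, CoxeterSystem.wordProd]
  congr 3

end Petrie
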