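import Mathlib

/-!
# Abstract regular polytopes and their Petrie schemes

An abstract polytope of rank `m` is given by the partially ordered set `F` of its proper faces and
the rank function `rk : F → Fin m`; the least and the greatest face are understood.
-/

set_option autoImplicit false

namespace Petrie

universe u

variable {m : ℕ} {F : Type*} [PartialOrder F]

/-- the flags, as sequences of proper faces of all ranks `0, 1, ..., m - 1` -/
def Flg (rk : F → Fin m) : Type _ :=
  {Ψ : Fin m → F // (∀ i, rk (Ψ i) = i) ∧ StrictMono Ψ}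

/-- the flags `Ψ` and `Ψ'` are `i`-adjacent: they differ exactly in their faces of rank `i` -/
def Adjacent {rk : F → Fin m} (i : Fin m) (Ψ Ψ' : Flg rk) : Prop :=
  Ψ'.1 i ≠ Ψ.1 i ∧ ∀ j, j ≠ i → Ψ'.1 j = Ψ.1 j

/-- `F` with the rank function `rk` is (the set of proper faces of) an abstract polytope of
rank `m` -/
structure IsPolytope (rk : F → Fin m) : Prop where
  /-- the rank function is strictly increasing -/
  lt_rank : ∀ a b : F, a < b → rk a < rk b
  /-- every chain is contained in a flag -/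
  chain : ∀ C : Set F, IsChain (· ≤ ·) C → ∃ Ψ : Flg rk, C ⊆ Set.range Ψ.1
  /-- strong flag-connectedness: any two flags `Φ`, `Ψ` are joined by a sequence of successively
  adjacent flags which contain all common faces of `Φ` and `Ψ` -/
  conn : ∀ Φ Ψ : Flg rk, Relation.ReflTransGen
    (fun A B : Flg rk => (∃ i, Adjacent i A B) ∧ ∀ i, Φ.1 i = Ψ.1 i → B.1 i = Φ.1 i) Φ Ψ
  /-- the diamond condition: for every flag and every `i` there is exactly one `i`-adjacent flag -/
  diamond : ∀ (Ψ : Flg rk) (i : Fin m), ∃! Ψ' : Flg rk, Adjacent i Ψ Ψ'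

/-- the automorphism group is transitive on the flags -/
def IsRegular (rk : F → Fin m) : Prop :=
  ∀ Φ Ψ : Flg rk, ∃ g : F ≃o F, ∀ i, g (Φ.1 i) = Ψ.1 i

/-- `ρ 0, ..., ρ (m - 1)` are the distinguished generators for the base flag `Φ`: `ρ i` maps `Φ`
to the `i`-adjacent flag -/
def IsGens {rk : F → Fin m} (Φ : Flg rk) (ρ : Fin m → F ≃o F) : Prop :=
  ∀ i, ρ i (Φ.1 i) ≠ Φ.1 i ∧ ∀ j, j ≠ i → ρ i (Φ.1 j) = Φ.1 j

/-- the `i`-adjacent flag `Ψ γ_i` of `Ψ` -/
noncomputable def adj {rk : F → Fin m} (h : IsPolytope rk) (i : Fin m) (Ψ : Flg rk) : Flg rk :=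
  (h.diamond Ψ i).choose

/-- `L` is an ordering `i_1, ..., i_m` of `0, ..., m - 1` -/
def IsOrdering (L : List (Fin m)) : Prop := L.Nodup ∧ ∀ i, i ∈ L

/-- The two-sided sequence `Θ` is the sequence `..., Ψ γ⁻¹, Ψ, Ψ γ, Ψ γ², ...` of some flag `Ψ` for
`γ = γ_{i_1} γ_{i_2} ... γ_{i_m}`, `L = [i_1, ..., i_m]`. -/
def IsPetrie {rk : F → Fin m} (h : IsPolytope rk) (L : List (Fin m)) (Θ : ℤ → Flg rk) : Prop :=
  ∀ k, Θ (k + 1) = L.foldl (fun Ψ i => adj h i Ψ) (Θ k)

/-- Every Petrie scheme is acoptic: for all orderings and all flags, if two flags of the sequence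
have a proper face in common (of rank `i`; a face of rank `i` can only be the `i`-th face of a
flag), then they are equal. So every proper face appears at most once in the scheme. -/
def AllAcoptic {rk : F → Fin m} (h : IsPolytope rk) : Prop :=
  ∀ L : List (Fin m), IsOrdering L → ∀ Θ : ℤ → Flg rk, IsPetrie h L Θ →
    ∀ (k l : ℤ) (i : Fin m), (Θ k).1 i = (Θ l).1 i → Θ k = Θ l

/-- the product `ρ_{i_1} ρ_{i_2} ...` for `L = [i_1, i_2, ...]` -/
def listProd (ρ : Fin m → F ≃o F) (L : List (Fin m)) : F ≃o F := (L.map ρ).prod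

/-- The group `Γ = Aut P` of a regular polytope `P` of rank `N + 3` with facet group
`Γ(K) = ⟨ρ_0, ..., ρ_{N+1}⟩` maps onto (for suitable `P`: is) the group generated by `Γ(K)` and
`ρ_{N+2}` with the defining relations: the relations of `Γ(K)`, `ρ_{N+2}² = 1`, `ρ_{N+2}` commutes
with `ρ_0, ..., ρ_N`, `(ρ_{N+1} ρ_{N+2})^{2q} = 1` (no such relation for `q = 0`).
In other words: a homomorphism `f` of `Γ(K)` and an element `t` of any group which satisfy these
relations are the restrictions of a homomorphism of `Γ`. -/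
def IsExtension {N : ℕ} {F : Type u} [PartialOrder F] (ρ : Fin (N + 3) → F ≃o F) (q : ℕ) : Prop :=
  ∀ (H : Type u) [Group H] (f : Subgroup.closure (ρ '' {j | j ≠ Fin.last (N + 2)}) →* H) (t : H),
    t * t = 1 →
    (∀ (j : Fin (N + 3)) (hj : j ≠ Fin.last (N + 2)), (j : ℕ) ≤ N →
      Commute (f ⟨ρ j, Subgroup.subset_closure ⟨j, hj, rfl⟩⟩) t) →
    (∀ (j : Fin (N + 3)) (hj : j ≠ Fin.last (N + 2)), (j : ℕ) = N + 1 →
      (f ⟨ρ j, Subgroup.subset_closure ⟨j, hj, rfl⟩⟩ * t) ^ (2 * q) = 1) →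
    ∃ g : (F ≃o F) →* H, (∀ x : Subgroup.closure (ρ '' {j | j ≠ Fin.last (N + 2)}),
      g x.1 = f x) ∧ g (ρ (Fin.last (N + 2))) = t

end Petrie
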