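import Mathlib
import Pool.Agent.Lib.MP_6ac48b_co.Defs

/-!
# Abstract regular polytopes: flags and group elements
-/

set_option autoImplicit false

namespace Petrie

variable {m : ℕ} {F : Type*} [PartialOrder F] {rk : F → Fin m}

theorem flg_ext {Ψ Ψ' : Flg rk} (h : ∀ i, Ψ.1 i = Ψ'.1 i) : Ψ = Ψ' := Subtype.ext (funext h)

theorem adj_spec (h : IsPolytope rk) (i : Fin m) (Ψ : Flg rk) : Adjacent i Ψ (adj h i Ψ) :=
  (h.diamond Ψ i).choose_spec.1

theorem adj_unique (h : IsPolytope rk) {i : Fin m} {Ψ Ψ' : Flg rk} (h' : Adjacent i Ψ Ψ') :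
    Ψ' = adj h i Ψ := (h.diamond Ψ i).choose_spec.2 Ψ' h'

theorem exists_flag (h : IsPolytope rk) (a : F) : ∃ Ψ : Flg rk, Ψ.1 (rk a) = a := by
  obtain ⟨Ψ, hΨ⟩ := h.chain {a} (by
    intro x hx y hy hxy
    rw [Set.mem_singleton_iff] at hx hy
    exact absurd (hx.trans hy.symm) hxy)
  obtain ⟨i, hi⟩ := hΨ rfl
  refine ⟨Ψ, ?_⟩
  have := Ψ.2.1 i
  rw [hi] at this
  rw [this, hi]

theorem strictMono_fin_eq {f : Fin m → Fin m} (hf : StrictMono f) : f = id := by
  have h1 : Function.Surjective f := Finite.surjective_of_injective hf.injective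
  have h2 : StrictMono.orderIsoOfSurjective f hf h1 = OrderIso.refl _ := Subsingleton.elim _ _
  funext i
  have h3 := congrArg (fun e : Fin m ≃o Fin m => e i) h2
  exact h3

theorem rk_map (h : IsPolytope rk) (g : F ≃o F) (a : F) : rk (g a) = rk a := by
  obtain ⟨Ψ, hΨ⟩ := exists_flag h a
  have h1 : StrictMono (fun i => rk (g (Ψ.1 i))) := by
    intro i j hij
    exact h.lt_rank _ _ (g.strictMono (Ψ.2.2 hij))
  have h2 := congrFun (strictMono_fin_eq h1) (rk a)
  simp only [hΨ, id] at h2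
  exact h2

/-- the action on the flags -/
def act (h : IsPolytope rk) (g : F ≃o F) (Ψ : Flg rk) : Flg rk :=
  ⟨fun i => g (Ψ.1 i), fun i => by rw [rk_map h, Ψ.2.1], g.strictMono.comp Ψ.2.2⟩

theorem act_apply (h : IsPolytope rk) (g : F ≃o F) (Ψ : Flg rk) (i : Fin m) :
    (act h g Ψ).1 i = g (Ψ.1 i) := rfl

theorem act_one (h : IsPolytope rk) (Ψ : Flg rk) : act h 1 Ψ = Ψ := rfl

theorem act_mul (h : IsPolytope rk) (g g' : F ≃o F) (Ψ : Flg rk) :
    act h (g * g') Ψ = act h g (act h g' Ψ) := rfl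

theorem act_adj (h : IsPolytope rk) (g : F ≃o F) (i : Fin m) (Ψ : Flg rk) :
    act h g (adj h i Ψ) = adj h i (act h g Ψ) := by
  apply adj_unique
  have h1 := adj_spec h i Ψ
  refine ⟨?_, ?_⟩
  · rw [act_apply, act_apply]
    exact fun h2 => h1.1 (g.injective h2)
  · intro j hj
    rw [act_apply, act_apply, h1.2 j hj]

theorem act_free (h : IsPolytope rk) (g : F ≃o F) (Φ : Flg rk) (hg : act h g Φ = Φ) : g = 1 := by
  have key : ∀ Ψ : Flg rk, act h g Ψ = Ψ := by
    intro Ψ
    have key2 : ∀ B : Flg rk, Relation.ReflTransGen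
        (fun A B : Flg rk => (∃ i, Adjacent i A B) ∧ ∀ i, Φ.1 i = Ψ.1 i → B.1 i = Φ.1 i) Φ B →
        act h g B = B := by
      intro B hB
      induction hB with
      | refl => exact hg
      | tail _ hstep ih =>
        obtain ⟨⟨i, hi⟩, -⟩ := hstep
        rw [adj_unique h hi, act_adj, ih]
    exact key2 Ψ (h.conn Φ Ψ)
  ext a
  obtain ⟨Ψ, hΨ⟩ := exists_flag h a
  have := congrArg (fun X : Flg rk => X.1 (rk a)) (key Ψ)
  simp only [act_apply, hΨ] at this
  exact this

theorem act_inj (h : IsPolytope rk) (g g' : F ≃o F) (Φ : Flg rk)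
    (hg : act h g Φ = act h g' Φ) : g = g' := by
  have h1 : act h (g'⁻¹ * g) Φ = Φ := by
    rw [act_mul, hg, ← act_mul, inv_mul_cancel, act_one]
  have := act_free h _ Φ h1
  rw [inv_mul_eq_one] at this
  exact this.symm

section gens

variable {Φ : Flg rk} {ρ : Fin m → F ≃o F}

theorem gens_adj (h : IsPolytope rk) (hρ : IsGens Φ ρ) (i : Fin m) :
    act h (ρ i) Φ = adj h i Φ := by
  apply adj_unique
  exact ⟨(hρ i).1, fun j hj => (hρ i).2 j hj⟩

theorem act_gens (h : IsPolytope rk) (hρ : IsGens Φ ρ) (g : F ≃o F) (i : Fin m) :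
    adj h i (act h g Φ) = act h (g * ρ i) Φ := by
  rw [act_mul, gens_adj h hρ, act_adj]

theorem foldl_gens (h : IsPolytope rk) (hρ : IsGens Φ ρ) (L : List (Fin m)) :
    ∀ g : F ≃o F, L.foldl (fun Ψ i => adj h i Ψ) (act h g Φ) = act h (g * (L.map ρ).prod) Φ := by
  induction L with
  | nil => intro g; simp
  | cons i L ih =>
    intro g
    rw [List.foldl_cons, act_gens h hρ, ih, List.map_cons, List.prod_cons, mul_assoc]

/-- the stabilizer of a face of the base flag -/
theorem mem_closure_of_fix (h : IsPolytope rk) (hρ : IsGens Φ ρ) (g : F ≃o F) (i : Fin m)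
    (hg : g (Φ.1 i) = Φ.1 i) : g ∈ Subgroup.closure (ρ '' {j | j ≠ i}) := by
  have key : ∀ B : Flg rk, Relation.ReflTransGen
      (fun A B : Flg rk => (∃ j, Adjacent j A B) ∧ ∀ j, Φ.1 j = (act h g Φ).1 j → B.1 j = Φ.1 j)
      Φ B → B.1 i = Φ.1 i ∧ ∃ x ∈ Subgroup.closure (ρ '' {j | j ≠ i}), B = act h x Φ := by
    intro B hB
    induction hB with
    | refl => exact ⟨rfl, 1, Subgroup.one_mem _, rfl⟩
    | tail _ hstep ih =>
      rename_i b c _
      obtain ⟨hbi, x, hx, hbx⟩ := ih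
      obtain ⟨⟨j, hj⟩, hc⟩ := hstep
      have hci : c.1 i = Φ.1 i := hc i hg.symm
      refine ⟨hci, x * ρ j, ?_, ?_⟩
      · refine Subgroup.mul_mem _ hx (Subgroup.subset_closure ⟨j, ?_, rfl⟩)
        rintro rfl
        exact hj.1 (hci.trans hbi.symm)
      · rw [adj_unique h hj, hbx, act_gens h hρ]
  obtain ⟨-, x, hx, hgx⟩ := key _ (h.conn Φ (act h g Φ))
  rw [act_inj h g x Φ hgx]
  exact hx

theorem fix_of_mem_closure (hρ : IsGens Φ ρ) (g : F ≃o F) (i : Fin m)
    (hg : g ∈ Subgroup.closure (ρ '' {j | j ≠ i})) : g (Φ.1 i) = Φ.1 i := by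
  induction hg using Subgroup.closure_induction with
  | mem x hx =>
    obtain ⟨j, hj, rfl⟩ := hx
    exact (hρ j).2 i (fun e => hj e.symm)
  | one => rfl
  | mul x y _ _ hx hy => rw [RelIso.mul_apply, hy, hx]
  | inv x _ hx =>
    have : x⁻¹ (x (Φ.1 i)) = Φ.1 i := by
      rw [← RelIso.mul_apply, inv_mul_cancel]
      rfl
    rw [hx] at this
    exact this

/-- a Petrie sequence is a two-sided sequence of powers -/
theorem petrie_form (h : IsPolytope rk) (hreg : IsRegular rk) (hρ : IsGens Φ ρ)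
    (L : List (Fin m)) (Θ : ℤ → Flg rk) (hΘ : IsPetrie h L Θ) :
    ∃ g : F ≃o F, ∀ k : ℤ, Θ k = act h (g * listProd ρ L ^ k) Φ := by
  choose g hg using fun k : ℤ => hreg Φ (Θ k)
  have hg' : ∀ k, Θ k = act h (g k) Φ := fun k => (flg_ext (fun i => hg k i)).symm
  have hstep : ∀ k, g (k + 1) = g k * listProd ρ L := by
    intro k
    apply act_inj h _ _ Φ
    rw [← hg', hΘ k, hg' k, foldl_gens h hρ]
    rfl
  refine ⟨g 0, fun k => ?_⟩
  rw [hg' k]
  congr 1
  induction k using Int.induction_on with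
  | zero => simp
  | succ k ih => rw [hstep, ih, mul_assoc, zpow_add_one]
  | pred k ih =>
    have h1 := hstep (-(k : ℤ) - 1)
    rw [sub_add_cancel, ih] at h1
    rw [eq_mul_inv_of_mul_eq h1.symm, zpow_sub_one, mul_assoc]

theorem petrie_of_powers (h : IsPolytope rk) (hρ : IsGens Φ ρ) (L : List (Fin m)) :
    IsPetrie h L (fun k : ℤ => act h (listProd ρ L ^ k) Φ) := by
  intro k
  simp only
  rw [foldl_gens h hρ, zpow_add_one]
  rfl

/-- group form of the condition -/
theorem allAcoptic_iff (h : IsPolytope rk) (hreg : IsRegular rk) (hρ : IsGens Φ ρ) :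
    AllAcoptic h ↔ ∀ L : List (Fin m), IsOrdering L → ∀ (i : Fin m) (n : ℕ),
      listProd ρ L ^ n ∈ Subgroup.closure (ρ '' {j | j ≠ i}) → listProd ρ L ^ n = 1 := by
  constructor
  · intro hA L hL i n hn
    have h1 := hA L hL _ (petrie_of_powers h hρ L) (n : ℤ) 0 i (by
      rw [act_apply, act_apply, zpow_natCast, zpow_zero, fix_of_mem_closure hρ _ i hn]
      rfl)
    rw [zpow_natCast, zpow_zero] at h1
    exact act_inj h _ _ Φ h1
  · intro hA L hL Θ hΘ k l i hkl
    obtain ⟨g, hg⟩ := petrie_form h hreg hρ L Θ hΘ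
    set w := listProd ρ L with hw
    have hfix : (w ^ (l - k)) (Φ.1 i) = Φ.1 i := by
      rw [hg k, hg l, act_apply, act_apply, RelIso.mul_apply, RelIso.mul_apply] at hkl
      have h1 := g.injective hkl
      rw [sub_eq_neg_add, zpow_add, RelIso.mul_apply, ← h1, ← RelIso.mul_apply, zpow_neg,
        inv_mul_cancel]
      rfl
    have hone : w ^ (l - k) = 1 := by
      rcases Int.natAbs_eq (l - k) with he | he
      · rw [he, zpow_natCast] at hfix ⊢
        exact hA L hL i _ (mem_closure_of_fix h hρ _ i hfix)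
      · rw [he, zpow_neg, zpow_natCast] at hfix ⊢
        have h2 : (w ^ (l - k).natAbs) (Φ.1 i) = Φ.1 i := by
          conv_lhs => rw [← hfix]
          rw [← RelIso.mul_apply, mul_inv_cancel]
          rfl
        rw [hA L hL i _ (mem_closure_of_fix h hρ _ i h2), inv_one]
    rw [hg k, hg l]
    have : w ^ l = w ^ k := by
      have h3 : w ^ l = w ^ (l - k) * w ^ k := by rw [← zpow_add, sub_add_cancel]
      rw [h3, hone, one_mul]
    rw [this]

end gens

end Petrie
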