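import Mathlib
import Pool.Agent.Lib.MP_6ac48b_co.Cox
import Pool.Agent.Lib.MP_6ac48b_co.Poly

/-!
# Petrie schemes of polytopes which cover Coxeter polytopes
-/

set_option autoImplicit false

namespace Petrie

open CoxeterSystem OS

variable {m : ℕ} {p : ℕ → ℕ} {hp : ∀ i, p i ≠ 1} {F : Type*} [PartialOrder F] {rk : F → Fin m}
  {Φ : Flg rk} {ρ : Fin m → F ≃o F} {W : Type*} [Group W] (cs : CoxeterSystem (strMat m p hp) W)
  (π : (F ≃o F) →* W)

theorem pi_listProd (hπ : ∀ i, π (ρ i) = cs.simple i) (L : List (Fin m)) :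
    π (listProd ρ L) = cs.wordProd L := by
  unfold listProd
  rw [map_list_prod, List.map_map, CoxeterSystem.wordProd]
  congr 1
  apply List.map_congr_left
  intro i _
  exact hπ i

theorem pi_mem (hπ : ∀ i, π (ρ i) = cs.simple i) {g : F ≃o F} {i : Fin m}
    (hg : g ∈ Subgroup.closure (ρ '' {j | j ≠ i})) : π g ∈ WP cs {j | j ≠ i} := by
  have h1 : (Subgroup.closure (ρ '' {j | j ≠ i})).map π ≤ WP cs {j | j ≠ i} := by
    rw [MonoidHom.map_closure, Subgroup.closure_le]
    rintro _ ⟨_, ⟨j, hj, rfl⟩, rfl⟩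
    rw [hπ]
    exact simple_mem_WP cs hj
  exact h1 ⟨g, hg, rfl⟩

theorem mem_of_pi_mem (hπ : ∀ i, π (ρ i) = cs.simple i) (hinj : Function.Injective π)
    {g : F ≃o F} {i : Fin m} (hg : π g ∈ WP cs {j | j ≠ i}) :
    g ∈ Subgroup.closure (ρ '' {j | j ≠ i}) := by
  have h1 : WP cs {j | j ≠ i} = (Subgroup.closure (ρ '' {j | j ≠ i})).map π := by
    rw [MonoidHom.map_closure, WP]
    congr 1
    ext x
    constructor
    · rintro ⟨j, hj, rfl⟩
      exact ⟨ρ j, ⟨j, hj, rfl⟩, hπ j⟩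
    · rintro ⟨_, ⟨j, hj, rfl⟩, rfl⟩
      exact ⟨j, hj, (hπ j).symm⟩
  rw [h1] at hg
  obtain ⟨x, hx, hxg⟩ := hg
  rw [← hinj hxg]
  exact hx

theorem cox_main (hP : IsPolytope rk) (hreg : IsRegular rk) (hρ : IsGens Φ ρ)
    (hπ : ∀ i, π (ρ i) = cs.simple i) :
    ((∀ i j, orderOf (coxElt cs i) = orderOf (coxElt cs j)) →
      (∀ L, IsOrdering L → ∀ i, listProd ρ L ^ orderOf (coxElt cs i) = 1) → AllAcoptic hP) ∧
    (Function.Injective π →
      (AllAcoptic hP ↔ ∀ i j, orderOf (coxElt cs i) = orderOf (coxElt cs j))) := by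
  have hdir : (∀ i j, orderOf (coxElt cs i) = orderOf (coxElt cs j)) →
      (∀ L, IsOrdering L → ∀ i, listProd ρ L ^ orderOf (coxElt cs i) = 1) → AllAcoptic hP := by
    intro _ hord
    rw [allAcoptic_iff hP hreg hρ]
    intro L hL i n hn
    rcases Nat.eq_zero_or_pos n with h0 | h0
    · rw [h0, pow_zero]
    have h1 := pi_mem cs π hπ hn
    rw [map_pow, pi_listProd cs π hπ] at h1
    have h2 := retr_pow_eq_one cs _ hL.1 hL.2 i n h0 h1
    have h3 := (cxe_conj cs _ hL.1 hL.2 i n).mp h2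
    rw [cxe_eq] at h3
    obtain ⟨c, rfl⟩ := orderOf_dvd_of_pow_eq_one h3
    rw [pow_mul, hord L hL i, one_pow]
  refine ⟨hdir, fun hinj => ⟨?_, ?_⟩⟩
  · intro hA
    rw [allAcoptic_iff hP hreg hρ] at hA
    have key : ∀ i j n, coxElt cs i ^ n = 1 → coxElt cs j ^ n = 1 := by
      intro i j n hn
      rw [← cxe_eq] at hn ⊢
      have hL : IsOrdering (List.finRange m) :=
        ⟨List.nodup_finRange m, fun k => List.mem_finRange k⟩
      have h1 := mem_of_cxe cs (List.finRange m) hL.1 hL.2 i n hn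
      have h2 := pi_listProd cs π hπ (List.finRange m)
      rw [← h2, ← map_pow] at h1
      have h3 := hA _ hL i n (mem_of_pi_mem cs π hπ hinj h1)
      have h4 : cs.wordProd (List.finRange m) ^ n = 1 := by
        rw [← h2, ← map_pow, h3, map_one]
      exact cxe_of_pow cs (List.finRange m) hL.1 hL.2 n h4 j
    intro i j
    exact Nat.dvd_antisymm (orderOf_dvd_of_pow_eq_one (key j i _ (pow_orderOf_eq_one _)))
      (orderOf_dvd_of_pow_eq_one (key i j _ (pow_orderOf_eq_one _)))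
  · intro heq
    apply hdir heq
    intro L hL i
    apply hinj
    rw [map_one, map_pow, pi_listProd cs π hπ]
    apply pow_eq_one_of_cxe cs _ hL.1 hL.2
    intro j
    rw [cxe_eq, heq i j, pow_orderOf_eq_one]

end Petrie
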