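import Mathlib
import Pool.Agent.Lib.MP_8fe54c_gt.ArtGeo

/-!
# Reflections along an orbit of a permutation
-/

set_option autoImplicit false

namespace Petrie

open OS

universe u

section lin

variable {B : Type*} (M : CoxeterMatrix B)

/-- permute the coordinates by `π` and reflect in the coordinate `G₁` -/
noncomputable def stp (π : Equiv.Perm B) (G₁ : B) (ψ : B → ℝ) : B → ℝ :=
  AR1_s M G₁ (fun G => ψ (π.symm G))

theorem stp_self (π : Equiv.Perm B) (G₁ : B) (ψ : B → ℝ) :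
    stp M π G₁ ψ G₁ = - ψ (π.symm G₁) := by
  rw [stp, AR1_s_apply, AR1_b_self]; ring

theorem stp_ne (π : Equiv.Perm B) (G₁ G : B) (ψ : B → ℝ) :
    stp M π G₁ ψ G = ψ (π.symm G) + (-2 * AR1_b M G₁ G) * ψ (π.symm G₁) := by
  rw [stp, AR1_s_apply]; ring

variable {M}

/-- the invariant -/
def Inv (π : Equiv.Perm B) (G₁ : B) (ψ : B → ℝ) : Prop :=
  (∀ G, G ≠ G₁ → 0 ≤ ψ G) ∧ 0 ≤ - ψ G₁ ∧ - ψ G₁ ≤ ψ (π.symm G₁)

theorem inv_step (hM : ∀ G G', G ≠ G' → 1 ≤ -2 * AR1_b M G G') (π : Equiv.Perm B) (G₁ : B)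
    (h1 : π G₁ ≠ G₁) (h2 : π (π G₁) ≠ G₁) (ψ : B → ℝ) (hψ : Inv π G₁ ψ) :
    Inv π G₁ (stp M π G₁ ψ) ∧ - ψ G₁ ≤ - (stp M π G₁ ψ) G₁ := by
  obtain ⟨ha, hb, hc⟩ := hψ
  have e1 : π.symm G₁ ≠ G₁ := by
    intro h
    exact h1 ((Equiv.symm_apply_eq π).mp h).symm
  have e2 : π.symm (π.symm G₁) ≠ G₁ := by
    intro h
    apply h2
    have := congrArg (fun x => π (π x)) h
    simp at this
    exact this.symm
  refine ⟨⟨?_, ?_, ?_⟩, ?_⟩
  · intro G hG
    rw [stp_ne]
    have h3 := hM G₁ G (fun e => hG e.symm)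
    by_cases hG2 : π.symm G = G₁
    · rw [hG2]
      nlinarith
    · have := ha _ hG2
      nlinarith
  · rw [stp_self]
    linarith
  · rw [stp_self, stp_ne]
    have h3 := hM G₁ (π.symm G₁) (fun e => e1 e.symm)
    have h4 := ha _ e2
    nlinarith
  · rw [stp_self]
    linarith

theorem inv_start (hM : ∀ G G', G ≠ G' → 1 ≤ -2 * AR1_b M G G') (π : Equiv.Perm B) (G₁ : B)
    (h1 : π G₁ ≠ G₁) (φ : B → ℝ) (hφ : ∀ G, 0 ≤ φ G) : Inv π G₁ (stp M π G₁ φ) := by
  have e1 : π.symm G₁ ≠ G₁ := by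
    intro h
    exact h1 ((Equiv.symm_apply_eq π).mp h).symm
  refine ⟨?_, ?_, ?_⟩
  · intro G hG
    rw [stp_ne]
    have h3 := hM G₁ G (fun e => hG e.symm)
    have h4 := hφ (π.symm G)
    have h5 := hφ (π.symm G₁)
    nlinarith
  · rw [stp_self]
    have := hφ (π.symm G₁)
    linarith
  · rw [stp_self, stp_ne]
    have h3 := hM G₁ (π.symm G₁) (fun e => e1 e.symm)
    have h4 := hφ (π.symm (π.symm G₁))
    have h5 := hφ (π.symm G₁)
    nlinarith

/-- If a nonnegative function is fixed by a positive power, then it vanishes along the orbit. -/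
theorem lin_mono (hM : ∀ G G', G ≠ G' → 1 ≤ -2 * AR1_b M G G') (π : Equiv.Perm B) (G₁ : B)
    (h1 : π G₁ ≠ G₁) (h2 : π (π G₁) ≠ G₁) (φ : B → ℝ) (hφ : ∀ G, 0 ≤ φ G) (n : ℕ)
    (hfix : (stp M π G₁)^[n] φ = φ) : ∀ l, 1 ≤ l → l ≤ n → φ ((π.symm)^[l] G₁) = 0 := by
  have hinv : ∀ j, Inv π G₁ ((stp M π G₁)^[j + 1] φ) := by
    intro j
    induction j with
    | zero => exact inv_start hM π G₁ h1 φ hφ
    | succ j ih =>
      rw [Function.iterate_succ_apply']
      exact (inv_step hM π G₁ h1 h2 _ ih).1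
  have hmono : ∀ j, - ((stp M π G₁)^[j + 1] φ) G₁ ≤ - ((stp M π G₁)^[j + 2] φ) G₁ := by
    intro j
    rw [Function.iterate_succ_apply' (stp M π G₁) (j + 1)]
    exact (inv_step hM π G₁ h1 h2 _ (hinv j)).2
  have hmono2 : ∀ a b, 1 ≤ a → a ≤ b → - ((stp M π G₁)^[a] φ) G₁ ≤ - ((stp M π G₁)^[b] φ) G₁ := by
    intro a b ha hab
    induction b, hab using Nat.le_induction with
    | base => exact le_rfl
    | succ b hb ih =>
      refine ih.trans ?_
      obtain ⟨c, rfl⟩ : ∃ c, b = c + 1 := ⟨b - 1, by omega⟩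
      exact hmono c
  have hzero : ∀ a, 1 ≤ a → a ≤ n → ((stp M π G₁)^[a] φ) G₁ = 0 := by
    intro a ha han
    have h3 := hmono2 a n ha han
    rw [hfix] at h3
    have h4 := hφ G₁
    obtain ⟨c, rfl⟩ : ∃ c, a = c + 1 := ⟨a - 1, by omega⟩
    have h5 := (hinv c).2.1
    linarith
  have hform : ∀ j, j ≤ n → (stp M π G₁)^[j] φ = fun G => φ ((π.symm)^[j] G) := by
    intro j
    induction j with
    | zero => intro _; rfl
    | succ j ih =>
      intro hj
      have h3 := hzero (j + 1) (by omega) hj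
      rw [Function.iterate_succ_apply', stp_self] at h3
      rw [Function.iterate_succ_apply']
      funext G
      rw [stp_ne, ih (by omega)]
      rw [ih (by omega)] at h3
      simp only at h3 ⊢
      have h4 : φ ((π.symm)^[j] (π.symm G₁)) = 0 := by linarith
      rw [h4, mul_zero, add_zero, Function.iterate_succ_apply]
  intro l hl hln
  obtain ⟨c, rfl⟩ : ∃ c, l = c + 1 := ⟨l - 1, by omega⟩
  have h3 := hzero (c + 1) hl hln
  rw [hform (c + 1) hln] at h3
  exact h3

end lin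

section core

variable {Γ : Type u} [Group Γ] {GK : Subgroup Γ} {B : Type u} [MulAction GK B]

open Classical in
/-- The Coxeter matrix on `B`: `q` on the orbit of the pair `(G₀, r G₀)`, no relation for the
other pairs. -/
noncomputable def orbMat (G₀ : B) (r : GK) (hr : r * r = 1) (q : ℕ) (hq : q ≠ 1) : CoxeterMatrix B where
  M := Matrix.of fun G G' =>
    if G = G' then 1 else if ∃ x : GK, x • G₀ = G ∧ x • (r • G₀) = G' then q else 0
  isSymm := by
    ext G G'
    simp only [Matrix.transpose_apply, Matrix.of_apply]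
    by_cases h : G = G'
    · subst h; rfl
    · have h' : ¬ G' = G := fun e => h e.symm
      rw [if_neg h, if_neg h']
      have key : ∀ G G' : B, (∃ x : GK, x • G₀ = G ∧ x • (r • G₀) = G') →
          ∃ x : GK, x • G₀ = G' ∧ x • (r • G₀) = G := by
        rintro _ _ ⟨x, rfl, rfl⟩
        refine ⟨x * r, ?_, ?_⟩
        · rw [mul_smul]
        · rw [mul_smul, ← mul_smul r r, hr, one_smul]
      by_cases h1 : ∃ x : GK, x • G₀ = G ∧ x • (r • G₀) = G'
      · rw [if_pos h1, if_pos (key _ _ h1)]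
      · rw [if_neg h1, if_neg (fun h2 => h1 (key _ _ h2))]
  diagonal G := by simp
  off_diagonal G G' h := by
    simp only [Matrix.of_apply]
    rw [if_neg h]
    split
    · exact hq
    · norm_num

variable (G₀ : B) (r : GK) (hr : r * r = 1) (q : ℕ) (hq : q ≠ 1)

open Classical in
theorem orbMat_apply (G G' : B) : orbMat G₀ r hr q hq G G' =
    if G = G' then 1 else if ∃ x : GK, x • G₀ = G ∧ x • (r • G₀) = G' then q else 0 := rfl

theorem orbMat_smul (y : GK) (G G' : B) : orbMat G₀ r hr q hq (y • G) (y • G') =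
    orbMat G₀ r hr q hq G G' := by
  classical
  rw [orbMat_apply, orbMat_apply]
  have e1 : (y • G = y • G') ↔ G = G' := smul_left_cancel_iff y
  have e2 : (∃ x : GK, x • G₀ = y • G ∧ x • (r • G₀) = y • G') ↔
      ∃ x : GK, x • G₀ = G ∧ x • (r • G₀) = G' := by
    constructor
    · rintro ⟨x, h1, h2⟩
      refine ⟨y⁻¹ * x, ?_, ?_⟩
      · rw [mul_smul, h1, inv_smul_smul]
      · rw [mul_smul, h2, inv_smul_smul]
    · rintro ⟨x, h1, h2⟩
      refine ⟨y * x, ?_, ?_⟩
      · rw [mul_smul, h1]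
      · rw [mul_smul, h2]
  simp only [e1, e2]

theorem orbMat_ge (hq3 : q = 0 ∨ 3 ≤ q) (G G' : B) (h : G ≠ G') :
    1 ≤ -2 * AR1_b (orbMat G₀ r hr q hq) G G' := by
  classical
  rw [AR1_b, orbMat_apply, if_neg h]
  have key : ∀ n : ℕ, n = 0 ∨ 3 ≤ n → 1 ≤ -2 * -Real.cos (Real.pi / n) := by
    intro n hn
    rcases hn with rfl | hn
    · simp
    · have h3r : (3 : ℝ) ≤ n := by exact_mod_cast hn
      have h1 : Real.pi / n ≤ Real.pi / 3 :=
        div_le_div_of_nonneg_left Real.pi_pos.le (by norm_num) h3r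
      have h2 : Real.cos (Real.pi / 3) ≤ Real.cos (Real.pi / n) := by
        apply Real.cos_le_cos_of_nonneg_of_le_pi
        · positivity
        · have := Real.pi_pos
          linarith
        · exact h1
      rw [Real.cos_pi_div_three] at h2
      linarith
  split
  · exact key q hq3
  · exact_mod_cast key 0 (Or.inl rfl)

theorem AR1_b_smul (y : GK) (G G' : B) :
    AR1_b (orbMat G₀ r hr q hq) (y • G) (y • G') =
      AR1_b (orbMat G₀ r hr q hq) G G' := by
  rw [AR1_b, AR1_b, orbMat_smul]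

/-- the permutation action on functions -/
def fnAct (GK : Subgroup Γ) (B : Type u) [MulAction GK B] : GK →* Module.End ℝ (B → ℝ) where
  toFun x :=
    { toFun := fun ψ G => ψ (x⁻¹ • G)
      map_add' := fun _ _ => rfl
      map_smul' := fun _ _ => rfl }
  map_one' := by
    ext ψ G
    simp
  map_mul' x y := by
    ext ψ G
    simp [mul_smul]

theorem fnAct_apply (x : GK) (ψ : B → ℝ) (G : B) : fnAct GK B x ψ G = ψ (x⁻¹ • G) := rfl

theorem fnAct_conj (x : GK) (G : B) :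
    fnAct GK B x * AR1_s (orbMat G₀ r hr q hq) G * fnAct GK B x⁻¹ =
      AR1_s (orbMat G₀ r hr q hq) (x • G) := by
  ext ψ G'
  rw [Module.End.mul_apply, Module.End.mul_apply, fnAct_apply, AR1_s_apply, AR1_s_apply,
    fnAct_apply, fnAct_apply, inv_inv, smul_inv_smul]
  rw [← AR1_b_smul G₀ r hr q hq x G (x⁻¹ • G'), smul_inv_smul]

/-- the involution as a unit -/
noncomputable def refU (M : CoxeterMatrix B) (G : B) : (Module.End ℝ (B → ℝ))ˣ where
  val := AR1_s M G
  inv := AR1_s M G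
  val_inv := AR1_s_sq M G
  inv_val := AR1_s_sq M G

theorem core_hom (hrG : r • G₀ ≠ G₀) (t : Γ) (S : Set GK) (hS : ∀ x ∈ S, x • G₀ = G₀)
    (hU : ∀ (H : Type u) [Group H] (f : GK →* H) (t' : H), t' * t' = 1 →
      (∀ x ∈ S, Commute (f x) t') → (f r * t') ^ (2 * q) = 1 →
      ∃ g : Γ →* H, (∀ x : GK, g x = f x) ∧ g t = t') :
    ∃ g : Γ →* (Module.End ℝ (B → ℝ))ˣ, (∀ x : GK, (g x).val = fnAct GK B x) ∧
      (g t).val = AR1_s (orbMat G₀ r hr q hq) G₀ := by
  classical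
  set M := orbMat G₀ r hr q hq with hM
  obtain ⟨g, hg1, hg2⟩ := hU (Module.End ℝ (B → ℝ))ˣ (fnAct GK B).toHomUnits (refU M G₀)
    (Units.ext (AR1_s_sq M G₀)) (by
      intro x hx
      apply Units.ext
      have h1 := fnAct_conj G₀ r hr q hq x G₀
      rw [hS x hx] at h1
      change fnAct GK B x * AR1_s M G₀ = AR1_s M G₀ * fnAct GK B x
      conv_rhs => rw [hM, ← h1]
      rw [mul_assoc, mul_assoc, ← map_mul, inv_mul_cancel, map_one, mul_one]) (by
      apply Units.ext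
      change (fnAct GK B r * AR1_s M G₀) ^ (2 * q) = 1
      have h1 := fnAct_conj G₀ r hr q hq r G₀
      have h2 : r⁻¹ = r := inv_eq_of_mul_eq_one_left hr
      rw [h2] at h1
      rw [pow_mul, pow_two]
      have h3 : fnAct GK B r * AR1_s M G₀ * (fnAct GK B r * AR1_s M G₀) =
          AR1_s M (r • G₀) * AR1_s M G₀ := by
        rw [← mul_assoc, hM, h1]
      rw [h3]
      have h4 : M (r • G₀) G₀ = q := by
        rw [hM, orbMat_apply, if_neg hrG, if_pos ⟨r, rfl, by rw [← mul_smul, hr, one_smul]⟩]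
      have h5 := AR1_liftable M (r • G₀) G₀
      rw [h4] at h5
      exact h5)
  exact ⟨g, fun x => by rw [hg1 x]; rfl, by rw [hg2]; rfl⟩

/-- The key consequence. -/
theorem core_main (hq3 : q = 0 ∨ 3 ≤ q) (t : Γ) (g : Γ →* (Module.End ℝ (B → ℝ))ˣ)
    (hg1 : ∀ x : GK, (g x).val = fnAct GK B x)
    (hg2 : (g t).val = AR1_s (orbMat G₀ r hr q hq) G₀) (u v : GK)
    (h1 : (u * v) • (u • G₀) ≠ u • G₀) (h2 : (u * v) • ((u * v) • (u • G₀)) ≠ u • G₀)
    (φ : B → ℝ) (hφ : ∀ G, 0 ≤ φ G) (n : ℕ)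
    (hfix : (g (((u : Γ) * t * v) ^ n)).val φ = φ) :
    ∀ l, 1 ≤ l → l ≤ n → φ (((u * v)⁻¹) ^ l • (u • G₀)) = 0 := by
  set M := orbMat G₀ r hr q hq with hM
  set π : Equiv.Perm B := MulAction.toPerm (u * v) with hπ
  have hstep : ∀ ψ, (g ((u : Γ) * t * v)).val ψ = stp M π (u • G₀) ψ := by
    intro ψ
    have h3 := fnAct_conj G₀ r hr q hq u G₀
    rw [map_mul, map_mul, Units.val_mul, Units.val_mul, hg1, hg1, hg2]
    unfold stp
    rw [← hM] at h3
    rw [← h3]
    simp only [Module.End.mul_apply]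
    congr 2
    funext G
    rw [fnAct_apply, fnAct_apply]
    simp only [hπ, MulAction.toPerm_symm_apply, mul_inv_rev, inv_inv, mul_smul, inv_smul_smul]
  have hiter : ∀ k ψ, (g (((u : Γ) * t * v) ^ k)).val ψ = (stp M π (u • G₀))^[k] ψ := by
    intro k
    induction k with
    | zero => intro ψ; simp
    | succ k ih =>
      intro ψ
      rw [pow_succ', map_mul, Units.val_mul, Module.End.mul_apply, hstep, ih,
        Function.iterate_succ_apply']
  rw [hiter] at hfix
  have h3 := lin_mono (orbMat_ge G₀ r hr q hq hq3) π (u • G₀) h1 h2 φ hφ n hfix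
  intro l hl hln
  have h4 := h3 l hl hln
  have h5 : ∀ k, (π.symm)^[k] (u • G₀) = ((u * v)⁻¹) ^ k • (u • G₀) := by
    intro k
    induction k with
    | zero => simp
    | succ k ih => rw [Function.iterate_succ_apply', ih, hπ, MulAction.toPerm_symm_apply,
        ← mul_smul, ← pow_succ']
  rw [← h5]
  exact h4

end core

end Petrie
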