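import Mathlib
import Pool.Agent.Lib.MP_6ac48b_co.Poly

/-!
# Abstract regular polytopes: commutation of the distinguished generators, sections
-/

set_option autoImplicit false

namespace Petrie

variable {m : ℕ} {F : Type*} [PartialOrder F] {rk : F → Fin m}

theorem adj_comm (h : IsPolytope rk) (i j : Fin m) (hij : (i : ℕ) + 2 ≤ j) (Ψ : Flg rk) :
    adj h i (adj h j Ψ) = adj h j (adj h i Ψ) := by
  have hi := adj_spec h i Ψ
  have hj := adj_spec h j Ψ
  have hne : i ≠ j := by rintro rfl; omega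
  let Om : Fin m → F := fun k =>
    if k = i then (adj h i Ψ).1 i else if k = j then (adj h j Ψ).1 j else Ψ.1 k
  have e1 : ∀ k, k ≠ i → Om k = (adj h j Ψ).1 k := by
    intro k hk
    simp only [Om, if_neg hk]
    by_cases hkj : k = j
    · rw [if_pos hkj, hkj]
    · rw [if_neg hkj, hj.2 k hkj]
  have e2 : ∀ k, k ≠ j → Om k = (adj h i Ψ).1 k := by
    intro k hk
    simp only [Om]
    by_cases hki : k = i
    · rw [if_pos hki, hki]
    · rw [if_neg hki, if_neg hk, hi.2 k hki]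
  have hrk : ∀ k, rk (Om k) = k := by
    intro k
    by_cases hk : k = i
    · rw [e2 k (by rw [hk]; exact hne), (adj h i Ψ).2.1]
    · rw [e1 k hk, (adj h j Ψ).2.1]
  have hmono : StrictMono Om := by
    intro k l hkl
    by_cases h1 : k = i
    · by_cases h2 : l = j
      · have hlt : (i : ℕ) + 1 < m := by
          have := j.2
          omega
        have a1 : (adj h i Ψ).1 i < (adj h i Ψ).1 ⟨i + 1, hlt⟩ :=
          (adj h i Ψ).2.2 (Fin.mk_lt_mk.mpr (by omega))
        have a2 : (adj h j Ψ).1 ⟨i + 1, hlt⟩ < (adj h j Ψ).1 j :=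
          (adj h j Ψ).2.2 (by rw [Fin.lt_def]; simp only; omega)
        have n1 : (⟨i + 1, hlt⟩ : Fin m) ≠ i := by
          intro e
          have := congrArg Fin.val e
          simp at this
        have n2 : (⟨i + 1, hlt⟩ : Fin m) ≠ j := by
          intro e
          have := congrArg Fin.val e
          simp at this
          omega
        rw [hi.2 _ n1] at a1
        rw [hj.2 _ n2] at a2
        rw [h1, h2, e2 i hne, e1 j hne.symm]
        exact a1.trans a2
      · rw [e2 k (by rw [h1]; exact hne), e2 l h2]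
        exact (adj h i Ψ).2.2 hkl
    · by_cases h2 : l = i
      · have h3 : k ≠ j := by
          rintro rfl
          rw [h2, Fin.lt_def] at hkl
          omega
        rw [e2 k h3, e2 l (by rw [h2]; exact hne)]
        exact (adj h i Ψ).2.2 hkl
      · rw [e1 k h1, e1 l h2]
        exact (adj h j Ψ).2.2 hkl
  let Ω : Flg rk := ⟨Om, hrk, hmono⟩
  have o1 : Ω = adj h i (adj h j Ψ) := by
    apply adj_unique
    refine ⟨?_, fun k hk => e1 k hk⟩
    have : Ω.1 i = (adj h i Ψ).1 i := e2 i hne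
    rw [this, hj.2 i hne]
    exact hi.1
  have o2 : Ω = adj h j (adj h i Ψ) := by
    apply adj_unique
    refine ⟨?_, fun k hk => e2 k hk⟩
    have : Ω.1 j = (adj h j Ψ).1 j := e1 j hne.symm
    rw [this, hi.2 j hne.symm]
    exact hj.1
  rw [← o1, ← o2]

theorem adj_adj (h : IsPolytope rk) (i : Fin m) (Ψ : Flg rk) : adj h i (adj h i Ψ) = Ψ := by
  symm
  apply adj_unique
  have := adj_spec h i Ψ
  exact ⟨this.1.symm, fun j hj => (this.2 j hj).symm⟩

variable {Φ : Flg rk} {ρ : Fin m → F ≃o F}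

theorem gens_commute (h : IsPolytope rk) (hρ : IsGens Φ ρ) (i j : Fin m)
    (hij : (i : ℕ) + 2 ≤ j) : Commute (ρ i) (ρ j) := by
  apply act_inj h _ _ Φ
  rw [act_mul, gens_adj h hρ, act_adj, gens_adj h hρ, act_mul, gens_adj h hρ, act_adj,
    gens_adj h hρ, adj_comm h i j hij]

theorem gens_sq (h : IsPolytope rk) (hρ : IsGens Φ ρ) (i : Fin m) : ρ i * ρ i = 1 := by
  apply act_inj h _ _ Φ
  rw [act_mul, gens_adj h hρ, act_adj, gens_adj h hρ, adj_adj]
  rfl

/-- an automorphism is generated by the generators of the ranks in which it changes `Φ` -/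
theorem mem_closure_of_ne (h : IsPolytope rk) (hρ : IsGens Φ ρ) (g : F ≃o F) :
    g ∈ Subgroup.closure (ρ '' {j | g (Φ.1 j) ≠ Φ.1 j}) := by
  have key : ∀ B : Flg rk, Relation.ReflTransGen
      (fun A B : Flg rk => (∃ j, Adjacent j A B) ∧ ∀ j, Φ.1 j = (act h g Φ).1 j → B.1 j = Φ.1 j)
      Φ B → (∀ i, g (Φ.1 i) = Φ.1 i → B.1 i = Φ.1 i) ∧
        ∃ x ∈ Subgroup.closure (ρ '' {j | g (Φ.1 j) ≠ Φ.1 j}), B = act h x Φ := by
    intro B hB
    induction hB with
    | refl => exact ⟨fun _ _ => rfl, 1, Subgroup.one_mem _, rfl⟩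
    | tail _ hstep ih =>
      rename_i b c _
      obtain ⟨hbi, x, hx, hbx⟩ := ih
      obtain ⟨⟨j, hj⟩, hc⟩ := hstep
      have hci : ∀ i, g (Φ.1 i) = Φ.1 i → c.1 i = Φ.1 i := fun i hi => hc i hi.symm
      refine ⟨hci, x * ρ j, ?_, ?_⟩
      · refine Subgroup.mul_mem _ hx (Subgroup.subset_closure ⟨j, ?_, rfl⟩)
        intro hgj
        exact hj.1 ((hci j hgj).trans (hbi j hgj).symm)
      · rw [adj_unique h hj, hbx, act_gens h hρ]
  obtain ⟨-, x, hx, hgx⟩ := key _ (h.conn Φ (act h g Φ))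
  rw [← act_inj h g x Φ hgx] at hx
  exact hx

/-- flags through given faces: a face comparable with the faces of `Φ` of the ranks in `S` is
moved to the base flag by an automorphism fixing these faces -/
theorem exists_aut (h : IsPolytope rk) (hreg : IsRegular rk) (hρ : IsGens Φ ρ) (S : Set (Fin m))
    (i : Fin m) (f : F) (hf : rk f = i) (hS : ∀ j ∈ S, f ≤ Φ.1 j ∨ Φ.1 j ≤ f) :
    ∃ g ∈ Subgroup.closure (ρ '' {j | j ∉ S}), g (Φ.1 i) = f := by
  obtain ⟨Ψ, hΨ⟩ := h.chain (insert f (Φ.1 '' S)) (by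
    have hC : IsChain (· ≤ ·) (Φ.1 '' S) := by
      rintro _ ⟨a, _, rfl⟩ _ ⟨b, _, rfl⟩ _
      rcases le_total a b with hab | hab
      · exact Or.inl (Φ.2.2.monotone hab)
      · exact Or.inr (Φ.2.2.monotone hab)
    apply hC.insert
    rintro _ ⟨a, ha, rfl⟩ _
    exact hS a ha)
  have hr : ∀ x, x ∈ Set.range Ψ.1 → Ψ.1 (rk x) = x := by
    rintro _ ⟨k, rfl⟩
    rw [Ψ.2.1]
  obtain ⟨g, hg⟩ := hreg Φ Ψ
  refine ⟨g, ?_, ?_⟩
  · have h1 := mem_closure_of_ne h hρ g
    refine (Subgroup.closure_mono (Set.image_mono ?_)) h1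
    intro j hj hjS
    apply hj
    rw [hg j]
    have := hr (Φ.1 j) (hΨ (Or.inr ⟨j, hjS, rfl⟩))
    rw [Φ.2.1] at this
    exact this
  · rw [hg i]
    have := hr f (hΨ (Or.inl rfl))
    rw [hf] at this
    exact this

end Petrie
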