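import Mathlib
import Pool.Agent.Lib.MP_6ac48b_co.Poly2
import Pool.Agent.Lib.MP_6ac48b_co.Lin

/-!
# Petrie schemes of the universal extensions with an even last entry
-/

set_option autoImplicit false

namespace Petrie

open OS

universe u

section words

variable {m : ℕ} {F : Type u} [PartialOrder F] {rk : F → Fin m} {Φ : Flg rk}
  {ρ : Fin m → F ≃o F}

theorem listProd_append (L L' : List (Fin m)) :
    listProd ρ (L ++ L') = listProd ρ L * listProd ρ L' := by
  simp [listProd]

theorem listProd_cons (i : Fin m) (L : List (Fin m)) :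
    listProd ρ (i :: L) = ρ i * listProd ρ L := by
  simp [listProd]

theorem listProd_mem (S : Set (Fin m)) (L : List (Fin m)) (h : ∀ j ∈ L, j ∈ S) :
    listProd ρ L ∈ Subgroup.closure (ρ '' S) := by
  induction L with
  | nil => exact Subgroup.one_mem _
  | cons i L ih =>
    rw [listProd_cons]
    exact Subgroup.mul_mem _ (Subgroup.subset_closure ⟨i, h i (by simp), rfl⟩)
      (ih (fun j hj => h j (by simp [hj])))

theorem listProd_fix (hρ : IsGens Φ ρ) (i : Fin m) (L : List (Fin m)) (h : ∀ j ∈ L, j ≠ i) :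
    listProd ρ L (Φ.1 i) = Φ.1 i :=
  fix_of_mem_closure hρ _ i (listProd_mem {j | j ≠ i} L h)

end words

variable {N : ℕ} {F : Type u} [PartialOrder F] {rk : F → Fin (N + 3)} {Φ : Flg rk}
  {ρ : Fin (N + 3) → F ≃o F}

/-- the index of the facets of the facet -/
def rI (N : ℕ) : Fin (N + 3) := ⟨N + 1, by omega⟩

/-- the index below -/
def sI (N : ℕ) : Fin (N + 3) := ⟨N, by omega⟩

theorem rI_ne_last : rI N ≠ Fin.last (N + 2) := by
  intro h
  have := congrArg Fin.val h
  simp [rI] at this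

theorem sI_ne_rI : sI N ≠ rI N := by
  intro h
  have := congrArg Fin.val h
  simp [rI, sI] at this

theorem sI_ne_last : sI N ≠ Fin.last (N + 2) := by
  intro h
  have := congrArg Fin.val h
  simp [sI] at this

/-- the group of the facet -/
def GK (ρ : Fin (N + 3) → F ≃o F) : Subgroup (F ≃o F) :=
  Subgroup.closure (ρ '' {j | j ≠ Fin.last (N + 2)})

/-- the (orbit of the) facets of the facet -/
def Fac (Φ : Flg rk) (ρ : Fin (N + 3) → F ≃o F) : Type u :=
  {G : F // ∃ x ∈ GK ρ, x (Φ.1 (rI N)) = G}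

instance : MulAction (GK ρ) (Fac Φ ρ) where
  smul x G := ⟨x.1 G.1, by
    obtain ⟨y, hy, hG⟩ := G.2
    exact ⟨x.1 * y, (GK ρ).mul_mem x.2 hy, by rw [RelIso.mul_apply, hG]⟩⟩
  one_smul G := Subtype.ext rfl
  mul_smul x y G := Subtype.ext rfl

theorem smul_val (x : GK ρ) (G : Fac Φ ρ) : (x • G).1 = x.1 G.1 := rfl

/-- the base facet -/
def fac0 (Φ : Flg rk) (ρ : Fin (N + 3) → F ≃o F) : Fac Φ ρ := ⟨Φ.1 (rI N), 1, (GK ρ).one_mem, rfl⟩

theorem fac0_val : (fac0 Φ ρ).1 = Φ.1 (rI N) := rfl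

theorem gen_mem (j : Fin (N + 3)) (hj : j ≠ Fin.last (N + 2)) : ρ j ∈ GK ρ :=
  Subgroup.subset_closure ⟨j, hj, rfl⟩

/-- if `ρ_s` fixes `ρ_r F_r`, then `ρ_s` and `ρ_r` commute -/
theorem comm_of_fix (h : IsPolytope rk) (hρ : IsGens Φ ρ)
    (hfix : ρ (sI N) (ρ (rI N) (Φ.1 (rI N))) = ρ (rI N) (Φ.1 (rI N))) :
    ρ (sI N) * ρ (rI N) = ρ (rI N) * ρ (sI N) := by
  apply act_inj h _ _ Φ
  rw [act_mul, gens_adj h hρ, act_mul, gens_adj h hρ, act_adj h (ρ (rI N)) (sI N) Φ,
    gens_adj h hρ]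
  apply adj_unique
  have hr := adj_spec h (rI N) Φ
  refine ⟨?_, ?_⟩
  · rw [act_apply, hr.2 _ sI_ne_rI]
    exact (hρ (sI N)).1
  · intro j hj
    rw [act_apply]
    by_cases hjr : j = rI N
    · subst hjr
      rw [← gens_adj h hρ, act_apply, hfix]
    · rw [hr.2 j hjr]
      exact (hρ (sI N)).2 j hj

/-- orderings of all indices but the last -/
def IsOrd' (L : List (Fin (N + 3))) : Prop := L.Nodup ∧ ∀ j, j ∈ L ↔ j ≠ Fin.last (N + 2)

theorem c_ne (h : IsPolytope rk) (hρ : IsGens Φ ρ)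
    (h3 : ρ (sI N) * ρ (rI N) ≠ ρ (rI N) * ρ (sI N)) (L : List (Fin (N + 3))) (hL : IsOrd' L) :
    listProd ρ L (Φ.1 (rI N)) ≠ Φ.1 (rI N) ∧
      listProd ρ L (listProd ρ L (Φ.1 (rI N))) ≠ Φ.1 (rI N) := by
  have hmem : rI N ∈ L := (hL.2 _).mpr rI_ne_last
  obtain ⟨L1, L2, rfl⟩ := List.append_of_mem hmem
  have hnd := hL.1
  rw [List.nodup_append, List.nodup_cons] at hnd
  obtain ⟨hn1, ⟨hn2, hn2'⟩, hdis⟩ := hnd
  have h1 : ∀ j ∈ L1, j ≠ rI N := fun j hj e => hdis j hj (rI N) (by simp) e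
  have h2 : ∀ j ∈ L2, j ≠ rI N := by
    rintro j hj rfl
    exact hn2 hj
  have f1 := listProd_fix hρ (rI N) L1 h1
  have f2 := listProd_fix hρ (rI N) L2 h2
  set a := listProd ρ L1 with ha
  set b := listProd ρ L2 with hb
  have hc : listProd ρ (L1 ++ rI N :: L2) = a * ρ (rI N) * b := by
    rw [listProd_append, listProd_cons, mul_assoc]
  have hcG : ∀ x, listProd ρ (L1 ++ rI N :: L2) x = a (ρ (rI N) (b x)) := by
    intro x
    rw [hc]
    rfl
  constructor
  · intro he
    rw [hcG, f2, ← f1] at he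
    have := a.injective he
    rw [f1] at this
    exact (hρ (rI N)).1 this
  · intro he
    rw [hcG, hcG, f2, ← f1] at he
    have he2 := a.injective he
    rw [f1] at he2
    -- rotate
    have hs : sI N ∈ L2 ++ L1 := by
      have := (hL.2 (sI N)).mpr sI_ne_last
      simp only [List.mem_append, List.mem_cons] at this ⊢
      rcases this with h4 | h4 | h4
      · exact Or.inr h4
      · exact absurd h4 sI_ne_rI
      · exact Or.inl h4
    obtain ⟨M1, M2, hM⟩ := List.append_of_mem hs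
    have hnM : (M1 ++ sI N :: M2).Nodup := by
      rw [← hM, List.nodup_append]
      exact ⟨hn2', hn1, fun x hx y hy e => hdis y hy x (by simp [hx]) e.symm⟩
    have hsmall : ∀ j ∈ M1 ++ M2, (j : ℕ) + 2 ≤ N + 1 := by
      intro j hj
      have hj1 : j ∈ L2 ++ L1 := by
        rw [hM]
        simp only [List.mem_append, List.mem_cons] at hj ⊢
        tauto
      have hj2 : j ≠ rI N := by
        rw [List.mem_append] at hj1
        rcases hj1 with h4 | h4
        · exact h2 j h4
        · exact h1 j h4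
      have hj3 : j ≠ Fin.last (N + 2) := by
        apply (hL.2 j).mp
        simp only [List.mem_append, List.mem_cons] at hj1 ⊢
        tauto
      have hj4 : j ≠ sI N := by
        rintro rfl
        rw [List.nodup_append, List.nodup_cons] at hnM
        rw [List.mem_append] at hj
        rcases hj with h4 | h4
        · exact hnM.2.2 _ h4 _ (by simp) rfl
        · exact hnM.2.1.1 h4
      have e1 : (j : ℕ) ≠ N + 1 := fun e => hj2 (Fin.ext e)
      have e2 : (j : ℕ) ≠ N + 2 := fun e => hj3 (Fin.ext e)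
      have e3 : (j : ℕ) ≠ N := fun e => hj4 (Fin.ext e)
      have := j.2
      omega
    have hcomm : ∀ K : List (Fin (N + 3)), (∀ j ∈ K, (j : ℕ) + 2 ≤ N + 1) →
        listProd ρ K * ρ (rI N) = ρ (rI N) * listProd ρ K := by
      intro K hK
      induction K with
      | nil => simp [listProd]
      | cons j K ih =>
        have h5 := gens_commute h hρ j (rI N) (hK j (by simp))
        rw [listProd_cons, mul_assoc, ih (fun k hk => hK k (by simp [hk])), ← mul_assoc, h5.eq,
          mul_assoc]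
    have hba : ∀ x, b (a x) = listProd ρ M1 (ρ (sI N) (listProd ρ M2 x)) := by
      intro x
      have : b * a = listProd ρ M1 * (ρ (sI N) * listProd ρ M2) := by
        rw [hb, ha, ← listProd_append, hM, listProd_append, listProd_cons]
      rw [← RelIso.mul_apply, this]
      rfl
    rw [hba] at he2
    have hM1 : ∀ j ∈ M1, (j : ℕ) + 2 ≤ N + 1 := fun j hj => hsmall j (by simp [hj])
    have hM2 : ∀ j ∈ M2, (j : ℕ) + 2 ≤ N + 1 := fun j hj => hsmall j (by simp [hj])
    have hfixsmall : ∀ K : List (Fin (N + 3)), (∀ j ∈ K, (j : ℕ) + 2 ≤ N + 1) →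
        listProd ρ K (Φ.1 (rI N)) = Φ.1 (rI N) := by
      intro K hK
      apply listProd_fix hρ
      rintro j hj rfl
      have := hK _ hj
      simp [rI] at this
    have e1 : listProd ρ M2 (ρ (rI N) (Φ.1 (rI N))) = ρ (rI N) (Φ.1 (rI N)) := by
      rw [← RelIso.mul_apply, hcomm M2 hM2, RelIso.mul_apply, hfixsmall M2 hM2]
    rw [e1] at he2
    -- `ρ_r m1 ρ_s ρ_r G = G`
    have h7 : ρ (rI N) (listProd ρ M1 (ρ (sI N) (ρ (rI N) (Φ.1 (rI N))))) =
        listProd ρ M1 (ρ (rI N) (ρ (sI N) (ρ (rI N) (Φ.1 (rI N))))) := by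
      rw [← RelIso.mul_apply (ρ (rI N)) (listProd ρ M1), ← hcomm M1 hM1]
      rfl
    rw [h7] at he2
    have he3 : ρ (rI N) (ρ (sI N) (ρ (rI N) (Φ.1 (rI N)))) = Φ.1 (rI N) :=
      (listProd ρ M1).injective (he2.trans (hfixsmall M1 hM1).symm)
    apply h3
    apply comm_of_fix h hρ
    have h6 := congrArg (ρ (rI N)) he3
    rw [← RelIso.mul_apply (ρ (rI N)) (ρ (rI N)), gens_sq h hρ] at h6
    exact h6

/-- the last generator fixes all faces below `F_r` -/
theorem last_fix (h : IsPolytope rk) (hreg : IsRegular rk) (hρ : IsGens Φ ρ) (f : F)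
    (hf : f ≤ Φ.1 (rI N)) : ρ (Fin.last (N + 2)) f = f := by
  have hle : Φ.1 (rI N) ≤ Φ.1 (Fin.last (N + 2)) := Φ.2.2.monotone (Fin.le_last _)
  obtain ⟨g, hg, hgf⟩ := exists_aut h hreg hρ {rI N, Fin.last (N + 2)} (rk f) f rfl (by
    intro j hj
    left
    rcases hj with rfl | rfl
    · exact hf
    · exact hf.trans hle)
  have hcomm : Commute (ρ (Fin.last (N + 2))) g := by
    clear hgf
    induction hg using Subgroup.closure_induction with
    | mem x hx =>
      obtain ⟨j, hj, rfl⟩ := hx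
      apply (gens_commute h hρ j (Fin.last (N + 2)) ?_).symm
      have e1 : (j : ℕ) ≠ N + 1 := fun e => hj (Or.inl (Fin.ext e))
      have e2 : (j : ℕ) ≠ N + 2 := fun e => hj (Or.inr (Fin.ext e))
      have := j.2
      simp only [Fin.val_last]
      omega
    | one => exact Commute.one_right _
    | mul x y _ _ hx hy => exact hx.mul_right hy
    | inv x _ hx => exact hx.inv_right
  have hne : rk f ≠ Fin.last (N + 2) := by
    intro e
    have h1 : rk f ≤ rI N := by
      rcases hf.eq_or_lt with h2 | h2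
      · rw [h2, Φ.2.1]
      · have := h.lt_rank _ _ h2
        rw [Φ.2.1] at this
        exact this.le
    rw [e, Fin.le_def] at h1
    simp [rI] at h1
  conv_lhs => rw [← hgf]
  rw [← RelIso.mul_apply, hcomm.eq, RelIso.mul_apply,
    (hρ (Fin.last (N + 2))).2 _ hne, hgf]

end Petrie
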