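import Mathlib
import Pool.Agent.Lib.MP_6ac48b_co.Ext

/-!
# Petrie schemes of the universal extensions with an even last entry: the criterion
-/

set_option autoImplicit false

namespace Petrie

open OS

universe u

variable {N : ℕ} {F : Type u} [PartialOrder F] {rk : F → Fin (N + 3)} {Φ : Flg rk}
  {ρ : Fin (N + 3) → F ≃o F}

/-- the generator `ρ_{N+1}` of the facet group -/
def rG (ρ : Fin (N + 3) → F ≃o F) : GK ρ := ⟨ρ (rI N), gen_mem (rI N) rI_ne_last⟩

theorem rG_sq (h : IsPolytope rk) (hρ : IsGens Φ ρ) : rG ρ * rG ρ = 1 :=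
  Subtype.ext (gens_sq h hρ (rI N))

theorem rG_ne (hρ : IsGens Φ ρ) : rG ρ • fac0 Φ ρ ≠ fac0 Φ ρ := by
  intro he
  have := congrArg Subtype.val he
  rw [smul_val, fac0_val] at this
  exact (hρ (rI N)).1 this

/-- the generators which commute with the last one -/
def SS (ρ : Fin (N + 3) → F ≃o F) : Set (GK ρ) :=
  {x | ∃ j : Fin (N + 3), (j : ℕ) ≤ N ∧ x.1 = ρ j}

theorem SS_fix (hρ : IsGens Φ ρ) (x : GK ρ) (hx : x ∈ SS ρ) : x • fac0 Φ ρ = fac0 Φ ρ := by
  obtain ⟨j, hj, hxj⟩ := hx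
  apply Subtype.ext
  rw [smul_val, fac0_val, hxj]
  apply (hρ j).2
  intro e
  have := congrArg Fin.val e
  simp only [rI] at this
  omega

theorem ext_hU {q : ℕ} (hE : IsExtension ρ q) : ∀ (H : Type u) [Group H] (f : GK ρ →* H) (t' : H),
    t' * t' = 1 → (∀ x ∈ SS ρ, Commute (f x) t') → (f (rG ρ) * t') ^ (2 * q) = 1 →
      ∃ g : (F ≃o F) →* H, (∀ x : GK ρ, g x = f x) ∧ g (ρ (Fin.last (N + 2))) = t' := by
  intro H _ f t' h1 h2 h3
  apply hE H f t' h1
  · intro j hj hjN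
    exact h2 _ ⟨j, hjN, rfl⟩
  · intro j hj hjN
    have hjr : j = rI N := Fin.ext hjN
    subst hjr
    exact h3

/-- the retraction to the facet group -/
theorem ext_retr (h : IsPolytope rk) (hρ : IsGens Φ ρ) {q : ℕ} (hE : IsExtension ρ q) :
    ∃ g : (F ≃o F) →* GK ρ, (∀ x : GK ρ, g x = x) ∧ g (ρ (Fin.last (N + 2))) = 1 := by
  apply ext_hU hE (GK ρ) (MonoidHom.id _) 1 (one_mul 1)
  · intro x _
    exact Commute.one_right _
  · rw [mul_one, MonoidHom.id_apply, pow_mul, pow_two, rG_sq h hρ, one_pow]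

/-- the facets which do not contain the base face of rank `i` -/
noncomputable def ph (Φ : Flg rk) (ρ : Fin (N + 3) → F ≃o F) (i : Fin (N + 3)) (G : Fac Φ ρ) : ℝ :=
  open Classical in if Φ.1 i ≤ G.1 then 0 else 1

theorem ph_nonneg (i : Fin (N + 3)) (G : Fac Φ ρ) : 0 ≤ ph Φ ρ i G := by
  unfold ph
  split
  · exact le_rfl
  · exact zero_le_one

theorem ph_zero {i : Fin (N + 3)} {G : Fac Φ ρ} (hz : ph Φ ρ i G = 0) : Φ.1 i ≤ G.1 := by
  unfold ph at hz
  split at hz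
  · assumption
  · exact absurd hz one_ne_zero

section main

variable {q : ℕ} (hq : q ≠ 1) (h : IsPolytope rk) (hρ : IsGens Φ ρ)
  (g : (F ≃o F) →* (Module.End ℝ (Fac Φ ρ → ℝ))ˣ)

/-- the functions `ph i` are fixed by the stabiliser of the face of rank `i` -/
theorem ph_fix (hg1 : ∀ x : GK ρ, (g x).val = fnAct (GK ρ) (Fac Φ ρ) x)
    (hg2 : (g (ρ (Fin.last (N + 2)))).val =
      AR1_s (orbMat (fac0 Φ ρ) (rG ρ) (rG_sq h hρ) q hq) (fac0 Φ ρ))
    (i : Fin (N + 3)) (hi : i ≠ Fin.last (N + 2)) (x : F ≃o F)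
    (hx : x ∈ Subgroup.closure (ρ '' {j | j ≠ i})) : (g x).val (ph Φ ρ i) = ph Φ ρ i := by
  induction hx using Subgroup.closure_induction with
  | mem x hx =>
    obtain ⟨j, hj, rfl⟩ := hx
    have hji : i ≠ j := fun e => hj e.symm
    by_cases hjl : j = Fin.last (N + 2)
    · subst hjl
      rw [hg2]
      funext G
      have h0 : ph Φ ρ i (fac0 Φ ρ) = 0 := by
        unfold ph
        rw [if_pos]
        rw [fac0_val]
        apply Φ.2.2.monotone
        rw [Fin.le_def]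
        have h1 := i.2
        have h2 : (i : ℕ) ≠ N + 2 := fun e => hi (Fin.ext e)
        simp only [rI]
        omega
      rw [AR1_s_apply, h0]
      ring
    · have h1 := hg1 ⟨ρ j, gen_mem j hjl⟩
      simp only at h1
      rw [h1]
      funext G
      rw [fnAct_apply]
      have key : (Φ.1 i ≤ ((⟨ρ j, gen_mem j hjl⟩ : GK ρ)⁻¹ • G).1) ↔ Φ.1 i ≤ G.1 := by
        rw [smul_val]
        conv_lhs => rw [← (ρ j).le_iff_le]
        have h2 : (ρ j) (((⟨ρ j, gen_mem j hjl⟩ : GK ρ)⁻¹).1 G.1) = G.1 := by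
          rw [← RelIso.mul_apply]
          have : ρ j * ((⟨ρ j, gen_mem j hjl⟩ : GK ρ)⁻¹).1 = 1 := mul_inv_cancel (ρ j)
          rw [this]
          rfl
        rw [h2, (hρ j).2 i hji]
      unfold ph
      by_cases hle : Φ.1 i ≤ G.1
      · rw [if_pos hle, if_pos (key.mpr hle)]
      · rw [if_neg hle, if_neg (fun e => hle (key.mp e))]
  | one => simp
  | mul x y _ _ hx hy => rw [map_mul, Units.val_mul, Module.End.mul_apply, hy, hx]
  | inv x _ hx =>
    have h1 : (g x⁻¹).val ((g x).val (ph Φ ρ i)) = ph Φ ρ i := by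
      rw [← Module.End.mul_apply, ← Units.val_mul, ← map_mul, inv_mul_cancel]
      simp
    rwa [hx] at h1

theorem const_fix (hg1 : ∀ x : GK ρ, (g x).val = fnAct (GK ρ) (Fac Φ ρ) x) (x : F ≃o F)
    (hx : x ∈ GK ρ) : (g x).val (fun _ => (1 : ℝ)) = fun _ => (1 : ℝ) := by
  have h1 := hg1 ⟨x, hx⟩
  simp only at h1
  rw [h1]
  rfl

end main

theorem ord_middle {L1 L2 : List (Fin (N + 3))}
    (hL : IsOrdering (L1 ++ Fin.last (N + 2) :: L2)) : IsOrd' (L1 ++ L2) := by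
  obtain ⟨h1, h2⟩ := hL
  rw [List.nodup_middle, List.nodup_cons] at h1
  refine ⟨h1.2, fun j => ⟨?_, ?_⟩⟩
  · rintro hj rfl
    exact h1.1 hj
  · intro hj
    have := h2 j
    simp only [List.mem_append, List.mem_cons] at this ⊢
    tauto

theorem key_main {q : ℕ} (hq3 : q = 0 ∨ 3 ≤ q) (h : IsPolytope rk) (hρ : IsGens Φ ρ)
    (hE : IsExtension ρ q) (h3 : ρ (sI N) * ρ (rI N) ≠ ρ (rI N) * ρ (sI N))
    (L1 L2 : List (Fin (N + 3))) (hL : IsOrdering (L1 ++ Fin.last (N + 2) :: L2))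
    (i : Fin (N + 3)) (n : ℕ) (hn : 0 < n)
    (hx : listProd ρ (L1 ++ Fin.last (N + 2) :: L2) ^ n ∈ Subgroup.closure (ρ '' {j | j ≠ i})) :
    (i : ℕ) ≤ N ∧ (listProd ρ (L1 ++ L2) ^ n) (Φ.1 i) = Φ.1 i ∧
      ∀ l : ℕ, Φ.1 i ≤ (listProd ρ (L1 ++ L2) ^ l) (Φ.1 (rI N)) := by
  have hq : q ≠ 1 := by omega
  have hord := ord_middle hL
  obtain ⟨hc1, hc2⟩ := c_ne h hρ h3 (L1 ++ L2) hord
  have hm1 : ∀ j ∈ L1, j ≠ Fin.last (N + 2) := fun j hj => (hord.2 j).mp (by simp [hj])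
  have hm2 : ∀ j ∈ L2, j ≠ Fin.last (N + 2) := fun j hj => (hord.2 j).mp (by simp [hj])
  have hrm : rI N ∈ L1 ∨ rI N ∈ L2 := by
    have := (hord.2 (rI N)).mpr rI_ne_last
    rwa [List.mem_append] at this
  have hrn : ¬ (rI N ∈ L1 ∧ rI N ∈ L2) := by
    rintro ⟨h4, h5⟩
    have h6 := hord.1
    rw [List.nodup_append] at h6
    exact h6.2.2 _ h4 _ h5 rfl
  set u : GK ρ := ⟨listProd ρ L1, listProd_mem _ L1 hm1⟩ with hu
  set v : GK ρ := ⟨listProd ρ L2, listProd_mem _ L2 hm2⟩ with hv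
  have hD : ((u * v : GK ρ) : F ≃o F) = listProd ρ (L1 ++ L2) := by
    rw [listProd_append]
    rfl
  have hDpow : ∀ k : ℕ, (((u * v) ^ k : GK ρ) : F ≃o F) = listProd ρ (L1 ++ L2) ^ k := by
    intro k
    rw [SubmonoidClass.coe_pow, hD]
  have hw : listProd ρ (L1 ++ Fin.last (N + 2) :: L2) =
      (u : F ≃o F) * ρ (Fin.last (N + 2)) * v := by
    rw [listProd_append, listProd_cons, mul_assoc]
  have hd1 : (u * v) • fac0 Φ ρ ≠ fac0 Φ ρ := by
    intro he
    apply hc1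
    have := congrArg Subtype.val he
    rw [smul_val, fac0_val, hD] at this
    exact this
  have hd2 : (u * v) • ((u * v) • fac0 Φ ρ) ≠ fac0 Φ ρ := by
    intro he
    apply hc2
    have := congrArg Subtype.val he
    rw [smul_val, smul_val, fac0_val, hD] at this
    exact this
  have hu0 : u • fac0 Φ ρ = fac0 Φ ρ ∨ u • fac0 Φ ρ = (u * v) • fac0 Φ ρ := by
    rcases hrm with h4 | h4
    · right
      have hv0 : v • fac0 Φ ρ = fac0 Φ ρ := by
        apply Subtype.ext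
        rw [smul_val, fac0_val]
        exact listProd_fix hρ _ L2 (fun j hj e => hrn ⟨h4, e ▸ hj⟩)
      rw [mul_smul, hv0]
    · left
      apply Subtype.ext
      rw [smul_val, fac0_val]
      exact listProd_fix hρ _ L1 (fun j hj e => hrn ⟨e ▸ hj, h4⟩)
  have hp1 : (u * v) • (u • fac0 Φ ρ) ≠ u • fac0 Φ ρ := by
    rcases hu0 with h4 | h4
    · rw [h4]
      exact hd1
    · rw [h4]
      exact fun e => hd1 (smul_left_cancel _ e)
  have hp2 : (u * v) • ((u * v) • (u • fac0 Φ ρ)) ≠ u • fac0 Φ ρ := by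
    rcases hu0 with h4 | h4
    · rw [h4]
      exact hd2
    · rw [h4]
      exact fun e => hd2 (smul_left_cancel _ e)
  obtain ⟨g, hg1, hg2⟩ := core_hom (fac0 Φ ρ) (rG ρ) (rG_sq h hρ) q hq (rG_ne hρ)
    (ρ (Fin.last (N + 2))) (SS ρ) (SS_fix hρ) (ext_hU hE)
  have hcore := core_main (fac0 Φ ρ) (rG ρ) (rG_sq h hρ) q hq hq3 (ρ (Fin.last (N + 2))) g hg1 hg2
    u v hp1 hp2
  rw [hw] at hx
  have hil : i ≠ Fin.last (N + 2) := by
    rintro rfl
    have h4 := hcore (fun _ => 1) (fun _ => zero_le_one) n (const_fix g hg1 _ hx) 1 le_rfl hn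
    exact one_ne_zero h4
  have hph : ∀ l, 1 ≤ l → Φ.1 i ≤ (((u * v)⁻¹) ^ l • (u • fac0 Φ ρ)).1 := by
    intro l hl
    apply ph_zero
    refine hcore (ph Φ ρ i) (ph_nonneg i) (n * l) ?_ l hl (Nat.le_mul_of_pos_left l hn)
    apply ph_fix hq h hρ g hg1 hg2 i hil
    rw [pow_mul]
    exact Subgroup.pow_mem _ hx l
  have hle : ∀ l, 1 ≤ l → Φ.1 i ≤ (((u * v)⁻¹) ^ l • fac0 Φ ρ).1 := by
    intro l hl
    rcases hu0 with h4 | h4
    · have := hph l hl
      rwa [h4] at this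
    · have := hph (l + 1) (by omega)
      rwa [h4, pow_succ, mul_smul, inv_smul_smul] at this
  have hir : i ≠ rI N := by
    rintro rfl
    have h4 := hle 1 le_rfl
    rw [pow_one] at h4
    apply hd1
    have h5 : Φ.1 (rI N) = ((u * v)⁻¹ • fac0 Φ ρ).1 := by
      rcases h4.eq_or_lt with h6 | h6
      · exact h6
      · have h7 := h.lt_rank _ _ h6
        rw [smul_val, fac0_val, rk_map h] at h7
        exact absurd h7 (lt_irrefl _)
    have h6 : fac0 Φ ρ = (u * v)⁻¹ • fac0 Φ ρ := Subtype.ext h5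
    conv_lhs => rw [h6]
    rw [smul_inv_smul]
  have hiN : (i : ℕ) ≤ N := by
    have e1 : (i : ℕ) ≠ N + 1 := fun e => hir (Fin.ext e)
    have e2 : (i : ℕ) ≠ N + 2 := fun e => hil (Fin.ext e)
    have := i.2
    omega
  obtain ⟨κ, hκ1, hκ2⟩ := ext_retr h hρ hE
  have hκw : κ ((u : F ≃o F) * ρ (Fin.last (N + 2)) * v) = u * v := by
    rw [map_mul, map_mul, hκ1, hκ1, hκ2, mul_one]
  have hκfix : ∀ x ∈ Subgroup.closure (ρ '' {j | j ≠ i}), (κ x).1 (Φ.1 i) = Φ.1 i := by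
    intro x hx
    induction hx using Subgroup.closure_induction with
    | mem x hx =>
      obtain ⟨j, hj, rfl⟩ := hx
      by_cases hjl : j = Fin.last (N + 2)
      · rw [hjl, hκ2]
        rfl
      · rw [show κ (ρ j) = ⟨ρ j, gen_mem j hjl⟩ from hκ1 ⟨ρ j, gen_mem j hjl⟩]
        exact (hρ j).2 i (fun e => hj e.symm)
    | one =>
      rw [map_one]
      rfl
    | mul x y _ _ hx hy =>
      rw [map_mul]
      change (κ x).1 ((κ y).1 (Φ.1 i)) = Φ.1 i
      rw [hy, hx]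
    | inv x _ hx =>
      rw [map_inv]
      have h4 : ((κ x)⁻¹).1 ((κ x).1 (Φ.1 i)) = Φ.1 i := by
        rw [← RelIso.mul_apply]
        have : ((κ x)⁻¹).1 * (κ x).1 = 1 := inv_mul_cancel (κ x).1
        rw [this]
        rfl
      rwa [hx] at h4
  have hper : (listProd ρ (L1 ++ L2) ^ n) (Φ.1 i) = Φ.1 i := by
    have h4 := hκfix _ hx
    rw [map_pow, hκw, hDpow] at h4
    exact h4
  have hperm : ∀ m : ℕ, (listProd ρ (L1 ++ L2) ^ (n * m)) (Φ.1 i) = Φ.1 i := by
    intro m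
    induction m with
    | zero => rfl
    | succ m ih =>
      rw [Nat.mul_succ, pow_add, RelIso.mul_apply, hper, ih]
  refine ⟨hiN, hper, ?_⟩
  intro l
  obtain ⟨m, hm⟩ : ∃ m, n * (l + 1) = l + m ∧ 1 ≤ m := by
    refine ⟨n * (l + 1) - l, ?_, ?_⟩
    · have : l + 1 ≤ n * (l + 1) := Nat.le_mul_of_pos_left _ hn
      omega
    · have : l + 1 ≤ n * (l + 1) := Nat.le_mul_of_pos_left _ hn
      omega
  have h4 := hle m hm.2
  rw [smul_val, fac0_val] at h4
  have h5 := (listProd ρ (L1 ++ L2) ^ (n * (l + 1))).monotone h4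
  rw [hperm] at h5
  have h6 : listProd ρ (L1 ++ L2) ^ (n * (l + 1)) * ((((u * v)⁻¹) ^ m : GK ρ) : F ≃o F) =
      listProd ρ (L1 ++ L2) ^ l := by
    rw [inv_pow, Subgroup.coe_inv, hDpow, hm.1, pow_add, mul_inv_cancel_right]
  rw [← RelIso.mul_apply, h6] at h5
  exact h5

/-- The criterion. -/
theorem ext_main {q : ℕ} (hq3 : q = 0 ∨ 3 ≤ q) (h : IsPolytope rk) (hreg : IsRegular rk)
    (hρ : IsGens Φ ρ) (hE : IsExtension ρ q)
    (h3 : ρ (sI N) * ρ (rI N) ≠ ρ (rI N) * ρ (sI N)) :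
    AllAcoptic h ↔ ∀ L : List (Fin (N + 3)), IsOrd' L → ∀ i : Fin (N + 3), (i : ℕ) ≤ N →
      ∀ k : ℕ, 0 < k → (listProd ρ L ^ k) (Φ.1 i) = Φ.1 i →
        ∃ l : ℕ, ¬ Φ.1 i ≤ (listProd ρ L ^ l) (Φ.1 (rI N)) := by
  rw [allAcoptic_iff h hreg hρ]
  constructor
  · intro hA L hL i hi k hk hper
    by_contra hcon
    push Not at hcon
    have hperm : ∀ m : ℕ, (listProd ρ L ^ (k * m)) (Φ.1 i) = Φ.1 i := by
      intro m
      induction m with
      | zero => rfl
      | succ m ih =>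
        rw [Nat.mul_succ, pow_add, RelIso.mul_apply, hper, ih]
    have hle : ∀ l : ℕ, (listProd ρ L ^ l) (Φ.1 i) ≤ Φ.1 (rI N) := by
      intro l
      obtain ⟨m, hm⟩ : ∃ m, k * l = l + m := by
        refine ⟨k * l - l, ?_⟩
        have : l ≤ k * l := Nat.le_mul_of_pos_left _ hk
        omega
      have h4 := hcon m
      have h5 : (listProd ρ L ^ m) ((listProd ρ L ^ l) (Φ.1 i)) ≤
          (listProd ρ L ^ m) (Φ.1 (rI N)) := by
        rw [← RelIso.mul_apply, ← pow_add, show m + l = k * l by omega, hperm]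
        exact h4
      exact (listProd ρ L ^ m).le_iff_le.mp h5
    have hLw : IsOrdering (L ++ Fin.last (N + 2) :: []) := by
      constructor
      · rw [List.nodup_middle, List.nodup_cons, List.append_nil]
        exact ⟨fun hm => (hL.2 _).mp hm rfl, hL.1⟩
      · intro j
        by_cases hj : j = Fin.last (N + 2)
        · simp [hj]
        · rw [List.mem_append]
          exact Or.inl ((hL.2 j).mpr hj)
    have hw : listProd ρ (L ++ Fin.last (N + 2) :: []) =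
        listProd ρ L * ρ (Fin.last (N + 2)) := by
      rw [listProd_append, listProd_cons]
      simp [listProd]
    have hpw : ∀ l : ℕ, (listProd ρ (L ++ Fin.last (N + 2) :: []) ^ l) (Φ.1 i) =
        (listProd ρ L ^ l) (Φ.1 i) := by
      intro l
      induction l with
      | zero => rfl
      | succ l ih =>
        rw [pow_succ', RelIso.mul_apply, ih, hw, RelIso.mul_apply,
          last_fix h hreg hρ _ (hle l), ← RelIso.mul_apply, ← pow_succ']
    have h1 : listProd ρ (L ++ Fin.last (N + 2) :: []) ^ k = 1 := by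
      apply hA _ hLw i k
      apply mem_closure_of_fix h hρ
      rw [hpw, hper]
    have h2 := key_main hq3 h hρ hE h3 L [] hLw (Fin.last (N + 2)) k hk (by
      rw [h1]
      exact Subgroup.one_mem _)
    have h4 := h2.1
    rw [Fin.val_last] at h4
    omega
  · intro hcond L hL i n hn
    rcases Nat.eq_zero_or_pos n with h0 | h0
    · rw [h0, pow_zero]
    exfalso
    obtain ⟨L1, L2, rfl⟩ := List.append_of_mem (hL.2 (Fin.last (N + 2)))
    obtain ⟨h4, h5, h6⟩ := key_main hq3 h hρ hE h3 L1 L2 hL i n h0 hn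
    obtain ⟨l, hl⟩ := hcond (L1 ++ L2) (ord_middle hL) i h4 n h0 h5
    exact hl (h6 l)

end Petrie
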