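import Mathlib
import Pool.Agent.Lib.MP_6ac48b_co.Defs

/-!
# The ordinal sum of two polytopes

If `K` has rank `a` and `L` has rank `b`, the polytope `K + L` has rank `a + b`; its proper faces
are the proper faces of `K` and the proper faces of `L`, and every proper face of `K` lies below
every proper face of `L`. For regular `K`, `L` with Schläfli symbols `{p_1, ..}`, `{q_1, ..}` it is
the regular polytope with the symbol `{p_1, .., 2, q_1, ..}` and the group `Γ(K) × Γ(L)`.
-/

set_option autoImplicit false

namespace Petrie

variable {a b : ℕ} {F G : Type*}

/-- the rank function of the ordinal sum: ranks `0, ..., a - 1` for the faces of `K`, ranks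
`a, ..., a + b - 1` for the faces of `L` -/
def joinRk (rk : F → Fin a) (sk : G → Fin b) (x : F ⊕ₗ G) : Fin (a + b) :=
  Sum.elim (fun y => Fin.castAdd b (rk y)) (fun z => Fin.natAdd a (sk z)) (ofLex x)

end Petrie
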