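import Mathlib
import Pool.Agent.Lib.MP_6ac48b_co.JoinDef
import Pool.Agent.Lib.MP_6ac48b_co.Poly2
import Pool.Agent.Lib.MP_6ac48b_co.Conj

/-!
# Petrie schemes of the ordinal sum
-/

set_option autoImplicit false
set_option linter.unusedSectionVars false

namespace Petrie

variable {a b : ℕ} {F G : Type*} [PartialOrder F] [PartialOrder G] {rk : F → Fin a}
  {sk : G → Fin b}

theorem castAdd_lt_natAdd (i : Fin a) (j : Fin b) : Fin.castAdd b i < Fin.natAdd a j := by
  rw [Fin.lt_def, Fin.val_castAdd, Fin.val_natAdd]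
  have := i.2
  omega

theorem castAdd_lt_iff {i j : Fin a} : Fin.castAdd b i < Fin.castAdd b j ↔ i < j := Iff.rfl

theorem natAdd_lt_iff {i j : Fin b} : Fin.natAdd a i < Fin.natAdd a j ↔ i < j := by
  rw [Fin.lt_def, Fin.lt_def, Fin.val_natAdd, Fin.val_natAdd]
  omega

theorem castAdd_ne_natAdd (i : Fin a) (j : Fin b) : Fin.castAdd b i ≠ Fin.natAdd a j :=
  (castAdd_lt_natAdd i j).ne

theorem joinRk_inl (y : F) : joinRk rk sk (toLex (Sum.inl y)) = Fin.castAdd b (rk y) := rfl

theorem joinRk_inr (z : G) : joinRk rk sk (toLex (Sum.inr z)) = Fin.natAdd a (sk z) := rfl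

/-- faces of `K + L` are faces of `K` or of `L` -/
theorem lex_cases {p : F ⊕ₗ G → Prop} (x : F ⊕ₗ G) (h1 : ∀ y, p (toLex (Sum.inl y)))
    (h2 : ∀ z, p (toLex (Sum.inr z))) : p x := by
  rcases hx : ofLex x with y | z
  · have : x = toLex (Sum.inl y) := by rw [← hx, toLex_ofLex]
    rw [this]; exact h1 y
  · have : x = toLex (Sum.inr z) := by rw [← hx, toLex_ofLex]
    rw [this]; exact h2 z

/-- the flag of `K + L` with the parts `A`, `B` -/
def fp (A : Flg rk) (B : Flg sk) : Flg (joinRk rk sk) :=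
  ⟨Fin.append (fun i => (toLex (Sum.inl (A.1 i)) : F ⊕ₗ G)) (fun j => toLex (Sum.inr (B.1 j))), by
    constructor
    · intro i
      refine Fin.addCases (fun i => ?_) (fun j => ?_) i
      · rw [Fin.append_left, joinRk_inl, A.2.1]
      · rw [Fin.append_right, joinRk_inr, B.2.1]
    · intro i j
      refine Fin.addCases (fun i => ?_) (fun i => ?_) i <;>
      refine Fin.addCases (fun j => ?_) (fun j => ?_) j
      · intro h
        rw [Fin.append_left, Fin.append_left, Sum.Lex.inl_lt_inl_iff]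
        exact A.2.2 (castAdd_lt_iff.1 h)
      · intro _
        rw [Fin.append_left, Fin.append_right]
        exact Sum.Lex.inl_lt_inr _ _
      · intro h
        exact absurd h (not_lt.2 (castAdd_lt_natAdd j i).le)
      · intro h
        rw [Fin.append_right, Fin.append_right, Sum.Lex.inr_lt_inr_iff]
        exact B.2.2 (natAdd_lt_iff.1 h)⟩

theorem fp_left (A : Flg rk) (B : Flg sk) (i : Fin a) :
    (fp A B).1 (Fin.castAdd b i) = toLex (Sum.inl (A.1 i)) := by
  show Fin.append (fun i => (toLex (Sum.inl (A.1 i)) : F ⊕ₗ G))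
    (fun j => toLex (Sum.inr (B.1 j))) (Fin.castAdd b i) = _
  rw [Fin.append_left]

theorem fp_right (A : Flg rk) (B : Flg sk) (j : Fin b) :
    (fp A B).1 (Fin.natAdd a j) = toLex (Sum.inr (B.1 j)) := by
  show Fin.append (fun i => (toLex (Sum.inl (A.1 i)) : F ⊕ₗ G))
    (fun j => toLex (Sum.inr (B.1 j))) (Fin.natAdd a j) = _
  rw [Fin.append_right]

theorem castAdd_mono {i j : Fin a} (h : i < j) : Fin.castAdd b i < Fin.castAdd b j := h

theorem natAdd_mono {i j : Fin b} (h : i < j) : Fin.natAdd a i < Fin.natAdd a j := by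
  rw [Fin.lt_def] at h ⊢
  rw [Fin.val_natAdd, Fin.val_natAdd]
  omega

theorem inl_inj {y y' : F} (h : (toLex (Sum.inl y) : F ⊕ₗ G) = toLex (Sum.inl y')) : y = y' :=
  Sum.inl.inj (toLex.injective h)

theorem inr_inj {z z' : G} (h : (toLex (Sum.inr z) : F ⊕ₗ G) = toLex (Sum.inr z')) : z = z' :=
  Sum.inr.inj (toLex.injective h)

theorem fp_inj {A A' : Flg rk} {B B' : Flg sk} (h : fp A B = fp A' B') : A = A' ∧ B = B' := by
  constructor
  · apply flg_ext
    intro i
    have h1 := congrArg (fun X : Flg (joinRk rk sk) => X.1 (Fin.castAdd b i)) h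
    simp only [fp_left] at h1
    exact inl_inj h1
  · apply flg_ext
    intro i
    have h1 := congrArg (fun X : Flg (joinRk rk sk) => X.1 (Fin.natAdd a i)) h
    simp only [fp_right] at h1
    exact inr_inj h1

theorem exists_fp (Ψ : Flg (joinRk rk sk)) : ∃ (A : Flg rk) (B : Flg sk), Ψ = fp A B := by
  have h1 : ∀ i : Fin a, ∃ y : F, Ψ.1 (Fin.castAdd b i) = toLex (Sum.inl y) := by
    intro i
    have h := Ψ.2.1 (Fin.castAdd b i)
    revert h
    refine lex_cases (p := fun x => joinRk rk sk x = Fin.castAdd b i →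
      ∃ y : F, x = toLex (Sum.inl y)) (Ψ.1 (Fin.castAdd b i)) (fun y _ => ⟨y, rfl⟩)
      (fun z h => ?_)
    rw [joinRk_inr] at h
    exact absurd h.symm (castAdd_ne_natAdd _ _)
  have h2 : ∀ j : Fin b, ∃ z : G, Ψ.1 (Fin.natAdd a j) = toLex (Sum.inr z) := by
    intro j
    have h := Ψ.2.1 (Fin.natAdd a j)
    revert h
    refine lex_cases (p := fun x => joinRk rk sk x = Fin.natAdd a j →
      ∃ z : G, x = toLex (Sum.inr z)) (Ψ.1 (Fin.natAdd a j)) (fun y h => ?_)
      (fun z _ => ⟨z, rfl⟩)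
    rw [joinRk_inl] at h
    exact absurd h (castAdd_ne_natAdd _ _)
  choose A hA using h1
  choose B hB using h2
  refine ⟨⟨A, ?_, ?_⟩, ⟨B, ?_, ?_⟩, ?_⟩
  · intro i
    have h := Ψ.2.1 (Fin.castAdd b i)
    rw [hA, joinRk_inl] at h
    exact Fin.castAdd_injective a b h
  · intro i j hij
    have h := Ψ.2.2 (castAdd_mono (b := b) hij)
    rw [hA, hA, Sum.Lex.inl_lt_inl_iff] at h
    exact h
  · intro j
    have h := Ψ.2.1 (Fin.natAdd a j)
    rw [hB, joinRk_inr] at h
    exact Fin.natAdd_injective b a h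
  · intro i j hij
    have h := Ψ.2.2 (natAdd_mono (a := a) hij)
    rw [hB, hB, Sum.Lex.inr_lt_inr_iff] at h
    exact h
  · apply flg_ext
    intro i
    refine Fin.addCases (fun i => ?_) (fun j => ?_) i
    · rw [fp_left, hA]
    · rw [fp_right, hB]

theorem adj_left {A A' : Flg rk} (B : Flg sk) {i : Fin a} (h : Adjacent i A A') :
    Adjacent (Fin.castAdd b i) (fp A B) (fp A' B) := by
  refine ⟨?_, ?_⟩
  · rw [fp_left, fp_left]
    exact fun h' => h.1 (inl_inj h')
  · intro j
    refine Fin.addCases (fun j => ?_) (fun j => ?_) j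
    · intro hj
      rw [fp_left, fp_left, h.2 j (fun h' => hj (by rw [h']))]
    · intro _
      rw [fp_right, fp_right]

theorem adj_right (A : Flg rk) {B B' : Flg sk} {i : Fin b} (h : Adjacent i B B') :
    Adjacent (Fin.natAdd a i) (fp A B) (fp A B') := by
  refine ⟨?_, ?_⟩
  · rw [fp_right, fp_right]
    exact fun h' => h.1 (inr_inj h')
  · intro j
    refine Fin.addCases (fun j => ?_) (fun j => ?_) j
    · intro _
      rw [fp_left, fp_left]
    · intro hj
      rw [fp_right, fp_right, h.2 j (fun h' => hj (by rw [h']))]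

theorem of_adj_left {A A' : Flg rk} {B B' : Flg sk} {i : Fin a}
    (h : Adjacent (Fin.castAdd b i) (fp A B) (fp A' B')) : Adjacent i A A' ∧ B' = B := by
  refine ⟨⟨?_, ?_⟩, ?_⟩
  · intro h'
    apply h.1
    rw [fp_left, fp_left, h']
  · intro j hj
    have h1 := h.2 (Fin.castAdd b j) (fun h' => hj (Fin.castAdd_injective a b h'))
    rw [fp_left, fp_left] at h1
    exact inl_inj h1
  · apply flg_ext
    intro j
    have h1 := h.2 (Fin.natAdd a j) (fun h' => castAdd_ne_natAdd _ _ h'.symm)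
    rw [fp_right, fp_right] at h1
    exact inr_inj h1

theorem of_adj_right {A A' : Flg rk} {B B' : Flg sk} {i : Fin b}
    (h : Adjacent (Fin.natAdd a i) (fp A B) (fp A' B')) : A' = A ∧ Adjacent i B B' := by
  refine ⟨?_, ?_, ?_⟩
  · apply flg_ext
    intro j
    have h1 := h.2 (Fin.castAdd b j) (castAdd_ne_natAdd _ _)
    rw [fp_left, fp_left] at h1
    exact inl_inj h1
  · intro h'
    apply h.1
    rw [fp_right, fp_right, h']
  · intro j hj
    have h1 := h.2 (Fin.natAdd a j) (fun h' => hj (Fin.natAdd_injective b a h'))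
    rw [fp_right, fp_right] at h1
    exact inr_inj h1

/-- `K + L` is a polytope -/
theorem join_polytope (h1 : IsPolytope rk) (h2 : IsPolytope sk) : IsPolytope (joinRk rk sk) := by
  refine ⟨?_, ?_, ?_, ?_⟩
  · intro x y
    refine lex_cases (p := fun x => x < y → joinRk rk sk x < joinRk rk sk y) x
      (fun x => ?_) (fun x => ?_) <;>
    refine lex_cases (p := fun y => _ < y → joinRk rk sk _ < joinRk rk sk y) y
      (fun y => ?_) (fun y => ?_)
    · intro h
      rw [Sum.Lex.inl_lt_inl_iff] at h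
      rw [joinRk_inl, joinRk_inl]
      exact castAdd_mono (h1.lt_rank _ _ h)
    · intro _
      rw [joinRk_inl, joinRk_inr]
      exact castAdd_lt_natAdd _ _
    · intro h
      exact absurd h Sum.Lex.not_inr_lt_inl
    · intro h
      rw [Sum.Lex.inr_lt_inr_iff] at h
      rw [joinRk_inr, joinRk_inr]
      exact natAdd_mono (h2.lt_rank _ _ h)
  · intro C hC
    obtain ⟨A, hA⟩ := h1.chain {y | (toLex (Sum.inl y) : F ⊕ₗ G) ∈ C} (by
      intro y hy y' hy' hne
      have : (toLex (Sum.inl y) : F ⊕ₗ G) ≤ toLex (Sum.inl y') ∨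
          (toLex (Sum.inl y') : F ⊕ₗ G) ≤ toLex (Sum.inl y) :=
        hC hy hy' (fun h => hne (inl_inj h))
      rw [Sum.Lex.inl_le_inl_iff, Sum.Lex.inl_le_inl_iff] at this
      exact this)
    obtain ⟨B, hB⟩ := h2.chain {z | (toLex (Sum.inr z) : F ⊕ₗ G) ∈ C} (by
      intro y hy y' hy' hne
      have : (toLex (Sum.inr y) : F ⊕ₗ G) ≤ toLex (Sum.inr y') ∨
          (toLex (Sum.inr y') : F ⊕ₗ G) ≤ toLex (Sum.inr y) :=
        hC hy hy' (fun h => hne (inr_inj h))
      rw [Sum.Lex.inr_le_inr_iff, Sum.Lex.inr_le_inr_iff] at this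
      exact this)
    refine ⟨fp A B, ?_⟩
    intro x
    refine lex_cases (p := fun x => x ∈ C → x ∈ Set.range (fp A B).1) x (fun y hy => ?_)
      (fun z hz => ?_)
    · obtain ⟨i, hi⟩ := hA hy
      exact ⟨Fin.castAdd b i, by rw [fp_left, hi]⟩
    · obtain ⟨i, hi⟩ := hB hz
      exact ⟨Fin.natAdd a i, by rw [fp_right, hi]⟩
  · intro Φ Ψ
    obtain ⟨A, B, rfl⟩ := exists_fp Φ
    obtain ⟨A', B', rfl⟩ := exists_fp Ψ
    have c1 := h1.conn A A'
    have c2 := h2.conn B B'
    refine Relation.ReflTransGen.trans (b := fp A' B) ?_ ?_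
    · refine Relation.ReflTransGen.lift (fun X => fp X B) ?_ _ _ c1
      rintro X Y ⟨⟨i, hi⟩, hY⟩
      refine ⟨⟨_, adj_left B hi⟩, ?_⟩
      intro j
      refine Fin.addCases (fun j => ?_) (fun j => ?_) j
      · intro hj
        rw [fp_left, fp_left] at hj ⊢
        rw [hY j (inl_inj hj)]
      · intro _
        rw [fp_right, fp_right]
    · refine Relation.ReflTransGen.lift (fun X => fp A' X) ?_ _ _ c2
      rintro X Y ⟨⟨i, hi⟩, hY⟩
      refine ⟨⟨_, adj_right A' hi⟩, ?_⟩
      intro j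
      refine Fin.addCases (fun j => ?_) (fun j => ?_) j
      · intro hj
        rw [fp_left, fp_left] at hj ⊢
        exact hj.symm
      · intro hj
        rw [fp_right, fp_right] at hj ⊢
        rw [hY j (inr_inj hj)]
  · intro Ψ i
    obtain ⟨A, B, rfl⟩ := exists_fp Ψ
    refine Fin.addCases (fun i => ?_) (fun i => ?_) i
    · refine ⟨fp (adj h1 i A) B, adj_left B (adj_spec h1 i A), ?_⟩
      intro Y hY
      obtain ⟨A', B', rfl⟩ := exists_fp Y
      obtain ⟨e1, e2⟩ := of_adj_left hY
      rw [e2, adj_unique h1 e1]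
    · refine ⟨fp A (adj h2 i B), adj_right A (adj_spec h2 i B), ?_⟩
      intro Y hY
      obtain ⟨A', B', rfl⟩ := exists_fp Y
      obtain ⟨e1, e2⟩ := of_adj_right hY
      rw [e1, adj_unique h2 e2]

theorem join_adj_left (h1 : IsPolytope rk) (h : IsPolytope (joinRk rk sk)) (A : Flg rk)
    (B : Flg sk) (i : Fin a) : adj h (Fin.castAdd b i) (fp A B) = fp (adj h1 i A) B :=
  (adj_unique h (adj_left B (adj_spec h1 i A))).symm

theorem join_adj_right (h2 : IsPolytope sk) (h : IsPolytope (joinRk rk sk)) (A : Flg rk)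
    (B : Flg sk) (i : Fin b) : adj h (Fin.natAdd a i) (fp A B) = fp A (adj h2 i B) :=
  (adj_unique h (adj_right A (adj_spec h2 i B))).symm

/-- the left part of an index -/
def pL (a b : ℕ) (i : Fin (a + b)) : Option (Fin a) :=
  Fin.addCases (motive := fun _ => Option (Fin a)) some (fun _ => none) i

/-- the right part of an index -/
def pR (a b : ℕ) (i : Fin (a + b)) : Option (Fin b) :=
  Fin.addCases (motive := fun _ => Option (Fin b)) (fun _ => none) some i

theorem pL_left (i : Fin a) : pL a b (Fin.castAdd b i) = some i := by simp [pL]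
theorem pL_right (i : Fin b) : pL a b (Fin.natAdd a i) = none := by simp [pL]
theorem pR_left (i : Fin a) : pR a b (Fin.castAdd b i) = none := by simp [pR]
theorem pR_right (i : Fin b) : pR a b (Fin.natAdd a i) = some i := by simp [pR]

theorem pL_some {x : Fin (a + b)} {i : Fin a} (h : pL a b x = some i) : x = Fin.castAdd b i := by
  revert h
  refine Fin.addCases (fun j => ?_) (fun j => ?_) x
  · intro h
    rw [pL_left, Option.some_inj] at h
    rw [h]
  · intro h
    rw [pL_right] at h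
    exact absurd h (by simp)

theorem pR_some {x : Fin (a + b)} {i : Fin b} (h : pR a b x = some i) : x = Fin.natAdd a i := by
  revert h
  refine Fin.addCases (fun j => ?_) (fun j => ?_) x
  · intro h
    rw [pR_left] at h
    exact absurd h (by simp)
  · intro h
    rw [pR_right, Option.some_inj] at h
    rw [h]

theorem foldl_fp (h1 : IsPolytope rk) (h2 : IsPolytope sk) (h : IsPolytope (joinRk rk sk))
    (L : List (Fin (a + b))) : ∀ (A : Flg rk) (B : Flg sk),
    L.foldl (fun Ψ i => adj h i Ψ) (fp A B) =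
      fp ((L.filterMap (pL a b)).foldl (fun Ψ i => adj h1 i Ψ) A)
        ((L.filterMap (pR a b)).foldl (fun Ψ i => adj h2 i Ψ) B) := by
  induction L with
  | nil => intro A B; rfl
  | cons x L ih =>
    intro A B
    rw [List.foldl_cons]
    refine Fin.addCases (fun i => ?_) (fun i => ?_) x
    · rw [join_adj_left h1, ih, List.filterMap_cons_some (pL_left i),
        List.filterMap_cons_none (pR_left i), List.foldl_cons]
    · rw [join_adj_right h2, ih, List.filterMap_cons_none (pL_right i),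
        List.filterMap_cons_some (pR_right i), List.foldl_cons]

theorem ordering_left {L : List (Fin (a + b))} (hL : IsOrdering L) :
    IsOrdering (L.filterMap (pL a b)) := by
  refine ⟨?_, ?_⟩
  · refine hL.1.filterMap ?_
    intro x y i hx hy
    rw [pL_some hx, pL_some hy]
  · intro i
    rw [List.mem_filterMap]
    exact ⟨_, hL.2 (Fin.castAdd b i), pL_left i⟩

theorem ordering_right {L : List (Fin (a + b))} (hL : IsOrdering L) :
    IsOrdering (L.filterMap (pR a b)) := by
  refine ⟨?_, ?_⟩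
  · refine hL.1.filterMap ?_
    intro x y i hx hy
    rw [pR_some hx, pR_some hy]
  · intro i
    rw [List.mem_filterMap]
    exact ⟨_, hL.2 (Fin.natAdd a i), pR_right i⟩

/-- the ordering of `0, ..., a + b - 1` composed of two orderings -/
def joinList (L1 : List (Fin a)) (L2 : List (Fin b)) : List (Fin (a + b)) :=
  L1.map (Fin.castAdd b) ++ L2.map (Fin.natAdd a)

theorem joinList_left (L1 : List (Fin a)) (L2 : List (Fin b)) :
    (joinList L1 L2).filterMap (pL a b) = L1 := by
  rw [joinList, List.filterMap_append, List.filterMap_map, List.filterMap_map]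
  have e1 : (pL a b ∘ Fin.castAdd b) = some := funext fun i => pL_left i
  have e2 : (pL a b ∘ Fin.natAdd a) = fun _ => none := funext fun i => pL_right i
  rw [e1, e2, List.filterMap_some]
  simp

theorem joinList_right (L1 : List (Fin a)) (L2 : List (Fin b)) :
    (joinList L1 L2).filterMap (pR a b) = L2 := by
  rw [joinList, List.filterMap_append, List.filterMap_map, List.filterMap_map]
  have e1 : (pR a b ∘ Fin.castAdd b) = fun _ => none := funext fun i => pR_left i
  have e2 : (pR a b ∘ Fin.natAdd a) = some := funext fun i => pR_right i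
  rw [e1, e2, List.filterMap_some]
  simp

theorem joinList_ordering {L1 : List (Fin a)} {L2 : List (Fin b)} (h1 : IsOrdering L1)
    (h2 : IsOrdering L2) : IsOrdering (joinList L1 L2) := by
  refine ⟨?_, ?_⟩
  · rw [joinList, List.nodup_append]
    refine ⟨h1.1.map (Fin.castAdd_injective a b), h2.1.map (Fin.natAdd_injective b a), ?_⟩
    intro x hx y hy
    rw [List.mem_map] at hx hy
    obtain ⟨i, -, rfl⟩ := hx
    obtain ⟨j, -, rfl⟩ := hy
    exact castAdd_ne_natAdd i j
  · intro x
    rw [joinList, List.mem_append, List.mem_map, List.mem_map]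
    refine Fin.addCases (fun i => ?_) (fun i => ?_) x
    · exact Or.inl ⟨i, h1.2 i, rfl⟩
    · exact Or.inr ⟨i, h2.2 i, rfl⟩

theorem isPetrie_fp (h1 : IsPolytope rk) (h2 : IsPolytope sk) (h : IsPolytope (joinRk rk sk))
    {L1 : List (Fin a)} {L2 : List (Fin b)} {A : ℤ → Flg rk} {B : ℤ → Flg sk}
    (hA : IsPetrie h1 L1 A) (hB : IsPetrie h2 L2 B) :
    IsPetrie h (joinList L1 L2) (fun k => fp (A k) (B k)) := by
  intro k
  simp only
  rw [foldl_fp h1 h2, joinList_left, joinList_right, hA k, hB k]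

theorem exists_isPetrie_fp (h1 : IsPolytope rk) (h2 : IsPolytope sk)
    (h : IsPolytope (joinRk rk sk)) {L : List (Fin (a + b))} {Θ : ℤ → Flg (joinRk rk sk)}
    (hΘ : IsPetrie h L Θ) : ∃ (A : ℤ → Flg rk) (B : ℤ → Flg sk), (∀ k, Θ k = fp (A k) (B k)) ∧
      IsPetrie h1 (L.filterMap (pL a b)) A ∧ IsPetrie h2 (L.filterMap (pR a b)) B := by
  choose A B hAB using fun k => exists_fp (Θ k)
  refine ⟨A, B, hAB, ?_, ?_⟩
  · intro k
    have := hΘ k
    rw [hAB, hAB k, foldl_fp h1 h2] at this
    exact (fp_inj this).1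
  · intro k
    have := hΘ k
    rw [hAB, hAB k, foldl_fp h1 h2] at this
    exact (fp_inj this).2

/-- the adjacency as a permutation of the flags -/
noncomputable def listPerm (h : IsPolytope rk) : List (Fin a) → Equiv.Perm (Flg rk)
  | [] => 1
  | i :: L => listPerm h L * ⟨adj h i, adj h i, adj_adj h i, adj_adj h i⟩

theorem listPerm_apply (h : IsPolytope rk) (L : List (Fin a)) : ∀ Ψ : Flg rk,
    listPerm h L Ψ = L.foldl (fun Ψ i => adj h i Ψ) Ψ := by
  induction L with
  | nil => intro Ψ; rfl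
  | cons i L ih =>
    intro Ψ
    rw [listPerm, Equiv.Perm.mul_apply, ih, List.foldl_cons]
    rfl

theorem exists_isPetrie (h : IsPolytope rk) (L : List (Fin a)) :
    ∃ Θ : ℤ → Flg rk, IsPetrie h L Θ := by
  obtain ⟨Ψ, -⟩ := h.chain ∅ (by simp)
  refine ⟨fun k => (listPerm h L ^ k) Ψ, ?_⟩
  intro k
  simp only
  rw [← listPerm_apply, ← Equiv.Perm.mul_apply, ← zpow_one_add, add_comm]

theorem finRange_ordering (a : ℕ) : IsOrdering (List.finRange a) :=
  ⟨List.nodup_finRange a, fun i => List.mem_finRange i⟩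

/-- the main equivalence -/
theorem join_acoptic (ha : 0 < a) (hb : 0 < b) (h1 : IsPolytope rk) (h2 : IsPolytope sk)
    (h : IsPolytope (joinRk rk sk)) :
    AllAcoptic h ↔ AllAcoptic h1 ∧ AllAcoptic h2 ∧
      ∀ L1 L2, IsOrdering L1 → IsOrdering L2 → ∀ (A : ℤ → Flg rk) (B : ℤ → Flg sk),
        IsPetrie h1 L1 A → IsPetrie h2 L2 B → ∀ k l, A k = A l ↔ B k = B l := by
  constructor
  · intro hA
    have key : ∀ L1 L2, IsOrdering L1 → IsOrdering L2 → ∀ (A : ℤ → Flg rk) (B : ℤ → Flg sk),
        IsPetrie h1 L1 A → IsPetrie h2 L2 B → ∀ k l,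
        (∀ i, (A k).1 i = (A l).1 i → A k = A l ∧ B k = B l) ∧
        (∀ i, (B k).1 i = (B l).1 i → A k = A l ∧ B k = B l) := by
      intro L1 L2 o1 o2 A B hPA hPB k l
      have h3 := hA _ (joinList_ordering o1 o2) _ (isPetrie_fp h1 h2 h hPA hPB) k l
      constructor
      · intro i hi
        exact fp_inj (h3 (Fin.castAdd b i) (by rw [fp_left, fp_left, hi]))
      · intro i hi
        exact fp_inj (h3 (Fin.natAdd a i) (by rw [fp_right, fp_right, hi]))
    refine ⟨?_, ?_, ?_⟩
    · intro L1 o1 A hPA k l i hi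
      obtain ⟨B, hPB⟩ := exists_isPetrie h2 (List.finRange b)
      exact ((key L1 _ o1 (finRange_ordering b) A B hPA hPB k l).1 i hi).1
    · intro L2 o2 B hPB k l i hi
      obtain ⟨A, hPA⟩ := exists_isPetrie h1 (List.finRange a)
      exact ((key _ L2 (finRange_ordering a) o2 A B hPA hPB k l).2 i hi).2
    · intro L1 L2 o1 o2 A B hPA hPB k l
      have h3 := key L1 L2 o1 o2 A B hPA hPB k l
      exact ⟨fun e => (h3.1 ⟨0, ha⟩ (by rw [e])).2, fun e => (h3.2 ⟨0, hb⟩ (by rw [e])).1⟩
  · rintro ⟨hA1, hA2, hAB⟩ L hL Θ hΘ k l i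
    obtain ⟨A, B, hΘ', hPA, hPB⟩ := exists_isPetrie_fp h1 h2 h hΘ
    have h3 := hAB _ _ (ordering_left hL) (ordering_right hL) A B hPA hPB k l
    rw [hΘ', hΘ']
    refine Fin.addCases (fun i => ?_) (fun i => ?_) i
    · intro hi
      rw [fp_left, fp_left] at hi
      have e := hA1 _ (ordering_left hL) A hPA k l i (inl_inj hi)
      rw [e, h3.1 e]
    · intro hi
      rw [fp_right, fp_right] at hi
      have e := hA2 _ (ordering_right hL) B hPB k l i (inr_inj hi)
      rw [e, h3.2 e]

/-- the sum of regular polytopes is regular -/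
theorem join_regular (r1 : IsRegular rk) (r2 : IsRegular sk) : IsRegular (joinRk rk sk) := by
  intro Φ Ψ
  obtain ⟨A, B, rfl⟩ := exists_fp Φ
  obtain ⟨A', B', rfl⟩ := exists_fp Ψ
  obtain ⟨g1, hg1⟩ := r1 A A'
  obtain ⟨g2, hg2⟩ := r2 B B'
  refine ⟨OrderIso.sumLexCongr g1 g2, ?_⟩
  intro i
  refine Fin.addCases (fun i => ?_) (fun i => ?_) i
  · rw [fp_left, fp_left, ← hg1]
    rfl
  · rw [fp_right, fp_right, ← hg2]
    rfl

section regular

variable {Φ : Flg rk} {ρ : Fin a → F ≃o F}

/-- all Petrie products of a regular polytope are conjugate -/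
theorem listProd_conj (h : IsPolytope rk) (hρ : IsGens Φ ρ) (ha : 0 < a) {L L' : List (Fin a)}
    (hL : IsOrdering L) (hL' : IsOrdering L') : IsConj (listProd ρ L) (listProd ρ L') := by
  let s : ℕ → (F ≃o F) := fun j => if hj : j < a then ρ ⟨j, hj⟩ else 1
  have hs : ∀ i j, i + 2 ≤ j → Commute (s i) (s j) := by
    intro i j hij
    by_cases hj : j < a
    · have hi : i < a := by omega
      simp only [s, dif_pos hj, dif_pos hi]
      exact gens_commute h hρ ⟨i, hi⟩ ⟨j, hj⟩ hij
    · simp only [s, dif_neg hj]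
      exact Commute.one_right _
  have hprod : ∀ M : List (Fin a), listProd ρ M = ((M.map Fin.val).map s).prod := by
    intro M
    rw [listProd, List.map_map]
    congr 1
    apply List.map_congr_left
    intro i _
    simp [s]
  have hnd : ∀ M : List (Fin a), IsOrdering M → (M.map Fin.val).Nodup := fun M hM =>
    hM.1.map Fin.val_injective
  have hmem : ∀ M : List (Fin a), IsOrdering M →
      ∀ x, x ∈ M.map Fin.val ↔ 0 ≤ x ∧ x ≤ 0 + (a - 1) := by
    intro M hM x
    rw [List.mem_map]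
    constructor
    · rintro ⟨i, -, rfl⟩
      have := i.2
      omega
    · intro hx
      exact ⟨⟨x, by omega⟩, hM.2 _, rfl⟩
  rw [hprod, hprod]
  exact conj_all s hs 0 (a - 1) _ _ (hnd L hL) (hmem L hL) (hnd L' hL') (hmem L' hL')

theorem listProd_order (h : IsPolytope rk) (hρ : IsGens Φ ρ) (ha : 0 < a) {L L' : List (Fin a)}
    (hL : IsOrdering L) (hL' : IsOrdering L') :
    orderOf (listProd ρ L) = orderOf (listProd ρ L') := by
  obtain ⟨c, hc⟩ := isConj_iff.1 (listProd_conj h hρ ha hL hL')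
  have : listProd ρ L' = c * listProd ρ L * c⁻¹ := hc.symm
  rw [orderOf_eq_orderOf_iff]
  intro n
  rw [this, conj_pow]
  constructor
  · intro h'
    rw [h']
    simp
  · intro h'
    rwa [conj_eq_one_iff] at h'

theorem petrie_eq_iff (h : IsPolytope rk) (hreg : IsRegular rk) (hρ : IsGens Φ ρ)
    (L : List (Fin a)) (Θ : ℤ → Flg rk) (hΘ : IsPetrie h L Θ) (k l : ℤ) :
    Θ k = Θ l ↔ (orderOf (listProd ρ L) : ℤ) ∣ k - l := by
  obtain ⟨g, hg⟩ := petrie_form h hreg hρ L Θ hΘ
  rw [orderOf_dvd_iff_zpow_eq_one, zpow_sub, mul_inv_eq_one, hg, hg]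
  constructor
  · intro h'
    have := act_inj h _ _ Φ h'
    exact mul_left_cancel this
  · intro h'
    rw [h']

variable {Φ' : Flg sk} {σ : Fin b → G ≃o G}

theorem join_regular_acoptic (ha : 0 < a) (hb : 0 < b) (h1 : IsPolytope rk)
    (h2 : IsPolytope sk) (h : IsPolytope (joinRk rk sk)) (r1 : IsRegular rk) (r2 : IsRegular sk)
    (hρ : IsGens Φ ρ) (hσ : IsGens Φ' σ) :
    AllAcoptic h ↔ AllAcoptic h1 ∧ AllAcoptic h2 ∧
      orderOf (listProd ρ (List.finRange a)) = orderOf (listProd σ (List.finRange b)) := by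
  rw [join_acoptic ha hb h1 h2 h]
  refine and_congr_right fun _ => and_congr_right fun _ => ?_
  constructor
  · intro hAB
    have o1 := finRange_ordering a
    have o2 := finRange_ordering b
    have h3 := hAB _ _ o1 o2 _ _ (petrie_of_powers h1 hρ _) (petrie_of_powers h2 hσ _)
    rw [orderOf_eq_orderOf_iff]
    intro n
    have h4 := h3 n 0
    rw [petrie_eq_iff h1 r1 hρ _ _ (petrie_of_powers h1 hρ _),
      petrie_eq_iff h2 r2 hσ _ _ (petrie_of_powers h2 hσ _), sub_zero,
      orderOf_dvd_iff_zpow_eq_one, orderOf_dvd_iff_zpow_eq_one, zpow_natCast, zpow_natCast] at h4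
    exact h4
  · intro ho L1 L2 o1 o2 A B hA hB k l
    rw [petrie_eq_iff h1 r1 hρ _ _ hA, petrie_eq_iff h2 r2 hσ _ _ hB,
      listProd_order h1 hρ ha o1 (finRange_ordering a),
      listProd_order h2 hσ hb o2 (finRange_ordering b), ho]

end regular

end Petrie

namespace Petrie

variable {a b : ℕ} {F G : Type*} [PartialOrder F] [PartialOrder G] {rk : F → Fin a}
  {sk : G → Fin b}

theorem exists_gens (h : IsPolytope rk) (hreg : IsRegular rk) (Φ : Flg rk) :
    ∃ ρ : Fin a → F ≃o F, IsGens Φ ρ := by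
  choose ρ hρ using fun i => hreg Φ (adj h i Φ)
  refine ⟨ρ, fun i => ?_⟩
  have h1 := adj_spec h i Φ
  exact ⟨by rw [hρ i i]; exact h1.1, fun j hj => by rw [hρ i j]; exact h1.2 j hj⟩

theorem join_self (ha : 0 < a) (h1 : IsPolytope rk) (h : IsPolytope (joinRk rk rk))
    (r1 : IsRegular rk) : AllAcoptic h ↔ AllAcoptic h1 := by
  obtain ⟨Φ, -⟩ := h1.chain ∅ (by simp)
  obtain ⟨ρ, hρ⟩ := exists_gens h1 r1 Φ
  rw [join_regular_acoptic ha ha h1 h1 h r1 r1 hρ hρ]
  exact ⟨fun x => x.1, fun x => ⟨x, x, rfl⟩⟩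

end Petrie
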